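import Mathlib

/-!
# Covariogram problem, common definitions (helper files for MP_fb1ba4_gt)
-/

open MeasureTheory Set Filter Topology

namespace Pool.Agent.Helper77.Cov

/-- Euclidean space. -/
abbrev V (d : ℕ) := EuclideanSpace ℝ (Fin d)

/-- Support function of a set in Euclidean space. -/
noncomputable def supp {n : ℕ} (K : Set (V n)) (u : V n) : ℝ :=
  sSup ((fun x => inner ℝ u x) '' K)

/-- Support function of a set in `V d × ℝ` for the Euclidean pairing. -/
noncomputable def suppP {d : ℕ} (K : Set (V d × ℝ)) (u : V d × ℝ) : ℝ :=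
  sSup ((fun p : V d × ℝ => inner ℝ u.1 p.1 + u.2 * p.2) '' K)

/-- Hessian matrix in the standard basis. -/
noncomputable def hess {n : ℕ} (f : V n → ℝ) (x : V n) : Matrix (Fin n) (Fin n) ℝ :=
  Matrix.of fun i j => fderiv ℝ (fderiv ℝ f) x (EuclideanSpace.single i 1)
    (EuclideanSpace.single j 1)

/-- The upper support chart `H₊(σ) = h_K(σ, 1)`. -/
noncomputable def Hup {d : ℕ} (K : Set (V d × ℝ)) (σ : V d) : ℝ := suppP K (σ, 1)

/-- The lower support chart `H₋(σ) = h_K(-σ, -1)`. -/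
noncomputable def Hdn {d : ℕ} (K : Set (V d × ℝ)) (σ : V d) : ℝ := suppP K (-σ, -1)

/-- Fourier transform of the indicator of `K` at the (complex) multiple `z` of `(σ, 1)`. -/
noncomputable def fT {d : ℕ} (K : Set (V d × ℝ)) (σ : V d) (z : ℂ) : ℂ :=
  ∫ p in K, Complex.exp (-Complex.I * z * ((inner ℝ σ p.1 + p.2 : ℝ) : ℂ))

/-- The normalising factor `λ (λ / 2π)^{d/2}`. -/
noncomputable def nrm (d : ℕ) (lam : ℝ) : ℝ := lam * (lam / (2 * Real.pi)) ^ ((d : ℝ) / 2)

/-- The main term of the Fourier transform (an entire function of `z`). -/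
noncomputable def mainT {d : ℕ} (K : Set (V d × ℝ)) (σ : V d) (z : ℂ) : ℂ :=
  Complex.I *
    (Complex.exp (Complex.I * (Real.pi * d / 4 : ℝ)) * (Real.sqrt (hess (Hup K) σ).det : ℂ) *
        Complex.exp (-Complex.I * z * (Hup K σ : ℂ)) -
      Complex.exp (-Complex.I * (Real.pi * d / 4 : ℝ)) * (Real.sqrt (hess (Hdn K) σ).det : ℂ) *
        Complex.exp (Complex.I * z * (Hdn K σ : ℂ)))

/-- A function is `C²` with everywhere positive definite Hessian. -/
def PosC2 {d : ℕ} (f : V d → ℝ) : Prop :=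
  ContDiff ℝ 2 f ∧ ∀ x v : V d, v ≠ 0 → 0 < fderiv ℝ (fderiv ℝ f) x v v

/-- Convex bodies. -/
structure IsBody {E : Type*} [NormedAddCommGroup E] [NormedSpace ℝ E] (K : Set E) : Prop where
  compact : IsCompact K
  convex : Convex ℝ K
  interior_nonempty : (interior K).Nonempty

/-- `K` is a set with `C^k` boundary and strictly positive Gauss curvature: near every boundary
point `x` there is a `C^k` function `ρ` with `K = {ρ ≤ 0}` near `x`, `dρ(x) ≠ 0`, and the second
fundamental form of the level set at `x` (i.e. `D²ρ(x)` on `ker dρ(x)`) is positive definite. -/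
def CkPlus {n : ℕ} (k : ℕ) (K : Set (V n)) : Prop :=
  ∀ x ∈ frontier K, ∃ (U : Set (V n)) (ρ : V n → ℝ), IsOpen U ∧ x ∈ U ∧ ContDiffOn ℝ k ρ U ∧
    K ∩ U = {y ∈ U | ρ y ≤ 0} ∧ fderiv ℝ ρ x ≠ 0 ∧
    ∀ v : V n, v ≠ 0 → fderiv ℝ ρ x v = 0 → 0 < fderiv ℝ (fderiv ℝ ρ) x v v

end Pool.Agent.Helper77.Cov
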