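import Pool.Agent.Helper77.Cov.NoMix

/-!
# Module P: the unordered pairs of curvature functions agree
-/

open Metric Set MeasureTheory Complex Filter Topology

namespace Pool.Agent.Helper77.Cov

variable {d : ℕ}

/-- The phase shift `π d / 2`. -/
noncomputable def phi2 (d : ℕ) : ℝ := 2 * (Real.pi * d / 4)

lemma norm_sq_mainT (K : Set (V d × ℝ)) (σ : V d) (lam : ℝ) :
    ‖mainT K σ lam‖ ^ 2 = pU K σ ^ 2 + qU K σ ^ 2 -
      2 * (pU K σ * qU K σ) * Real.cos (lam * (Hup K σ + Hdn K σ) - phi2 d) := by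
  set p := pU K σ with hp
  set q := qU K σ with hq
  set φ : ℝ := Real.pi * d / 4 with hφ
  set α : ℝ := φ - lam * Hup K σ with hα
  set β : ℝ := -φ + lam * Hdn K σ with hβ
  have h1 : mainT K σ lam = Complex.I * (((p * Real.cos α - q * Real.cos β : ℝ) : ℂ) +
      ((p * Real.sin α - q * Real.sin β : ℝ) : ℂ) * Complex.I) := by
    have e1 : Complex.exp (Complex.I * (φ : ℝ)) * Complex.exp (-Complex.I * lam * (Hup K σ : ℂ))
        = Real.cos α + Real.sin α * Complex.I := by
      rw [← Complex.exp_add]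
      rw [Complex.ofReal_cos, Complex.ofReal_sin, ← Complex.exp_mul_I]
      congr 1
      rw [hα]; push_cast; ring
    have e2 : Complex.exp (-Complex.I * (φ : ℝ)) * Complex.exp (Complex.I * lam * (Hdn K σ : ℂ))
        = Real.cos β + Real.sin β * Complex.I := by
      rw [← Complex.exp_add]
      rw [Complex.ofReal_cos, Complex.ofReal_sin, ← Complex.exp_mul_I]
      congr 1
      rw [hβ]; push_cast; ring
    unfold mainT
    change Complex.I * (Complex.exp (Complex.I * (φ : ℝ)) * (p : ℂ) *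
      Complex.exp (-Complex.I * lam * (Hup K σ : ℂ)) - Complex.exp (-Complex.I * (φ : ℝ)) * (q : ℂ) *
      Complex.exp (Complex.I * lam * (Hdn K σ : ℂ))) = _
    rw [mul_right_comm, e1, mul_right_comm (Complex.exp (-Complex.I * (φ : ℝ))), e2]
    push_cast
    ring
  rw [h1, norm_mul, Complex.norm_I, one_mul, Complex.sq_norm, Complex.normSq_add_mul_I]
  have h2 : lam * (Hup K σ + Hdn K σ) - phi2 d = β - α := by
    rw [hα, hβ, phi2]; ring
  have h5 := Real.cos_sub β α
  rw [h2, h5]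
  have h3 := Real.sin_sq_add_cos_sq α
  have h4 := Real.sin_sq_add_cos_sq β
  linear_combination p ^ 2 * h3 + q ^ 2 * h4

/-- The difference of the squared main terms. -/
noncomputable def DD (K H : Set (V d × ℝ)) (σ : V d) (lam : ℝ) : ℝ :=
  ‖mainT K σ lam‖ ^ 2 - ‖mainT H σ lam‖ ^ 2

noncomputable def PP (K H : Set (V d × ℝ)) (σ : V d) : ℝ :=
  pU K σ ^ 2 + qU K σ ^ 2 - pU H σ ^ 2 - qU H σ ^ 2

noncomputable def QQ (K H : Set (V d × ℝ)) (σ : V d) : ℝ :=
  2 * (pU K σ * qU K σ - pU H σ * qU H σ)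

lemma DD_eq {K H : Set (V d × ℝ)} (h : Pair K H) (σ : V d) (lam : ℝ) :
    DD K H σ lam = PP K H σ - QQ K H σ * Real.cos (lam * (Hup K σ + Hdn K σ) - phi2 d) := by
  unfold DD PP QQ
  rw [norm_sq_mainT, norm_sq_mainT, ← h.width σ]
  ring

lemma norm_fT_eq {K H : Set (V d × ℝ)} (h : Pair K H) (σ : V d) (lam : ℝ) :
    ‖fT K σ lam‖ = ‖fT H σ lam‖ := by
  have h1 := (dirData h σ).prod lam
  have h2 := fT_conj K σ lam
  have h3 := fT_conj H σ lam
  rw [Complex.conj_ofReal] at h2 h3
  rw [h2, h3, Complex.mul_conj, Complex.mul_conj] at h1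
  have h4 : Complex.normSq (fT K σ lam) = Complex.normSq (fT H σ lam) := by exact_mod_cast h1
  rw [Complex.normSq_eq_norm_sq, Complex.normSq_eq_norm_sq] at h4
  exact (sq_eq_sq₀ (norm_nonneg _) (norm_nonneg _)).1 h4

lemma sq_diff_le {M δ x a m : ℝ} (_hM : 0 ≤ M) (hδ : 0 < δ) (hm0 : 0 ≤ m) (hm : m ≤ M) (hx : 0 ≤ x)
    (_ha : 0 ≤ a) (h : |m - a| ≤ x) : |m ^ 2 - a ^ 2| ≤ δ + (M ^ 2 / δ + 1) * x ^ 2 := by
  have h1 : m ^ 2 - a ^ 2 = (m - a) * (2 * m - (m - a)) := by ring
  have h2 : |m ^ 2 - a ^ 2| ≤ x * (2 * M + x) := by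
    rw [h1, abs_mul]
    have h3 : |2 * m - (m - a)| ≤ 2 * M + x := by
      refine (abs_sub _ _).trans ?_
      rw [abs_of_nonneg (by linarith : 0 ≤ 2 * m)]
      linarith
    exact mul_le_mul h h3 (abs_nonneg _) hx
  have h4 : 2 * M * x ≤ δ + M ^ 2 / δ * x ^ 2 := by
    have h5 : 0 ≤ (δ - M * x) ^ 2 / δ := by positivity
    have h6 : (δ - M * x) ^ 2 / δ = δ - 2 * M * x + M ^ 2 / δ * x ^ 2 := by
      field_simp
      ring
    linarith
  nlinarith

lemma measurable_err {K : Set (V d × ℝ)} (hK : IsCompact K) (hup : PosC2 (Hup K))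
    (hdn : PosC2 (Hdn K)) (lam : ℝ) :
    Measurable (fun σ : V d => ‖(nrm d lam : ℂ) * fT K σ lam - mainT K σ lam‖ₑ ^ 2) := by
  have h1 : Continuous (fun σ : V d => (nrm d lam : ℂ) * fT K σ lam - mainT K σ lam) := by
    have h2 : Continuous (fun σ : V d => fT K σ lam) :=
      (continuous_fT hK).comp (f := fun σ : V d => (σ, (lam : ℂ))) (by fun_prop)
    have h3 : Continuous (fun σ : V d => mainT K σ lam) :=
      (continuous_mainT hup hdn).comp (f := fun σ : V d => (σ, (lam : ℂ))) (by fun_prop)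
    exact (continuous_const.mul h2).sub h3
  exact (h1.enorm.measurable).pow_const 2

lemma tendsto_DD {K H : Set (V d × ℝ)} (h : Pair K H) {B : Set (V d)} (hB : IsCompact B) :
    Tendsto (fun lam : ℝ => ∫⁻ σ in B, ENNReal.ofReal |DD K H σ lam|) atTop (𝓝 0) := by
  obtain ⟨M₁, hM₁0, hM₁⟩ := exists_mainT_bound h.upK h.dnK hB.isBounded
  obtain ⟨M₂, hM₂0, hM₂⟩ := exists_mainT_bound h.upH h.dnH hB.isBounded
  set M := max M₁ M₂ with hM
  have hM0 : 0 ≤ M := hM₁0.trans (le_max_left _ _)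
  have hvol : volume B ≠ ⊤ := hB.measure_lt_top.ne
  set AK : ℝ → ENNReal := fun lam => ∫⁻ σ in B,
    ‖(nrm d lam : ℂ) * fT K σ lam - mainT K σ lam‖ₑ ^ 2 with hAK
  set AH : ℝ → ENNReal := fun lam => ∫⁻ σ in B,
    ‖(nrm d lam : ℂ) * fT H σ lam - mainT H σ lam‖ₑ ^ 2 with hAH
  have hA : Tendsto (fun lam => AK lam + AH lam) atTop (𝓝 0) := by
    have := (h.aK.1 B hB.isBounded hB.measurableSet).add (h.aH.1 B hB.isBounded hB.measurableSet)
    rwa [add_zero] at this
  -- pointwise bound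
  have hpt : ∀ δ : ℝ, 0 < δ → ∀ lam : ℝ, ∀ σ ∈ B, ENNReal.ofReal |DD K H σ lam| ≤
      ENNReal.ofReal (2 * δ) + ENNReal.ofReal (M ^ 2 / δ + 1) *
        (‖(nrm d lam : ℂ) * fT K σ lam - mainT K σ lam‖ₑ ^ 2 +
          ‖(nrm d lam : ℂ) * fT H σ lam - mainT H σ lam‖ₑ ^ 2) := by
    intro δ hδ lam σ hσ
    set x := ‖(nrm d lam : ℂ) * fT K σ lam - mainT K σ lam‖ with hx
    set y := ‖(nrm d lam : ℂ) * fT H σ lam - mainT H σ lam‖ with hy
    have hab : ‖(nrm d lam : ℂ) * fT K σ lam‖ = ‖(nrm d lam : ℂ) * fT H σ lam‖ := by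
      rw [norm_mul, norm_mul, norm_fT_eq h]
    set a := ‖(nrm d lam : ℂ) * fT K σ lam‖ with ha
    have h1 : |‖mainT K σ lam‖ - a| ≤ x := by
      rw [ha, hx, norm_sub_rev]; exact abs_norm_sub_norm_le _ _
    have h2 : |‖mainT H σ lam‖ - a| ≤ y := by
      rw [hab, hy, norm_sub_rev]; exact abs_norm_sub_norm_le _ _
    have h3 := sq_diff_le hM0 hδ (norm_nonneg _) ((hM₁ σ hσ lam).trans (le_max_left _ _))
      (norm_nonneg _) (norm_nonneg _) h1
    have h4 := sq_diff_le hM0 hδ (norm_nonneg _) ((hM₂ σ hσ lam).trans (le_max_right _ _))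
      (norm_nonneg _) (norm_nonneg _) h2
    have h5 : |DD K H σ lam| ≤ 2 * δ + (M ^ 2 / δ + 1) * (x ^ 2 + y ^ 2) := by
      have h6 : DD K H σ lam = (‖mainT K σ lam‖ ^ 2 - a ^ 2) - (‖mainT H σ lam‖ ^ 2 - a ^ 2) := by
        unfold DD; ring
      rw [h6]
      refine (abs_sub _ _).trans ?_
      linarith
    have hc : 0 ≤ M ^ 2 / δ + 1 := by positivity
    refine (ENNReal.ofReal_le_ofReal h5).trans (le_of_eq ?_)
    rw [ENNReal.ofReal_add (by positivity) (by positivity), ENNReal.ofReal_mul hc,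
      ENNReal.ofReal_add (sq_nonneg x) (sq_nonneg y), hx, hy, ENNReal.ofReal_pow (norm_nonneg _),
      ENNReal.ofReal_pow (norm_nonneg _), ofReal_norm_eq_enorm, ofReal_norm_eq_enorm]
  have hint : ∀ δ : ℝ, 0 < δ → ∀ lam : ℝ, ∫⁻ σ in B, ENNReal.ofReal |DD K H σ lam| ≤
      ENNReal.ofReal (2 * δ) * volume B + ENNReal.ofReal (M ^ 2 / δ + 1) * (AK lam + AH lam) := by
    intro δ hδ lam
    refine (setLIntegral_mono' hB.measurableSet (hpt δ hδ lam)).trans (le_of_eq ?_)
    rw [lintegral_add_left measurable_const, setLIntegral_const,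
      lintegral_const_mul' _ _ ENNReal.ofReal_ne_top,
      lintegral_add_left (measurable_err h.bK.compact h.upK h.dnK lam)]
  rw [ENNReal.tendsto_nhds_zero]
  intro ε hε
  rcases eq_or_ne ε ⊤ with rfl | hεt
  · exact Eventually.of_forall fun _ => le_top
  set e := ε.toReal with he
  have he0 : 0 < e := ENNReal.toReal_pos hε.ne' hεt
  have heε : ENNReal.ofReal e = ε := ENNReal.ofReal_toReal hεt
  set vB := (volume B).toReal with hvB
  have hvB0 : 0 ≤ vB := ENNReal.toReal_nonneg
  have hvB' : volume B = ENNReal.ofReal vB := (ENNReal.ofReal_toReal hvol).symm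
  set δ : ℝ := e / (4 * (vB + 1)) with hδdef
  have hδ : 0 < δ := by positivity
  have h1 : ENNReal.ofReal (2 * δ) * volume B ≤ ENNReal.ofReal (e / 2) := by
    rw [hvB', ← ENNReal.ofReal_mul (by positivity)]
    apply ENNReal.ofReal_le_ofReal
    rw [hδdef]
    have : 2 * (e / (4 * (vB + 1))) * vB = (e / 2) * (vB / (vB + 1)) := by
      field_simp; ring
    rw [this]
    have h6 : vB / (vB + 1) ≤ 1 := by
      rw [div_le_one (by linarith)]; linarith
    calc (e / 2) * (vB / (vB + 1)) ≤ (e / 2) * 1 := by gcongr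
      _ = e / 2 := mul_one _
  have h2 : Tendsto (fun lam => ENNReal.ofReal (M ^ 2 / δ + 1) * (AK lam + AH lam)) atTop (𝓝 0) := by
    have := ENNReal.Tendsto.const_mul (a := ENNReal.ofReal (M ^ 2 / δ + 1)) hA
      (Or.inr ENNReal.ofReal_ne_top)
    rwa [mul_zero] at this
  have h3 : (0 : ENNReal) < ENNReal.ofReal (e / 2) := ENNReal.ofReal_pos.2 (by linarith)
  filter_upwards [h2.eventually_lt_const h3] with lam hlam
  refine (hint δ hδ lam).trans ((add_le_add h1 hlam.le).trans (le_of_eq ?_))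
  rw [← ENNReal.ofReal_add (by linarith) (by linarith), add_halves, heε]

lemma eq_zero_of_lintegral {F : V d → ℝ} (hF : Continuous F) (σ₀ : V d)
    (h : ∫⁻ σ in closedBall σ₀ 1, ENNReal.ofReal |F σ| = 0) : F σ₀ = 0 := by
  have hm : Measurable (fun σ : V d => ENNReal.ofReal |F σ|) :=
    ENNReal.measurable_ofReal.comp hF.abs.measurable
  rw [lintegral_eq_zero_iff hm] at h
  have h1 : F =ᵐ[volume.restrict (ball σ₀ 1)] (fun _ => (0:ℝ)) := by
    have h2 := ae_restrict_of_ae_restrict_of_subset (ball_subset_closedBall (x := σ₀) (ε := 1)) h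
    filter_upwards [h2] with σ hσ
    simp only [Pi.zero_apply, ENNReal.ofReal_eq_zero] at hσ
    exact abs_eq_zero.1 (le_antisymm hσ (abs_nonneg _))
  have h3 := Measure.eqOn_open_of_ae_eq h1 isOpen_ball hF.continuousOn continuousOn_const
  exact h3 (mem_ball_self one_pos)

lemma tendsto_shift {K H : Set (V d × ℝ)} (h : Pair K H) {B : Set (V d)} (hB : IsCompact B) (s : ℝ) :
    Tendsto (fun lam : ℝ => ∫⁻ σ in B, ENNReal.ofReal |DD K H σ (lam + s)|) atTop (𝓝 0) :=
  (tendsto_DD h hB).comp (tendsto_atTop_add_const_right _ s tendsto_id)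

lemma measurable_DD {K H : Set (V d × ℝ)} (h : Pair K H) (lam : ℝ) :
    Measurable (fun σ : V d => ENNReal.ofReal |DD K H σ lam|) := by
  have h3 : Continuous (fun σ : V d => mainT K σ lam) :=
    (continuous_mainT h.upK h.dnK).comp (f := fun σ : V d => (σ, (lam : ℂ))) (by fun_prop)
  have h4 : Continuous (fun σ : V d => mainT H σ lam) :=
    (continuous_mainT h.upH h.dnH).comp (f := fun σ : V d => (σ, (lam : ℂ))) (by fun_prop)
  have h5 : Continuous (fun σ : V d => DD K H σ lam) := by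
    unfold DD
    exact (h3.norm.pow 2).sub (h4.norm.pow 2)
  exact ENNReal.measurable_ofReal.comp h5.abs.measurable

/-- Key: a continuous function dominated by shifts of `|DD|` vanishes. -/
lemma eq_zero_of_le {K H : Set (V d × ℝ)} (h : Pair K H) {F : V d → ℝ} (hF : Continuous F)
    (σ₀ : V d) (s : ℝ) (hle : ∀ σ lam, |F σ| ≤ 2 * |DD K H σ lam| + 2 * |DD K H σ (lam + s)| +
      2 * |DD K H σ (lam + 2 * s)|) : F σ₀ = 0 := by
  apply eq_zero_of_lintegral hF
  have hB := isCompact_closedBall σ₀ (1:ℝ)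
  have h0 : ∀ lam : ℝ, ∫⁻ σ in closedBall σ₀ 1, ENNReal.ofReal |F σ| ≤
      2 * (∫⁻ σ in closedBall σ₀ 1, ENNReal.ofReal |DD K H σ lam|) +
      2 * (∫⁻ σ in closedBall σ₀ 1, ENNReal.ofReal |DD K H σ (lam + s)|) +
      2 * (∫⁻ σ in closedBall σ₀ 1, ENNReal.ofReal |DD K H σ (lam + 2 * s)|) := by
    intro lam
    have h1 : ∀ σ ∈ closedBall σ₀ (1:ℝ), ENNReal.ofReal |F σ| ≤
        (2 * ENNReal.ofReal |DD K H σ lam| + 2 * ENNReal.ofReal |DD K H σ (lam + s)|) +
        2 * ENNReal.ofReal |DD K H σ (lam + 2 * s)| := by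
      intro σ _
      refine (ENNReal.ofReal_le_ofReal (hle σ lam)).trans (le_of_eq ?_)
      rw [ENNReal.ofReal_add (by positivity) (by positivity),
        ENNReal.ofReal_add (by positivity) (by positivity), ENNReal.ofReal_mul (by norm_num),
        ENNReal.ofReal_mul (by norm_num), ENNReal.ofReal_mul (by norm_num)]
      norm_num
    refine (setLIntegral_mono' hB.measurableSet h1).trans (le_of_eq ?_)
    have m1 := (measurable_DD h lam).const_mul 2
    have m2 := (measurable_DD h (lam + s)).const_mul 2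
    have m3 : Measurable (fun σ : V d => 2 * ENNReal.ofReal |DD K H σ lam| +
      2 * ENNReal.ofReal |DD K H σ (lam + s)|) := m1.add m2
    rw [lintegral_add_left m3, lintegral_add_left m1,
      lintegral_const_mul' _ _ (by simp), lintegral_const_mul' _ _ (by simp),
      lintegral_const_mul' _ _ (by simp)]
  have t : Tendsto (fun lam : ℝ => 2 * (∫⁻ σ in closedBall σ₀ 1, ENNReal.ofReal |DD K H σ lam|) +
      2 * (∫⁻ σ in closedBall σ₀ 1, ENNReal.ofReal |DD K H σ (lam + s)|) +
      2 * (∫⁻ σ in closedBall σ₀ 1, ENNReal.ofReal |DD K H σ (lam + 2 * s)|)) atTop (𝓝 0) := by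
    have t1 := ENNReal.Tendsto.const_mul (a := 2) (tendsto_DD h hB) (Or.inr (by simp))
    have t2 := ENNReal.Tendsto.const_mul (a := 2) (tendsto_shift h hB s) (Or.inr (by simp))
    have t3 := ENNReal.Tendsto.const_mul (a := 2) (tendsto_shift h hB (2 * s)) (Or.inr (by simp))
    have := (t1.add t2).add t3
    simpa using this
  exact le_antisymm (ge_of_tendsto' t h0) zero_le

lemma continuous_PP {K H : Set (V d × ℝ)} (h : Pair K H) : Continuous (PP K H) := by
  have h1 := continuous_pU h.upK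
  have h2 := continuous_qU h.dnK
  have h3 := continuous_pU h.upH
  have h4 := continuous_qU h.dnH
  unfold PP
  fun_prop

lemma continuous_QQ {K H : Set (V d × ℝ)} (h : Pair K H) : Continuous (QQ K H) := by
  have h1 := continuous_pU h.upK
  have h2 := continuous_qU h.dnK
  have h3 := continuous_pU h.upH
  have h4 := continuous_qU h.dnH
  unfold QQ
  fun_prop

lemma PP_eq_zero {K H : Set (V d × ℝ)} (h : Pair K H) (σ₀ : V d) : PP K H σ₀ = 0 := by
  have hw := width_pos h.bK σ₀
  set s : ℝ := Real.pi / (Hup K σ₀ + Hdn K σ₀) with hs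
  have hc : Continuous (fun σ => PP K H σ * (1 - Real.cos (s * (Hup K σ + Hdn K σ)))) := by
    have h1 := continuous_PP h
    have h2 := h.upK.1.continuous
    have h3 := h.dnK.1.continuous
    fun_prop
  have h1 : PP K H σ₀ * (1 - Real.cos (s * (Hup K σ₀ + Hdn K σ₀))) = 0 := by
    apply eq_zero_of_le h hc σ₀ s
    intro σ lam
    set w := Hup K σ + Hdn K σ with hwd
    set c := Real.cos (s * w) with hcd
    set θ := lam * w - phi2 d with hθ
    have e0 := DD_eq h σ lam
    have e1 := DD_eq h σ (lam + s)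
    have e2 := DD_eq h σ (lam + 2 * s)
    have a1 : (lam + s) * w - phi2 d = θ + s * w := by rw [hθ]; ring
    have a2 : (lam + 2 * s) * w - phi2 d = θ + s * w + s * w := by rw [hθ]; ring
    rw [← hwd, ← hθ] at e0
    rw [← hwd, a1] at e1
    rw [← hwd, a2] at e2
    have key : 2 * (PP K H σ * (1 - c)) = DD K H σ lam + DD K H σ (lam + 2 * s)
        - 2 * c * DD K H σ (lam + s) := by
      rw [e0, e1, e2]
      have a3 : Real.cos (θ + s * w + s * w) = 2 * c * Real.cos (θ + s * w) - Real.cos θ := by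
        have b1 : Real.cos (θ + s * w + s * w) = Real.cos (θ + s * w) * Real.cos (s * w) -
          Real.sin (θ + s * w) * Real.sin (s * w) := Real.cos_add _ _
        have b2 : Real.cos θ = Real.cos (θ + s * w) * Real.cos (s * w) +
            Real.sin (θ + s * w) * Real.sin (s * w) := by
          rw [← Real.cos_sub]; congr 1; ring
        rw [b1, b2, hcd]; ring
      rw [a3]; ring
    have hc1 : |c| ≤ 1 := Real.abs_cos_le_one _
    have h2 : 2 * |PP K H σ * (1 - c)| ≤ |DD K H σ lam| + |DD K H σ (lam + 2 * s)|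
        + 2 * |DD K H σ (lam + s)| := by
      calc 2 * |PP K H σ * (1 - c)| = |2 * (PP K H σ * (1 - c))| := by
            rw [abs_mul 2, abs_of_pos (by norm_num : (0:ℝ) < 2)]
        _ ≤ |DD K H σ lam + DD K H σ (lam + 2 * s)| + |2 * c * DD K H σ (lam + s)| := by
            rw [key]; exact abs_sub _ _
        _ ≤ _ := by
            rw [abs_mul, abs_mul, abs_of_pos (by norm_num : (0:ℝ) < 2)]
            have h3 := abs_add_le (DD K H σ lam) (DD K H σ (lam + 2 * s))
            have h4 : 2 * |c| * |DD K H σ (lam + s)| ≤ 2 * |DD K H σ (lam + s)| := by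
              have := mul_le_mul_of_nonneg_right hc1 (abs_nonneg (DD K H σ (lam + s)))
              linarith
            linarith
    have h5 := abs_nonneg (DD K H σ lam)
    have h6 := abs_nonneg (DD K H σ (lam + 2 * s))
    have h7 := abs_nonneg (DD K H σ (lam + s))
    linarith
  have h2 : s * (Hup K σ₀ + Hdn K σ₀) = Real.pi := by
    rw [hs]; field_simp
  rw [h2, Real.cos_pi] at h1
  linarith

lemma QQ_eq_zero {K H : Set (V d × ℝ)} (h : Pair K H) (σ₀ : V d) : QQ K H σ₀ = 0 := by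
  have hw := width_pos h.bK σ₀
  set s : ℝ := (Real.pi / 2) / (Hup K σ₀ + Hdn K σ₀) with hs
  have hc : Continuous (fun σ => QQ K H σ * Real.sin (s * (Hup K σ + Hdn K σ))) := by
    have h1 := continuous_QQ h
    have h2 := h.upK.1.continuous
    have h3 := h.dnK.1.continuous
    fun_prop
  have h1 : QQ K H σ₀ * Real.sin (s * (Hup K σ₀ + Hdn K σ₀)) = 0 := by
    apply eq_zero_of_le h hc σ₀ s
    intro σ lam
    set w := Hup K σ + Hdn K σ with hwd
    set θ := lam * w - phi2 d with hθ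
    have e0 := DD_eq h σ lam
    have e1 := DD_eq h σ (lam + s)
    rw [PP_eq_zero h σ, zero_sub] at e0 e1
    have a1 : (lam + s) * w - phi2 d = θ + s * w := by rw [hθ]; ring
    rw [← hwd, ← hθ] at e0
    rw [← hwd, a1] at e1
    set c := Real.cos (s * w) with hcd
    set S := Real.sin (s * w) with hSd
    have hc1 : |c| ≤ 1 := Real.abs_cos_le_one _
    have hS1 : |S| ≤ 1 := Real.abs_sin_le_one _
    -- `1 ≤ |cos θ| + |sin θ|`
    have h2 : 1 ≤ |Real.cos θ| + |Real.sin θ| := by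
      have h3 := Real.sin_sq_add_cos_sq θ
      have h4 := Real.abs_cos_le_one θ
      have h5 := Real.abs_sin_le_one θ
      have h6 : |Real.cos θ| ^ 2 ≤ |Real.cos θ| := by nlinarith [abs_nonneg (Real.cos θ)]
      have h7 : |Real.sin θ| ^ 2 ≤ |Real.sin θ| := by nlinarith [abs_nonneg (Real.sin θ)]
      rw [sq_abs] at h6 h7
      linarith
    have h3 : QQ K H σ * S * Real.sin θ = -c * DD K H σ lam + DD K H σ (lam + s) := by
      rw [e0, e1, Real.cos_add, hcd, hSd]; ring
    have h4 : |QQ K H σ * S| ≤ |QQ K H σ * S| * |Real.cos θ| + |QQ K H σ * S| * |Real.sin θ| := by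
      have := mul_le_mul_of_nonneg_left h2 (abs_nonneg (QQ K H σ * S))
      linarith
    have h5 : |QQ K H σ * S| * |Real.cos θ| ≤ |DD K H σ lam| := by
      rw [e0, abs_neg, abs_mul, abs_mul, mul_right_comm]
      have := mul_le_mul_of_nonneg_left hS1
        (mul_nonneg (abs_nonneg (QQ K H σ)) (abs_nonneg (Real.cos θ)))
      linarith
    have h6 : |QQ K H σ * S| * |Real.sin θ| ≤ |DD K H σ lam| + |DD K H σ (lam + s)| := by
      rw [← abs_mul, h3]
      refine (abs_add_le _ _).trans ?_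
      rw [abs_mul, abs_neg]
      have := mul_le_mul_of_nonneg_right hc1 (abs_nonneg (DD K H σ lam))
      linarith
    have h7 := abs_nonneg (DD K H σ (lam + 2 * s))
    have h8 := abs_nonneg (DD K H σ (lam + s))
    linarith
  have h2 : s * (Hup K σ₀ + Hdn K σ₀) = Real.pi / 2 := by
    rw [hs]; field_simp
  rw [h2, Real.sin_pi_div_two, mul_one] at h1
  exact h1

/-- **Module P**: the unordered pairs of square roots of curvature radii agree. -/
theorem pairs_eq {K H : Set (V d × ℝ)} (h : Pair K H) (σ : V d) :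
    (pU K σ = pU H σ ∧ qU K σ = qU H σ) ∨ (pU K σ = qU H σ ∧ qU K σ = pU H σ) := by
  have hP := PP_eq_zero h σ
  have hQ := QQ_eq_zero h σ
  unfold PP at hP
  unfold QQ at hQ
  have p1 := pU_pos h.upK σ
  have q1 := qU_pos h.dnK σ
  have p2 := pU_pos h.upH σ
  have q2 := qU_pos h.dnH σ
  have hsum : pU K σ + qU K σ = pU H σ + qU H σ := by
    have h1 : (pU K σ + qU K σ) ^ 2 = (pU H σ + qU H σ) ^ 2 := by linarith
    exact (sq_eq_sq₀ (by linarith) (by linarith)).1 h1
  have hprod : (pU K σ - pU H σ) * (pU K σ - qU H σ) = 0 := by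
    have : (pU K σ - pU H σ) * (pU K σ - qU H σ) =
      pU K σ ^ 2 - pU K σ * (pU H σ + qU H σ) + pU H σ * qU H σ := by ring
    rw [this, ← hsum]
    linarith
  rcases mul_eq_zero.1 hprod with h1 | h1
  · left
    exact ⟨by linarith, by linarith⟩
  · right
    exact ⟨by linarith, by linarith⟩

end Pool.Agent.Helper77.Cov
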