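import Pool.Agent.Helper77.Cov.Covario
import Pool.Agent.Helper77.Cov.ModuleP
import Pool.Agent.Helper18.Cov.Chart
import Pool.Agent.Helper28.Cov.ModuleB
import Pool.Agent.Helper87.Cov.Hankel
import Pool.Agent.Helper14.Cov.Minkowski
import Pool.Agent.Helper5.Cov.E2

/-!
# The covariogram problem: assembly
-/

open Metric Set MeasureTheory Filter Topology
open scoped Pointwise

namespace Pool.Agent.Helper77.Cov

variable {d : ℕ}

lemma hankelProp : HankelProp := by
  intro G₁ G₂ R₀ hR₀ h₁ h₂ h0 r hr Z hZ B hB hθ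
  exact Pool.Agent.Helper87.Cov.hankel_submean hR₀ h₁ h₂ h0 hr Z hZ B hB hθ

/-- The dichotomy. -/
theorem dichotomy {K H : Set (V d × ℝ)} (h : Pair K H) :
    (∀ σ, pU K σ = pU H σ ∧ qU K σ = qU H σ) ∨ (∀ σ, pU K σ = qU H σ ∧ qU K σ = pU H σ) := by
  by_contra hcon
  push Not at hcon
  obtain ⟨⟨σ₂, hσ₂⟩, ⟨σ₁, hσ₁⟩⟩ := hcon
  have hpK := continuous_pU h.upK
  have hpH := continuous_pU h.upH
  have hqH := continuous_qU h.dnH
  -- `σ₂` is strictly of type 2
  have t2 : pU K σ₂ = qU H σ₂ ∧ qU K σ₂ = pU H σ₂ := by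
    rcases pairs_eq h σ₂ with h1 | h1
    · exact absurd h1.2 (hσ₂ h1.1)
    · exact h1
  have t1 : pU K σ₁ = pU H σ₁ ∧ qU K σ₁ = qU H σ₁ := by
    rcases pairs_eq h σ₁ with h1 | h1
    · exact h1
    · exact absurd h1.2 (hσ₁ h1.1)
  have s2 : pU K σ₂ ≠ pU H σ₂ := by
    intro h1
    apply hσ₂ h1
    rw [t2.2, ← h1, t2.1]
  have s1 : pU K σ₁ ≠ qU H σ₁ := by
    intro h1
    apply hσ₁ h1
    rw [t1.2, ← h1, t1.1]
  have n2 : pU H σ₂ ≠ qU H σ₂ := by rw [← t2.1]; exact s2.symm
  have n1 : pU H σ₁ ≠ qU H σ₁ := by rw [← t1.1]; exact s1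
  have o1 : {σ | pU K σ ≠ qU H σ ∧ pU H σ ≠ qU H σ} ∈ 𝓝 σ₁ := by
    apply IsOpen.mem_nhds
    · exact (isOpen_ne_fun hpK hqH).inter (isOpen_ne_fun hpH hqH)
    · exact ⟨s1, n1⟩
  have o2 : {σ | pU K σ ≠ pU H σ ∧ pU H σ ≠ qU H σ} ∈ 𝓝 σ₂ := by
    apply IsOpen.mem_nhds
    · exact (isOpen_ne_fun hpK hpH).inter (isOpen_ne_fun hpH hqH)
    · exact ⟨s2, n2⟩
  obtain ⟨ρ₁, hρ₁, hb₁⟩ := Metric.nhds_basis_closedBall.mem_iff.1 o1
  obtain ⟨ρ₂, hρ₂, hb₂⟩ := Metric.nhds_basis_closedBall.mem_iff.1 o2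
  set ρ := min (ρ₁ / 2) ρ₂ with hρ
  have hρ0 : 0 < ρ := by positivity
  refine no_mixing hankelProp h (σ₁ := σ₁) (σ₂ := σ₂) hρ0 ?_ ?_
  · intro σ hσ
    have h1 := hb₁ (closedBall_subset_closedBall (by
      have := min_le_left (ρ₁ / 2) ρ₂
      linarith) hσ)
    rcases pairs_eq h σ with h2 | h2
    · exact ⟨h2.1, h2.2, h1.2⟩
    · exact absurd h2.1 h1.1
  · intro σ hσ
    have h1 := hb₂ (closedBall_subset_closedBall (min_le_right _ _) hσ)
    rcases pairs_eq h σ with h2 | h2
    · exact absurd h2.1 h1.1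
    · exact ⟨h2.1, h2.2, h1.2⟩

/-- Convex bodies with `C²` support function and positive radii of curvature. -/
structure SBody {n : ℕ} (K : Set (V n)) : Prop where
  body : IsBody K
  c2 : ContDiffOn ℝ 2 (supp K) {0}ᶜ
  pos : ∀ y, y ≠ 0 → ∀ v, v ∉ Submodule.span ℝ {y} → 0 < fderiv ℝ (fderiv ℝ (supp K)) y v v

lemma supp_translate {n : ℕ} {K : Set (V n)} (hK : IsBody K) (a u : V n) :
    supp ((fun y => y + a) '' K) u = supp K u + inner ℝ a u := by
  have hne : K.Nonempty := hK.interior_nonempty.mono interior_subset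
  apply (IsLUB.csSup_eq _ _)
  · constructor
    · rintro _ ⟨_, ⟨y, hy, rfl⟩, rfl⟩
      simp only
      rw [inner_add_right, real_inner_comm a u]
      have := le_supp hK.compact (u := u) hy
      linarith
    · intro b hb
      have h1 : supp K u ≤ b - inner ℝ a u := by
        unfold supp
        apply csSup_le (hne.image _)
        rintro _ ⟨y, hy, rfl⟩
        have h2 := hb ⟨y + a, ⟨y, hy, rfl⟩, rfl⟩
        simp only at h2 ⊢
        rw [inner_add_right, real_inner_comm a u] at h2
        linarith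
      linarith
  · exact (hne.image _).image _

lemma supp_neg {n : ℕ} (K : Set (V n)) (u : V n) : supp (-K) u = supp K (-u) := by
  unfold supp
  congr 1
  ext r
  constructor
  · rintro ⟨p, hp, rfl⟩
    exact ⟨-p, by simpa using hp, by simp⟩
  · rintro ⟨p, hp, rfl⟩
    exact ⟨-p, by simpa using hp, by simp⟩

lemma isBody_translate {n : ℕ} {K : Set (V n)} (hK : IsBody K) (a : V n) :
    IsBody ((fun y => y + a) '' K) where
  compact := hK.compact.image (by fun_prop)
  convex := by
    have : (fun y => y + a) '' K = K + {a} := by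
      simp
    rw [this]
    exact hK.convex.add (convex_singleton a)
  interior_nonempty := by
    have h1 : (fun y => y + a) '' (interior K) ⊆ interior ((fun y => y + a) '' K) := by
      have := (Homeomorph.addRight a).image_interior K
      simp only [Homeomorph.coe_addRight] at this
      rw [this]
    exact (hK.interior_nonempty.image _).mono h1

lemma isBody_negV {n : ℕ} {K : Set (V n)} (hK : IsBody K) : IsBody (-K) where
  compact := hK.compact.neg
  convex := hK.convex.neg
  interior_nonempty := by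
    have : interior (-K) = -(interior K) := by
      have := (Homeomorph.neg (V n)).image_interior K
      simp only [Homeomorph.coe_neg, image_neg_eq_neg] at this
      exact this.symm
    rw [this]
    exact hK.interior_nonempty.neg

lemma SBody.translate {n : ℕ} {K : Set (V n)} (h : SBody K) (a : V n) :
    SBody ((fun y => y + a) '' K) := by
  have h1 : supp ((fun y => y + a) '' K) = fun u => supp K u + innerSL ℝ a u := by
    ext u
    rw [supp_translate h.body, innerSL_apply_apply]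
  have hopen : IsOpen ({0}ᶜ : Set (V n)) := isOpen_compl_singleton
  refine ⟨isBody_translate h.body a, ?_, ?_⟩
  · rw [h1]
    exact h.c2.add (innerSL ℝ a).contDiff.contDiffOn
  · intro y hy v hv
    have h2 : fderiv ℝ (supp ((fun y => y + a) '' K)) =ᶠ[𝓝 y]
        fun u => fderiv ℝ (supp K) u + innerSL ℝ a := by
      filter_upwards [hopen.mem_nhds (show y ∈ ({0}ᶜ : Set (V n)) from hy)] with u hu
      rw [h1]
      have hd : DifferentiableAt ℝ (supp K) u :=
        (h.c2.differentiableOn (by norm_num)).differentiableAt (hopen.mem_nhds hu)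
      rw [fderiv_fun_add hd (innerSL ℝ a).differentiableAt, (innerSL ℝ a).fderiv]
    rw [h2.fderiv_eq]
    rw [fderiv_add_const]
    exact h.pos y hy v hv

lemma SBody.neg {n : ℕ} {K : Set (V n)} (h : SBody K) : SBody (-K) := by
  have h1 : supp (-K) = fun u => supp K ((-1 : ℝ) • u) := by
    ext u
    rw [supp_neg, neg_one_smul]
  have hopen : IsOpen ({0}ᶜ : Set (V n)) := isOpen_compl_singleton
  refine ⟨isBody_negV h.body, ?_, ?_⟩
  · rw [h1]
    apply h.c2.comp (contDiff_const_smul (-1 : ℝ)).contDiffOn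
    intro u hu
    simpa using hu
  · intro y hy v hv
    have h2 : fderiv ℝ (supp (-K)) = fun u => (-1 : ℝ) • fderiv ℝ (supp K) ((-1 : ℝ) • u) := by
      ext1 u
      rw [h1]
      exact fderiv_comp_smul (f := supp K) (x := u) (-1 : ℝ)
    have h3 : fderiv ℝ (fderiv ℝ (supp (-K))) y = fderiv ℝ (fderiv ℝ (supp K)) (-y) := by
      rw [h2]
      have h4 : DifferentiableAt ℝ (fun u => fderiv ℝ (supp K) ((-1 : ℝ) • u)) y := by
        have h5 : DifferentiableAt ℝ (fderiv ℝ (supp K)) ((-1 : ℝ) • y) := by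
          have hy' : (-1 : ℝ) • y ∈ ({0}ᶜ : Set (V n)) := by simpa using hy
          have h6 : ContDiffAt ℝ 2 (supp K) ((-1 : ℝ) • y) :=
            h.c2.contDiffAt (hopen.mem_nhds hy')
          exact (h6.fderiv_right (m := 1) (by norm_num)).differentiableAt (by norm_num)
        exact h5.comp y (by fun_prop)
      rw [fderiv_fun_const_smul h4]
      have h5 := fderiv_comp_smul (f := fderiv ℝ (supp K)) (x := y) (-1 : ℝ)
      have h6 : fderiv ℝ (fun u => fderiv ℝ (supp K) ((-1 : ℝ) • u)) y =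
        (-1 : ℝ) • fderiv ℝ (fderiv ℝ (supp K)) ((-1 : ℝ) • y) := h5
      rw [h6, smul_smul]
      simp
    rw [h3]
    apply h.pos (-y) (by simpa using hy) v
    intro hv'
    apply hv
    rw [Submodule.mem_span_singleton] at hv' ⊢
    obtain ⟨c, hc⟩ := hv'
    exact ⟨-c, by rw [← hc]; simp⟩

lemma gE_translate {n : ℕ} (K : Set (V n)) (a x : V n) :
    gE ((fun y => y + a) '' K) x = gE K x := by
  unfold gE
  have h1 : ((fun y => y + a) '' K) ∩ ((fun y => y + x) '' ((fun y => y + a) '' K)) =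
      (fun y => y + a) '' (K ∩ ((fun y => y + x) '' K)) := by
    rw [image_inter (add_left_injective a), image_image, image_image]
    congr 1
    apply image_congr'
    intro y
    abel
  rw [h1]
  have h2 : (fun y => y + a) '' (K ∩ ((fun y => y + x) '' K)) =
      (fun y => y + (-a)) ⁻¹' (K ∩ ((fun y => y + x) '' K)) := by
    ext y
    simp only [mem_preimage]
    rw [mem_image_add, sub_eq_add_neg]
  rw [h2, measure_preimage_add_right]

/-- Positive support functions. -/
lemma supp_pos {n : ℕ} {K : Set (V n)} (hK : IsBody K) (h0 : (0 : V n) ∈ interior K) {y : V n}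
    (hy : y ≠ 0) : 0 < supp K y := by
  have h1 : Tendsto (fun t : ℝ => t • y) (𝓝[>] 0) (𝓝 0) := by
    have : Tendsto (fun t : ℝ => t • y) (𝓝 0) (𝓝 ((0 : ℝ) • y)) :=
      (continuous_id.smul continuous_const).tendsto 0
    rw [zero_smul] at this
    exact this.mono_left nhdsWithin_le_nhds
  have h2 := h1.eventually (isOpen_interior.mem_nhds h0)
  obtain ⟨t, ht, ht0⟩ := (h2.and self_mem_nhdsWithin).exists
  have ht0' : (0 : ℝ) < t := ht0
  have h3 := le_supp hK.compact (u := y) (interior_subset ht)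
  rw [real_inner_smul_right, real_inner_self_eq_norm_sq] at h3
  have h4 : 0 < ‖y‖ := norm_pos_iff.2 hy
  have h5 : 0 < t * ‖y‖ ^ 2 := by positivity
  linarith

lemma supp_homog {n : ℕ} (K : Set (V n)) (t : ℝ) (ht : 0 < t) (y : V n) :
    supp K (t • y) = t * supp K y := by
  unfold supp
  rw [← smul_eq_mul, ← Real.sSup_smul_of_nonneg ht.le]
  congr 1
  ext r
  constructor
  · rintro ⟨x, hx, rfl⟩
    exact ⟨inner ℝ y x, ⟨x, hx, rfl⟩, by simp [real_inner_smul_left]⟩
  · rintro ⟨_, ⟨x, hx, rfl⟩, rfl⟩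
    exact ⟨x, hx, by simp [real_inner_smul_left]⟩

/-- The core theorem, with the origin in the interiors. -/
theorem core {d : ℕ} (hd : 1 ≤ d) {K H : Set (V (d + 1))} (hK : SBody K) (hH : SBody H)
    (h0K : (0 : V (d + 1)) ∈ interior K) (h0H : (0 : V (d + 1)) ∈ interior H)
    (hg : ∀ x, gE K x = gE H x) :
    ∃ c, (∀ y, supp K y = supp H y + inner ℝ c y) ∨ (∀ y, supp K y = supp (-H) y + inner ℝ c y) := by
  obtain ⟨Ψ, hmp, hinn, hbody, hup, hdn, hreg, hdet⟩ := Pool.Agent.Helper18.Cov.exists_chart d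
  have hbK := hbody K hK.body
  have hbH := hbody H hH.body
  have hrK := hreg K hK.c2 hK.pos
  have hrH := hreg H hH.c2 hH.pos
  have hFC : ∀ (A : Set (V (d + 1))) (L : (V d × ℝ) →L[ℝ] ℂ),
      FC (Ψ '' A) L = FV A (L.comp (Ψ : V (d + 1) →L[ℝ] (V d × ℝ))) := by
    intro A L
    unfold FC FV
    rw [hmp.setIntegral_image_emb Ψ.toHomeomorph.measurableEmbedding]
    rfl
  have hpair : Pair (Ψ '' K) (Ψ '' H) := by
    refine ⟨hbK, hbH, hrK.1, hrK.2, hrH.1, hrH.2, ?_, ?_, ?_, ?_, ?_⟩
    · exact ⟨fun B hB hBm => Pool.Agent.Helper28.Cov.averaged_asymptotics hbK hrK.1 hrK.2 hB hBm,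
        Pool.Agent.Helper28.Cov.fT_l2_bound hbK⟩
    · exact ⟨fun B hB hBm => Pool.Agent.Helper28.Cov.averaged_asymptotics hbH hrH.1 hrH.2 hB hBm,
        Pool.Agent.Helper28.Cov.fT_l2_bound hbH⟩
    · intro σ
      rw [hup, hdn, hup, hdn]
      have h1 : Ψ.symm (-σ, -1) = -Ψ.symm (σ, 1) := by
        rw [← map_neg, Prod.neg_mk]
      rw [h1]
      exact width_eq_of_gE hK.body hH.body hg _
    · intro L
      rw [hFC, hFC, hFC, hFC, ContinuousLinearMap.neg_comp]
      exact FV_mul_eq hK.body.compact hH.body.compact hg _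
    · exact ⟨0, interior_subset h0H, map_zero _⟩
  have hsq : ∀ {f g : V d → ℝ}, PosC2 f → PosC2 g → ∀ σ,
      Real.sqrt (hess f σ).det = Real.sqrt (hess g σ).det → (hess f σ).det = (hess g σ).det := by
    intro f g hf hg' σ h
    exact (Real.sqrt_inj (hess_posDef hf σ).det_pos.le (hess_posDef hg' σ).det_pos.le).1 h
  have hdim : 2 ≤ d + 1 := by omega
  rcases dichotomy hpair with h1 | h2
  · obtain ⟨c, hc⟩ := Pool.Agent.Helper14.Cov.minkowski_unique hdim hK.c2 hH.c2
      (supp_homog K) (supp_homog H) (fun y hy => supp_pos hK.body h0K hy)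
      (fun y hy => supp_pos hH.body h0H hy) hK.pos hH.pos
      (hdet K H hK.body hH.body hK.c2 hH.c2
        (fun σ => hsq hrK.1 hrH.1 σ (h1 σ).1) (fun σ => hsq hrK.2 hrH.2 σ (h1 σ).2))
    exact ⟨c, Or.inl hc⟩
  · have hnH := hH.neg
    have himg : Ψ '' (-H) = -(Ψ '' H) := by
      ext p
      simp only [mem_image, Set.mem_neg]
      constructor
      · rintro ⟨x, hx, rfl⟩
        exact ⟨-x, hx, by simp⟩
      · rintro ⟨x, hx, hxp⟩
        exact ⟨-x, by simpa using hx, by simp [hxp]⟩
    have hup' : Hup (Ψ '' (-H)) = Hdn (Ψ '' H) := by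
      rw [himg, Pool.Agent.Helper28.Cov.Hup_neg]
    have hdn' : Hdn (Ψ '' (-H)) = Hup (Ψ '' H) := by
      rw [himg, ← Pool.Agent.Helper28.Cov.Hup_neg, neg_neg]
    have h0H' : (0 : V (d + 1)) ∈ interior (-H) := by
      have := (Homeomorph.neg (V (d + 1))).image_interior H
      simp only [Homeomorph.coe_neg, image_neg_eq_neg] at this
      rw [← this]
      simpa using h0H
    obtain ⟨c, hc⟩ := Pool.Agent.Helper14.Cov.minkowski_unique hdim hK.c2 hnH.c2
      (supp_homog K) (supp_homog (-H)) (fun y hy => supp_pos hK.body h0K hy)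
      (fun y hy => supp_pos hnH.body h0H' hy) hK.pos hnH.pos
      (hdet K (-H) hK.body hnH.body hK.c2 hnH.c2
        (fun σ => by rw [hup']; exact hsq hrK.1 hrH.2 σ (h2 σ).1)
        (fun σ => by rw [hdn']; exact hsq hrK.2 hrH.1 σ (h2 σ).2))
    exact ⟨c, Or.inr hc⟩

/-- **The covariogram problem for `C²₊` bodies**, support function version. -/
theorem main_SBody {d : ℕ} (hd : 1 ≤ d) {K H : Set (V (d + 1))} (hK : SBody K) (hH : SBody H)
    (hg : ∀ x, gE K x = gE H x) :
    ∃ z : V (d + 1), H = (fun y => y + z) '' K ∨ H = (fun y => y + z) '' (-K) := by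
  obtain ⟨a, ha⟩ := hK.body.interior_nonempty
  obtain ⟨b, hb⟩ := hH.body.interior_nonempty
  set K' := (fun y => y + (-a)) '' K with hK'
  set H' := (fun y => y + (-b)) '' H with hH'
  have hint : ∀ {A : Set (V (d + 1))} {p : V (d + 1)}, p ∈ interior A →
      (0 : V (d + 1)) ∈ interior ((fun y => y + (-p)) '' A) := by
    intro A p hp
    have := (Homeomorph.addRight (-p)).image_interior A
    simp only [Homeomorph.coe_addRight] at this
    rw [← this]
    exact ⟨p, hp, by simp⟩
  obtain ⟨c, hc⟩ := core hd (hK.translate (-a)) (hH.translate (-b)) (hint ha) (hint hb)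
    (by intro x; rw [gE_translate, gE_translate, hg])
  rcases hc with hc | hc
  · refine ⟨-(c + a - b), Or.inl ?_⟩
    apply eq_of_supp_eq hH.body (isBody_translate hK.body _)
    intro u
    have h1 := hc u
    rw [supp_translate hK.body, supp_translate hH.body] at h1
    rw [supp_translate hK.body]
    simp only [inner_neg_left, inner_add_left, inner_sub_left] at h1 ⊢
    linarith
  · refine ⟨c + a + b, Or.inr ?_⟩
    apply eq_of_supp_eq hH.body (isBody_translate (isBody_negV hK.body) _)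
    intro u
    have h1 := hc (-u)
    rw [supp_translate hK.body, supp_neg, supp_translate hH.body] at h1
    rw [supp_translate (isBody_negV hK.body), supp_neg]
    simp only [inner_neg_left, inner_add_left, inner_neg_right, neg_neg] at h1 ⊢
    linarith

end Pool.Agent.Helper77.Cov
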