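import Mathlib

/-!
# Sums over cells
-/

open Set MeasureTheory

namespace Pool.Agent.Helper77.Cov

lemma G_step {r s t : ℝ} (hs : 0 < s) (hst : s ≤ t) (htr : t ≤ r) :
    (t * Real.log (r / t) + t) - (s * Real.log (r / s) + s) ≤ (t - s) * Real.log (r / s) := by
  have ht : 0 < t := lt_of_lt_of_le hs hst
  have hr : 0 < r := lt_of_lt_of_le ht htr
  have h1 : Real.log (s / t) ≤ s / t - 1 := Real.log_le_sub_one_of_pos (by positivity)
  rw [Real.log_div hs.ne' ht.ne'] at h1
  rw [Real.log_div hr.ne' ht.ne', Real.log_div hr.ne' hs.ne']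
  have h2 : t * (Real.log s - Real.log t) ≤ t * (s / t - 1) :=
    mul_le_mul_of_nonneg_left h1 ht.le
  have h3 : t * (s / t - 1) = s - t := by field_simp
  nlinarith

lemma cells_sum {r L y : ℝ} {k₀ : ℕ} (hL : 0 < L) (hy : 0 < y + k₀ * L)
    (hr : y + k₀ * L < r) :
    r - ((y + k₀ * L) * Real.log (r / (y + k₀ * L)) + (y + k₀ * L)) ≤
      L * ∑ k ∈ Finset.Ico k₀ ⌈(r - y) / L⌉₊, Real.log (r / (y + k * L)) := by
  set a := y + k₀ * L with ha
  set G : ℝ → ℝ := fun t => t * Real.log (r / t) + t with hG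
  have hr0 : 0 < r := hy.trans hr
  have hind : ∀ n : ℕ, k₀ ≤ n → y + n * L ≤ r → G (y + n * L) - G a ≤
      L * ∑ k ∈ Finset.Ico k₀ n, Real.log (r / (y + k * L)) := by
    intro n hn
    induction n, hn using Nat.le_induction with
    | base => intro _; simp [ha]
    | succ n hn ih =>
      intro hle
      have h1 : y + (n : ℝ) * L ≤ y + ((n + 1 : ℕ) : ℝ) * L := by
        push_cast; nlinarith
      have h2 := ih (h1.trans hle)
      rw [Finset.sum_Ico_succ_top hn, mul_add]
      have h3 : 0 < y + (n : ℝ) * L := by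
        have : (k₀ : ℝ) ≤ n := by exact_mod_cast hn
        nlinarith
      have h4 := G_step h3 h1 hle
      have h5 : (y + ((n + 1 : ℕ) : ℝ) * L) - (y + (n : ℝ) * L) = L := by
        push_cast; ring
      rw [h5] at h4
      simp only [hG] at h2 ⊢
      linarith
  set M := ⌈(r - y) / L⌉₊ with hM
  have hkM : k₀ < M := by
    rw [hM, Nat.lt_ceil, lt_div_iff₀ hL]
    linarith
  obtain ⟨m, hm⟩ : ∃ m, M = m + 1 := ⟨M - 1, by omega⟩
  have hmM : m < M := by omega
  have hym : y + (m : ℝ) * L < r := by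
    rw [hM, Nat.lt_ceil, lt_div_iff₀ hL] at hmM
    linarith
  have hyM : r ≤ y + (M : ℝ) * L := by
    have := Nat.le_ceil ((r - y) / L)
    rw [← hM, div_le_iff₀ hL] at this
    linarith
  have hk₀m : k₀ ≤ m := by omega
  have h1 := hind m hk₀m hym.le
  have h3 : 0 < y + (m : ℝ) * L := by
    have : (k₀ : ℝ) ≤ m := by exact_mod_cast hk₀m
    nlinarith
  have h4 := G_step h3 hym.le le_rfl
  rw [hm, Finset.sum_Ico_succ_top hk₀m, mul_add]
  have h5 : r * Real.log (r / r) + r = r := by rw [div_self hr0.ne', Real.log_one]; ring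
  have h6 : (r - (y + (m : ℝ) * L)) * Real.log (r / (y + (m : ℝ) * L)) ≤
      L * Real.log (r / (y + (m : ℝ) * L)) := by
    apply mul_le_mul_of_nonneg_right
    · rw [hm] at hyM
      push_cast at hyM
      linarith
    · apply Real.log_nonneg
      rw [le_div_iff₀ h3]
      linarith
  simp only [hG] at h1
  linarith

lemma cells_bad {r L x c : ℝ} {k₀ : ℕ} (hL : 0 < L) (hc : L ≤ c) (hx : 1 ≤ x + k₀ * L)
    (S : Finset ℕ) (hS : ∀ k ∈ S, k₀ ≤ k ∧ x + k * L + c < r) (e : ℝ → ENNReal) {δ : ℝ}
    (hbad : ∀ k ∈ S, ∀ lam ∈ Ico (x + k * L) (x + (k + 1) * L), ENNReal.ofReal δ ≤ e lam) :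
    ENNReal.ofReal L * ENNReal.ofReal δ ^ 2 *
      ∑ k ∈ S, ENNReal.ofReal (Real.log (r / (x + k * L + c))) ≤
      ∫⁻ lam in Ico 1 r, ENNReal.ofReal (Real.log (r / lam)) * (e lam) ^ 2 := by
  have hge : ∀ k ∈ S, 1 ≤ x + (k : ℝ) * L := by
    intro k hk
    have : (k₀ : ℝ) ≤ k := by exact_mod_cast (hS k hk).1
    nlinarith
  have hsub : (⋃ k ∈ S, Ico (x + (k : ℝ) * L) (x + ((k : ℝ) + 1) * L)) ⊆ Ico 1 r := by
    intro lam hlam
    simp only [mem_iUnion] at hlam
    obtain ⟨k, hk, h1⟩ := hlam
    have h2 := hS k hk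
    have h3 := hge k hk
    constructor
    · linarith [h1.1]
    · have := h1.2
      nlinarith [h2.2]
  calc ENNReal.ofReal L * ENNReal.ofReal δ ^ 2 *
        ∑ k ∈ S, ENNReal.ofReal (Real.log (r / (x + k * L + c)))
      = ∑ k ∈ S, ∫⁻ _ in Ico (x + (k : ℝ) * L) (x + ((k : ℝ) + 1) * L),
          ENNReal.ofReal (Real.log (r / (x + k * L + c))) * ENNReal.ofReal δ ^ 2 := by
        rw [Finset.mul_sum]
        apply Finset.sum_congr rfl
        intro k _
        rw [setLIntegral_const, Real.volume_Ico]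
        have : x + ((k : ℝ) + 1) * L - (x + (k : ℝ) * L) = L := by ring
        rw [this]
        ring
    _ ≤ ∑ k ∈ S, ∫⁻ lam in Ico (x + (k : ℝ) * L) (x + ((k : ℝ) + 1) * L),
          ENNReal.ofReal (Real.log (r / lam)) * (e lam) ^ 2 := by
        apply Finset.sum_le_sum
        intro k hk
        apply setLIntegral_mono' measurableSet_Ico
        intro lam hlam
        have h1 := hge k hk
        have h2 := (hS k hk).2
        have h3 : 0 < lam := by linarith [hlam.1]
        have h4 : lam ≤ x + k * L + c := by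
          have := hlam.2
          nlinarith
        have h5 : Real.log (r / (x + k * L + c)) ≤ Real.log (r / lam) := by
          apply Real.log_le_log
          · apply div_pos <;> linarith
          · apply div_le_div_of_nonneg_left _ h3 h4
            linarith
        have h6 := hbad k hk lam hlam
        gcongr
    _ = ∫⁻ lam in ⋃ k ∈ S, Ico (x + (k : ℝ) * L) (x + ((k : ℝ) + 1) * L),
          ENNReal.ofReal (Real.log (r / lam)) * (e lam) ^ 2 := by
        rw [lintegral_biUnion_finset]
        · intro i hi j hj hij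
          rw [Function.onFun, Set.disjoint_left]
          intro lam h1 h2
          rcases lt_or_gt_of_ne hij with h | h
          · have h3 : (i : ℝ) + 1 ≤ j := by exact_mod_cast h
            have := h1.2
            have := h2.1
            nlinarith
          · have h3 : (j : ℝ) + 1 ≤ i := by exact_mod_cast h
            have := h2.2
            have := h1.1
            nlinarith
        · intro i _
          exact measurableSet_Ico
    _ ≤ _ := lintegral_mono_set hsub

end Pool.Agent.Helper77.Cov
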