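import Mathlib

/-!
# Zeros in a good window
-/

open Metric Set MeasureTheory Complex

namespace Pool.Agent.Helper77.Cov

/-- A two-exponential entire function. -/
noncomputable def mainF (φ p q hp hm : ℝ) (z : ℂ) : ℂ :=
  Complex.I * (Complex.exp (Complex.I * φ) * p * Complex.exp (-Complex.I * z * hp) -
    Complex.exp (-Complex.I * φ) * q * Complex.exp (Complex.I * z * hm))

/-- The zeros of the two-exponential function. -/
noncomputable def zr (φ p q hp hm : ℝ) (k : ℕ) : ℂ :=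
  ((2 * φ + 2 * Real.pi * k) / (hp + hm) : ℝ) + (Real.log (q / p) / (hp + hm) : ℝ) * Complex.I

lemma zr_re (φ p q hp hm : ℝ) (k : ℕ) :
    (zr φ p q hp hm k).re = (2 * φ + 2 * Real.pi * k) / (hp + hm) := by
  simp [zr, -Complex.ofReal_div]

lemma zr_im (φ p q hp hm : ℝ) (k : ℕ) :
    (zr φ p q hp hm k).im = Real.log (q / p) / (hp + hm) := by
  simp [zr, -Complex.ofReal_div]

lemma differentiable_mainF (φ p q hp hm : ℝ) : Differentiable ℂ (mainF φ p q hp hm) := by
  unfold mainF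
  fun_prop

lemma mainF_factor {φ p q hp hm : ℝ} (hpp : 0 < p) (hq : 0 < q) (hw : 0 < hp + hm) (k : ℕ)
    (z : ℂ) : mainF φ p q hp hm z = Complex.I * Complex.exp (Complex.I * φ) * p *
      Complex.exp (-Complex.I * z * hp) *
        (1 - Complex.exp (Complex.I * (z - zr φ p q hp hm k) * (hp + hm : ℝ))) := by
  have hw' : ((hp + hm : ℝ) : ℂ) ≠ 0 := by exact_mod_cast hw.ne'
  have hp' : (p : ℂ) ≠ 0 := by exact_mod_cast hpp.ne'
  have h1 : Complex.exp (Complex.I * (z - zr φ p q hp hm k) * (hp + hm : ℝ)) =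
      Complex.exp (Complex.I * z * hp) * Complex.exp (Complex.I * z * hm) *
        (Complex.exp (-Complex.I * φ) * Complex.exp (-Complex.I * φ)) * (q / p) := by
    have h2 : Complex.I * (z - zr φ p q hp hm k) * (hp + hm : ℝ) =
        Complex.I * z * hp + Complex.I * z * hm + (-Complex.I * φ + -Complex.I * φ)
          + (Real.log (q / p) : ℝ) + (-(k : ℤ) : ℤ) * (2 * Real.pi * Complex.I) := by
      unfold zr
      rw [Complex.ofReal_div, Complex.ofReal_div]
      have : Complex.I * (z - (((2 * φ + 2 * Real.pi * k : ℝ) : ℂ) / ((hp + hm : ℝ) : ℂ) +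
          ((Real.log (q / p) : ℝ) : ℂ) / ((hp + hm : ℝ) : ℂ) * Complex.I)) * ((hp + hm : ℝ) : ℂ)
          = Complex.I * z * ((hp + hm : ℝ) : ℂ) - Complex.I * ((2 * φ + 2 * Real.pi * k : ℝ) : ℂ)
            - Complex.I * Complex.I * ((Real.log (q / p) : ℝ) : ℂ) := by
        field_simp
        ring
      rw [this, Complex.I_mul_I]
      push_cast
      ring
    rw [h2, Complex.exp_add, Complex.exp_int_mul_two_pi_mul_I, mul_one, Complex.exp_add,
      Complex.exp_add, Complex.exp_add, Complex.exp_add]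
    congr 1
    rw [← Complex.ofReal_exp, Real.exp_log (div_pos hq hpp)]
    push_cast
    rfl
  rw [h1]
  unfold mainF
  have h3 : Complex.exp (-Complex.I * z * hp) * Complex.exp (Complex.I * z * hp) = 1 := by
    rw [← Complex.exp_add]; simp
  have h4 : Complex.exp (Complex.I * φ) * Complex.exp (-Complex.I * φ) = 1 := by
    rw [← Complex.exp_add]; simp
  generalize Complex.exp (-Complex.I * z * hp) = A at h3 ⊢
  generalize Complex.exp (Complex.I * z * hp) = A' at h3 ⊢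
  generalize Complex.exp (Complex.I * z * hm) = B
  generalize Complex.exp (Complex.I * φ) = C at h4 ⊢
  generalize Complex.exp (-Complex.I * φ) = C' at h4 ⊢
  have h5 : Complex.I * C * p * A * (1 - A' * B * (C' * C') * (q / p)) =
      Complex.I * (C * p * A - (C * C') * (A * A') * C' * q * B) := by
    field_simp
  rw [h5, h3, h4]
  ring

lemma norm_mainF {φ p q hp hm : ℝ} (hpp : 0 < p) (hq : 0 < q) (hw : 0 < hp + hm) (k : ℕ)
    (z : ℂ) : ‖mainF φ p q hp hm z‖ = p * Real.exp (hp * z.im) *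
      ‖1 - Complex.exp (Complex.I * (z - zr φ p q hp hm k) * (hp + hm : ℝ))‖ := by
  rw [mainF_factor hpp hq hw k, norm_mul, norm_mul, norm_mul, norm_mul, Complex.norm_I, one_mul,
    Complex.norm_exp, Complex.norm_exp, Complex.norm_real, Real.norm_eq_abs, abs_of_pos hpp]
  have h1 : (Complex.I * (φ : ℂ)).re = 0 := by simp
  have h2 : (-Complex.I * z * (hp : ℂ)).re = hp * z.im := by
    simp [mul_comm]
  rw [h1, h2, Real.exp_zero, one_mul]

lemma exists_zero_of_small {G : ℂ → ℂ} (hG : Differentiable ℂ G) {z₀ : ℂ} {ϱ m : ℝ}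
    (hϱ : 0 < ϱ) (h1 : ∀ z, ‖z - z₀‖ = ϱ → m ≤ ‖G z‖) (h2 : ‖G z₀‖ < m) :
    ∃ z, ‖z - z₀‖ ≤ ϱ ∧ G z = 0 := by
  by_contra hcon
  push Not at hcon
  have hm : 0 < m := lt_of_le_of_lt (norm_nonneg _) h2
  have h3 : ‖(G z₀)⁻¹‖ ≤ m⁻¹ := by
    apply Complex.norm_le_of_forall_mem_frontier_norm_le (U := ball z₀ ϱ)
      (f := fun z => (G z)⁻¹) isBounded_ball
    · apply DiffContOnCl.inv hG.diffContOnCl
      intro z hz
      rw [closure_ball _ hϱ.ne'] at hz
      exact hcon z (by rwa [mem_closedBall, dist_eq_norm] at hz)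
    · intro z hz
      rw [frontier_ball _ hϱ.ne'] at hz
      have hz' : ‖z - z₀‖ = ϱ := by rwa [mem_sphere, dist_eq_norm] at hz
      rw [norm_inv]
      exact inv_anti₀ hm (h1 z hz')
    · apply subset_closure
      exact mem_ball_self hϱ
  rw [norm_inv] at h3
  have h4 : 0 < ‖G z₀‖ := norm_pos_iff.2 (hcon z₀ (by simp [hϱ.le]))
  have := (inv_le_inv₀ h4 hm).1 h3
  linarith

lemma norm_one_sub_exp_lower {u : ℂ} (hu : ‖u‖ ≤ 1 / 2) :
    ‖u‖ / 2 ≤ ‖1 - Complex.exp u‖ := by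
  have h1 : ‖Complex.exp u - 1 - u‖ ≤ ‖u‖ ^ 2 :=
    Complex.norm_exp_sub_one_sub_id_le (by linarith)
  have h2 : ‖u‖ - ‖Complex.exp u - 1‖ ≤ ‖u - (Complex.exp u - 1)‖ := norm_sub_norm_le _ _
  have h3 : ‖u - (Complex.exp u - 1)‖ = ‖Complex.exp u - 1 - u‖ := norm_sub_rev _ _
  rw [norm_sub_rev]
  nlinarith [norm_nonneg u]

lemma norm_one_sub_exp_upper {u : ℂ} (hu : ‖u‖ ≤ 1) :
    ‖1 - Complex.exp u‖ ≤ 2 * ‖u‖ := by
  rw [norm_sub_rev]
  exact Complex.norm_exp_sub_one_le hu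

lemma norm_one_sub_exp_line {u : ℂ} {η : ℝ} (hη : 0 < η) (hu : η ≤ |u.re|) :
    1 - Real.exp (-η) ≤ ‖1 - Complex.exp u‖ := by
  have h1 : |‖(1 : ℂ)‖ - ‖Complex.exp u‖| ≤ ‖1 - Complex.exp u‖ := abs_norm_sub_norm_le _ _
  rw [norm_one, Complex.norm_exp] at h1
  refine le_trans ?_ h1
  rcases le_abs.1 hu with h | h
  · have h2 : Real.exp η ≤ Real.exp u.re := Real.exp_le_exp.2 h
    have h3 : 1 + η ≤ Real.exp η := by linarith [Real.add_one_le_exp η]
    have h4 : Real.exp (-η) * Real.exp η = 1 := by rw [← Real.exp_add]; simp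
    have h5 : 0 < Real.exp (-η) := Real.exp_pos _
    have h6 : 1 - Real.exp (-η) ≤ Real.exp η - 1 := by nlinarith
    rw [abs_sub_comm]
    exact le_trans (by linarith) (le_abs_self _)
  · have h2 : Real.exp u.re ≤ Real.exp (-η) := Real.exp_le_exp.2 (by linarith)
    exact le_trans (by linarith) (le_abs_self _)

/-- Bounds on the parameters of a two-exponential function. -/
structure WPar (R w₀ p₀ P₀ : ℝ) (p q hp hm : ℝ) : Prop where
  hhp : |hp| ≤ R
  hhm : |hm| ≤ R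
  hw : w₀ ≤ hp + hm
  p1 : p₀ ≤ p
  p2 : p ≤ P₀
  q1 : p₀ ≤ q
  q2 : q ≤ P₀

section

variable {R w₀ p₀ P₀ η : ℝ}

lemma WPar.log_le {p q hp hm : ℝ} (hw₀ : 0 < w₀) (hp₀ : 0 < p₀)
    (h : WPar R w₀ p₀ P₀ p q hp hm) :
    |Real.log (q / p) / (hp + hm)| ≤ Real.log (P₀ / p₀) / w₀ := by
  have hpp : 0 < p := lt_of_lt_of_le hp₀ h.p1
  have hq : 0 < q := lt_of_lt_of_le hp₀ h.q1
  have hw : 0 < hp + hm := lt_of_lt_of_le hw₀ h.hw
  have hP : 0 < P₀ := lt_of_lt_of_le hpp h.p2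
  have h1 : |Real.log (q / p)| ≤ Real.log (P₀ / p₀) := by
    rw [abs_le, Real.log_div hq.ne' hpp.ne', Real.log_div hP.ne' hp₀.ne']
    have a1 := Real.log_le_log hp₀ h.p1
    have a2 := Real.log_le_log hpp h.p2
    have a3 := Real.log_le_log hp₀ h.q1
    have a4 := Real.log_le_log hq h.q2
    constructor <;> linarith
  rw [abs_div, abs_of_pos hw]
  exact div_le_div₀ (le_trans (abs_nonneg _) h1) h1 hw₀ h.hw

lemma mainF_lower_of {p q hp hm φ : ℝ} (hw₀ : 0 < w₀) (hp₀ : 0 < p₀) (hR : 0 < R)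
    (h : WPar R w₀ p₀ P₀ p q hp hm) (k : ℕ) {z : ℂ} {A c : ℝ} (hz : |z.im| ≤ A) (hc : 0 ≤ c)
    (hz2 : c ≤ ‖1 - Complex.exp (Complex.I * (z - zr φ p q hp hm k) * (hp + hm : ℝ))‖) :
    p₀ * Real.exp (-(R * A)) * c ≤ ‖mainF φ p q hp hm z‖ := by
  have hpp : 0 < p := lt_of_lt_of_le hp₀ h.p1
  have hq : 0 < q := lt_of_lt_of_le hp₀ h.q1
  have hw : 0 < hp + hm := lt_of_lt_of_le hw₀ h.hw
  rw [norm_mainF hpp hq hw k]
  have h1 : Real.exp (-(R * A)) ≤ Real.exp (hp * z.im) := by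
    apply Real.exp_le_exp.2
    have h2 : |hp * z.im| ≤ R * A := by
      rw [abs_mul]
      exact mul_le_mul h.hhp hz (abs_nonneg _) hR.le
    linarith [neg_abs_le (hp * z.im)]
  have h3 := h.p1
  have h4 := Real.exp_pos (-(R * A))
  gcongr

lemma deriv_mainF_lower {p q hp hm φ : ℝ} (hw₀ : 0 < w₀) (hp₀ : 0 < p₀) (hR : 0 < R)
    (h : WPar R w₀ p₀ P₀ p q hp hm) (k : ℕ) {z : ℂ} {A : ℝ} (hz : |z.im| ≤ A)
    (hu1 : ‖z - zr φ p q hp hm k‖ * (2 * R) ≤ 1 / 4)
    (hu2 : ‖z - zr φ p q hp hm k‖ * (2 * R) ≤ w₀ / (8 * R)) :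
    p₀ * Real.exp (-(R * A)) * (w₀ / 4) ≤ ‖deriv (mainF φ p q hp hm) z‖ := by
  have hpp : 0 < p := lt_of_lt_of_le hp₀ h.p1
  have hq : 0 < q := lt_of_lt_of_le hp₀ h.q1
  have hw : 0 < hp + hm := lt_of_lt_of_le hw₀ h.hw
  set z₀ := zr φ p q hp hm k with hz₀
  set w : ℝ := hp + hm with hwdef
  have hw2 : w ≤ 2 * R := by
    have := h.hhp; have := h.hhm
    have a1 := le_abs_self hp
    have a2 := le_abs_self hm
    linarith
  set u : ℂ := Complex.I * (z - z₀) * (w : ℝ) with hu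
  have hun : ‖u‖ ≤ ‖z - z₀‖ * (2 * R) := by
    rw [hu, norm_mul, norm_mul, Complex.norm_I, one_mul, Complex.norm_real, Real.norm_eq_abs,
      abs_of_pos hw]
    gcongr
  have hfun : mainF φ p q hp hm = fun z => Complex.I * Complex.exp (Complex.I * φ) * p *
      Complex.exp (-Complex.I * z * hp) *
        (1 - Complex.exp (Complex.I * (z - z₀) * (w : ℝ))) := by
    ext z
    exact mainF_factor hpp hq hw k z
  have hd : HasDerivAt (mainF φ p q hp hm)
      (Complex.I * Complex.exp (Complex.I * φ) * p * Complex.exp (-Complex.I * z * hp) *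
        (-Complex.I * (hp * (1 - Complex.exp u) + w * Complex.exp u))) z := by
    rw [hfun]
    have h1 : HasDerivAt (fun z : ℂ => Complex.exp (-Complex.I * z * hp))
        (Complex.exp (-Complex.I * z * hp) * (-Complex.I * 1 * hp)) z :=
      (((hasDerivAt_id z).const_mul (-Complex.I)).mul_const (hp : ℂ)).cexp
    have h2 : HasDerivAt (fun z : ℂ => 1 - Complex.exp (Complex.I * (z - z₀) * (w : ℝ)))
        (-(Complex.exp (Complex.I * (z - z₀) * (w : ℝ)) * (Complex.I * 1 * (w : ℝ)))) z :=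
      ((((hasDerivAt_id z).sub_const z₀).const_mul Complex.I).mul_const ((w : ℝ) : ℂ)).cexp.const_sub 1
    have h3 := (h1.const_mul (Complex.I * Complex.exp (Complex.I * φ) * p)).fun_mul h2
    refine h3.congr_deriv ?_
    rw [hu]
    ring
  rw [hd.deriv, norm_mul, norm_mul, norm_mul, norm_mul, norm_mul, norm_neg, Complex.norm_I,
    one_mul, one_mul, Complex.norm_exp, Complex.norm_exp, Complex.norm_real, Real.norm_eq_abs,
    abs_of_pos hpp]
  have h1 : (Complex.I * (φ : ℂ)).re = 0 := by simp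
  have h2 : (-Complex.I * z * (hp : ℂ)).re = hp * z.im := by
    simp [mul_comm]
  rw [h1, h2, Real.exp_zero, one_mul]
  have h3 : Real.exp (-(R * A)) ≤ Real.exp (hp * z.im) := by
    apply Real.exp_le_exp.2
    have h2 : |hp * z.im| ≤ R * A := by
      rw [abs_mul]
      exact mul_le_mul h.hhp hz (abs_nonneg _) hR.le
    linarith [neg_abs_le (hp * z.im)]
  have h4 : ‖1 - Complex.exp u‖ ≤ 2 * ‖u‖ := norm_one_sub_exp_upper (by linarith)
  have h5 : 1 - 2 * ‖u‖ ≤ ‖Complex.exp u‖ := by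
    have : ‖(1 : ℂ)‖ - ‖1 - Complex.exp u‖ ≤ ‖(1 : ℂ) - (1 - Complex.exp u)‖ :=
      norm_sub_norm_le _ _
    rw [norm_one, sub_sub_cancel] at this
    linarith
  have h6 : w₀ / 4 ≤ ‖(hp : ℂ) * (1 - Complex.exp u) + w * Complex.exp u‖ := by
    have h7 : ‖(w : ℂ) * Complex.exp u‖ - ‖(hp : ℂ) * (1 - Complex.exp u)‖ ≤
        ‖(hp : ℂ) * (1 - Complex.exp u) + w * Complex.exp u‖ := by
      have := norm_sub_norm_le ((w : ℂ) * Complex.exp u) (-((hp : ℂ) * (1 - Complex.exp u)))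
      rw [norm_neg, sub_neg_eq_add, add_comm ((w : ℂ) * Complex.exp u)] at this
      exact this
    have h8 : ‖(w : ℂ) * Complex.exp u‖ = w * ‖Complex.exp u‖ := by
      rw [norm_mul, Complex.norm_real, Real.norm_eq_abs, abs_of_pos hw]
    have h9 : ‖(hp : ℂ) * (1 - Complex.exp u)‖ ≤ R * (2 * ‖u‖) := by
      rw [norm_mul, Complex.norm_real, Real.norm_eq_abs]
      exact mul_le_mul h.hhp h4 (norm_nonneg _) hR.le
    have h10 : ‖u‖ ≤ 1 / 4 := hun.trans hu1
    have h11 : R * ‖u‖ ≤ w₀ / 8 := by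
      have := mul_le_mul_of_nonneg_left (hun.trans hu2) hR.le
      calc R * ‖u‖ ≤ R * (w₀ / (8 * R)) := this
        _ = w₀ / 8 := by field_simp
    have h12 : w₀ / 2 ≤ w * ‖Complex.exp u‖ := by
      have : (1 : ℝ) / 2 ≤ ‖Complex.exp u‖ := by linarith
      have h13 := h.hw
      calc w₀ / 2 = w₀ * (1 / 2) := by ring
        _ ≤ w * ‖Complex.exp u‖ := mul_le_mul h13 this (by norm_num) hw.le
    linarith
  have h13 := h.p1
  have h14 := Real.exp_pos (-(R * A))
  gcongr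

/-- **Zeros in good windows.** -/
theorem window_main {R w₀ p₀ P₀ η : ℝ} (hR : 0 < R) (hw₀ : 0 < w₀) (hp₀ : 0 < p₀)
    (hη : 0 < η) :
    ∃ ϱ δ T : ℝ, 0 < ϱ ∧ ϱ ≤ 1 / 2 ∧ ϱ * (8 * R) ≤ 1 ∧ 0 < δ ∧ 0 < T ∧
    ∀ (φ pK qK hpK hmK pH qH hpH hmH : ℝ), WPar R w₀ p₀ P₀ pK qK hpK hmK →
      WPar R w₀ p₀ P₀ pH qH hpH hmH → hpK + hmK = hpH + hmH → η ≤ |Real.log (qH / pH)| →
    ∀ (f g : ℂ → ℂ), Differentiable ℂ f → Differentiable ℂ g →
      (∀ z, f (-(starRingEnd ℂ z)) = starRingEnd ℂ (f z)) →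
      (∀ z, f z * f (-z) = g z * g (-z)) →
    ∀ (N lam : ℝ), 0 < N →
      (∀ z : ℂ, ‖z‖ ≤ T → ‖(N : ℂ) * f (lam + z) - mainF φ pK qK hpK hmK (lam + z)‖ ≤ δ) →
      (∀ z : ℂ, ‖z‖ ≤ T → ‖(N : ℂ) * g (lam + z) - mainF φ pH qH hpH hmH (lam + z)‖ ≤ δ) →
    ∀ k : ℕ, |(2 * φ + 2 * Real.pi * k) / (hpH + hmH) - lam| ≤ 2 * Real.pi / w₀ →
      ((pK = pH ∧ qK = qH) → ∃ z, ‖z - zr φ pH qH hpH hmH k‖ ≤ ϱ ∧ g z = 0 ∧ f z = 0) ∧
      ((pK = qH ∧ qK = pH) → ∃ z, ‖z - zr φ pH qH hpH hmH k‖ ≤ ϱ ∧ g z = 0 ∧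
        deriv g z ≠ 0 ∧ f z ≠ 0) := by
  set L₀ : ℝ := |Real.log (P₀ / p₀) / w₀| with hL₀
  have hL₀' : 0 ≤ L₀ := abs_nonneg _
  set ϱ : ℝ := min (min (1 / 2) (1 / (8 * R))) (min (w₀ / (16 * R ^ 2)) (η / (2 * R))) with hϱdef
  have hϱ : 0 < ϱ := by
    rw [hϱdef]
    positivity
  have hϱ1 : ϱ ≤ 1 / 2 := (min_le_left _ _).trans (min_le_left _ _)
  have hϱ2 : ϱ ≤ 1 / (8 * R) := (min_le_left _ _).trans (min_le_right _ _)
  have hϱ3 : ϱ ≤ w₀ / (16 * R ^ 2) := (min_le_right _ _).trans (min_le_left _ _)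
  have hϱ4 : ϱ ≤ η / (2 * R) := (min_le_right _ _).trans (min_le_right _ _)
  set E₀ : ℝ := p₀ * Real.exp (-(R * (L₀ + 1))) with hE₀
  have hE₀' : 0 < E₀ := by positivity
  have hexpη : 0 < 1 - Real.exp (-η) := by
    have : Real.exp (-η) < 1 := by
      rw [Real.exp_lt_one_iff]; linarith
    linarith
  set m₀ : ℝ := E₀ * (ϱ * w₀ / 2) with hm₀
  set m₁ : ℝ := E₀ * (1 - Real.exp (-η)) with hm₁
  set m₂ : ℝ := E₀ * (w₀ / 4) with hm₂
  have hm₀' : 0 < m₀ := by positivity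
  have hm₁' : 0 < m₁ := by positivity
  have hm₂' : 0 < m₂ := by positivity
  set δ : ℝ := min (m₀ / 4) (min (m₁ / 2) (m₂ / 2)) with hδdef
  have hδ : 0 < δ := by rw [hδdef]; positivity
  have hδ0 : δ ≤ m₀ / 4 := min_le_left _ _
  have hδ1 : δ ≤ m₁ / 2 := (min_le_right _ _).trans (min_le_left _ _)
  have hδ2 : δ ≤ m₂ / 2 := (min_le_right _ _).trans (min_le_right _ _)
  set T : ℝ := 2 * Real.pi / w₀ + L₀ + 3 with hT
  have hTpos : 0 < T := by
    have : 0 < 2 * Real.pi / w₀ := by positivity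
    linarith
  refine ⟨ϱ, δ, T, hϱ, hϱ1, ?_, hδ, hTpos, ?_⟩
  · calc ϱ * (8 * R) ≤ 1 / (8 * R) * (8 * R) := by gcongr
      _ = 1 := by field_simp
  intro φ pK qK hpK hmK pH qH hpH hmH hK hH hwKH hlog f g hf hg hsym hprod N lam hN hfw hgw k hk
  have hpHp : 0 < pH := lt_of_lt_of_le hp₀ hH.p1
  have hqHp : 0 < qH := lt_of_lt_of_le hp₀ hH.q1
  have hpKp : 0 < pK := lt_of_lt_of_le hp₀ hK.p1
  have hqKp : 0 < qK := lt_of_lt_of_le hp₀ hK.q1
  set w : ℝ := hpH + hmH with hwdef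
  have hw : 0 < w := lt_of_lt_of_le hw₀ hH.hw
  have hw2 : w ≤ 2 * R := by
    have := hH.hhp; have := hH.hhm
    have a1 := le_abs_self hpH
    have a2 := le_abs_self hmH
    linarith
  set z₀ := zr φ pH qH hpH hmH k with hz₀
  have hz₀im : z₀.im = Real.log (qH / pH) / w := zr_im _ _ _ _ _ _
  have hz₀re : z₀.re = (2 * φ + 2 * Real.pi * k) / w := zr_re _ _ _ _ _ _
  have hz₀im' : |z₀.im| ≤ L₀ := by
    rw [hz₀im]
    exact (WPar.log_le hw₀ hp₀ hH).trans (le_abs_self _)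
  have hz₀lam : ‖z₀ - lam‖ ≤ 2 * Real.pi / w₀ + L₀ := by
    have h1 : ‖z₀ - (lam : ℂ)‖ ≤ |(z₀ - (lam : ℂ)).re| + |(z₀ - (lam : ℂ)).im| :=
      Complex.norm_le_abs_re_add_abs_im _
    simp only [Complex.sub_re, Complex.ofReal_re, Complex.sub_im, Complex.ofReal_im,
      sub_zero] at h1
    rw [hz₀re] at h1
    linarith
  have hwin : ∀ z : ℂ, ‖z - z₀‖ ≤ ϱ → ‖z - lam‖ ≤ 2 * Real.pi / w₀ + L₀ + 1 / 2 := by
    intro z hz
    calc ‖z - (lam : ℂ)‖ = ‖(z - z₀) + (z₀ - lam)‖ := by ring_nf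
      _ ≤ ‖z - z₀‖ + ‖z₀ - lam‖ := norm_add_le _ _
      _ ≤ _ := by linarith
  have himz : ∀ z : ℂ, ‖z - z₀‖ ≤ ϱ → |z.im - z₀.im| ≤ ϱ := by
    intro z hz
    have := Complex.abs_im_le_norm (z - z₀)
    rw [Complex.sub_im] at this
    linarith
  have himA : ∀ z : ℂ, ‖z - z₀‖ ≤ ϱ → |z.im| ≤ L₀ + 1 := by
    intro z hz
    have h1 := himz z hz
    have h2 : |z.im| ≤ |z.im - z₀.im| + |z₀.im| := by
      have := abs_add_le (z.im - z₀.im) z₀.im
      simpa using this
    linarith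
  have hgw' : ∀ z : ℂ, ‖z - lam‖ ≤ T → ‖(N : ℂ) * g z - mainF φ pH qH hpH hmH z‖ ≤ δ := by
    intro z hz
    have := hgw (z - lam) hz
    simpa using this
  have hfw' : ∀ z : ℂ, ‖z - lam‖ ≤ T → ‖(N : ℂ) * f z - mainF φ pK qK hpK hmK z‖ ≤ δ := by
    intro z hz
    have := hfw (z - lam) hz
    simpa using this
  -- existence of a zero of `g`
  obtain ⟨zs, hzs, hNg⟩ : ∃ z, ‖z - z₀‖ ≤ ϱ ∧ (N : ℂ) * g z = 0 := by
    apply exists_zero_of_small (G := fun z => (N : ℂ) * g z) (m := m₀ / 2)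
      ((differentiable_const _).mul hg) hϱ
    · intro z hz
      have h1 : m₀ ≤ ‖mainF φ pH qH hpH hmH z‖ := by
        have hu : ‖Complex.I * (z - z₀) * (w : ℝ)‖ = ϱ * w := by
          rw [norm_mul, norm_mul, Complex.norm_I, one_mul, Complex.norm_real, Real.norm_eq_abs,
            abs_of_pos hw, hz]
        apply mainF_lower_of hw₀ hp₀ hR hH k (himA z hz.le) (by positivity)
        have h2 : ‖Complex.I * (z - z₀) * (w : ℝ)‖ ≤ 1 / 2 := by
          rw [hu]
          calc ϱ * w ≤ 1 / (8 * R) * (2 * R) := by gcongr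
            _ ≤ 1 / 2 := by
              have : 1 / (8 * R) * (2 * R) = 1 / 4 := by field_simp; norm_num
              rw [this]; norm_num
        have h3 := norm_one_sub_exp_lower h2
        rw [hu] at h3
        refine le_trans ?_ h3
        have := hH.hw
        gcongr
      have h4 := hgw' z ((hwin z hz.le).trans (by rw [hT]; linarith))
      have h5 : ‖mainF φ pH qH hpH hmH z‖ - ‖(N : ℂ) * g z‖ ≤
          ‖mainF φ pH qH hpH hmH z - (N : ℂ) * g z‖ := norm_sub_norm_le _ _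
      rw [norm_sub_rev] at h5
      linarith
    · have h1 := hgw' z₀ (by rw [hT]; linarith)
      have h2 : mainF φ pH qH hpH hmH z₀ = 0 := by
        rw [mainF_factor hpHp hqHp hw k, ← hz₀]
        simp
      rw [h2, sub_zero] at h1
      linarith
  have hNc : (N : ℂ) ≠ 0 := by exact_mod_cast hN.ne'
  have hgz : g zs = 0 := by
    rcases mul_eq_zero.1 hNg with h | h
    · exact absurd h hNc
    · exact h
  -- the key lower bound for the distance to the other line
  have hline : η ≤ |(zs.im + z₀.im) * w| := by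
    have h1 := himz zs hzs
    have h2 : (zs.im + z₀.im) * w = 2 * Real.log (qH / pH) + (zs.im - z₀.im) * w := by
      rw [hz₀im]
      field_simp
      ring
    have h3 : |(zs.im - z₀.im) * w| ≤ η := by
      rw [abs_mul, abs_of_pos hw]
      calc |zs.im - z₀.im| * w ≤ η / (2 * R) * (2 * R) := by
            gcongr
            exact h1.trans hϱ4
        _ = η := by field_simp
    have h4 : |2 * Real.log (qH / pH)| - |(zs.im - z₀.im) * w| ≤
        |2 * Real.log (qH / pH) + (zs.im - z₀.im) * w| := by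
      have := abs_sub_abs_le_abs_sub (2 * Real.log (qH / pH)) (-((zs.im - z₀.im) * w))
      rwa [abs_neg, sub_neg_eq_add] at this
    rw [h2]
    rw [abs_mul, abs_two] at h4
    linarith
  constructor
  · rintro ⟨rfl, rfl⟩
    refine ⟨zs, hzs, hgz, ?_⟩
    have h1 : f zs * f (-zs) = 0 := by rw [hprod, hgz, zero_mul]
    rcases mul_eq_zero.1 h1 with h | h
    · exact h
    · exfalso
      have h2 : f (-zs) = starRingEnd ℂ (f (starRingEnd ℂ zs)) := by
        have := hsym (starRingEnd ℂ zs)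
        simpa using this
      rw [h2] at h
      have h3 : f (starRingEnd ℂ zs) = 0 := by simpa using h
      set zc := starRingEnd ℂ zs with hzc
      have h4 : ‖zc - lam‖ ≤ T := by
        have : zc - lam = starRingEnd ℂ (zs - lam) := by simp [hzc]
        rw [this, RCLike.norm_conj]
        exact (hwin zs hzs).trans (by rw [hT]; linarith)
      have h5 := hfw' zc h4
      rw [h3, mul_zero, zero_sub, norm_neg] at h5
      have h6 : m₁ ≤ ‖mainF φ pK qK hpK hmK zc‖ := by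
        apply mainF_lower_of hw₀ hp₀ hR hK k (A := L₀ + 1) _ hexpη.le
        · apply norm_one_sub_exp_line hη
          have h7 : (Complex.I * (zc - zr φ pK qK hpK hmK k) * ((hpK + hmK : ℝ) : ℂ)).re =
              (zs.im + z₀.im) * w := by
            have h8 : (zr φ pK qK hpK hmK k).im = z₀.im := by
              rw [zr_im, hwKH, hz₀im]
            have h9 : zc.im = -zs.im := by simp [hzc]
            rw [hwKH]
            simp only [Complex.mul_re, Complex.mul_im, Complex.I_re, Complex.I_im,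
              Complex.sub_re, Complex.sub_im, Complex.ofReal_re, Complex.ofReal_im, h8, h9]
            ring
          rw [h7]
          exact hline
        · have h9 : zc.im = -zs.im := by simp [hzc]
          rw [h9, abs_neg]
          exact himA zs hzs
      linarith
  · rintro ⟨hpq1, hpq2⟩
    refine ⟨zs, hzs, hgz, ?_, ?_⟩
    · intro hder
      have h1 : ‖deriv (fun z => (N : ℂ) * g z - mainF φ pH qH hpH hmH z) zs‖ ≤ δ / 1 := by
        apply Complex.norm_deriv_le_of_forall_mem_sphere_norm_le one_pos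
        · exact (((differentiable_const _).mul hg).sub
            (differentiable_mainF φ pH qH hpH hmH)).diffContOnCl
        · intro z hz
          apply hgw'
          have hz' : ‖z - zs‖ = 1 := by rwa [mem_sphere, dist_eq_norm] at hz
          calc ‖z - (lam : ℂ)‖ = ‖(z - zs) + (zs - lam)‖ := by ring_nf
            _ ≤ ‖z - zs‖ + ‖zs - lam‖ := norm_add_le _ _
            _ ≤ T := by
              have := hwin zs hzs
              rw [hT]; linarith
      have h2 : deriv (fun z => (N : ℂ) * g z - mainF φ pH qH hpH hmH z) zs =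
          (N : ℂ) * deriv g zs - deriv (mainF φ pH qH hpH hmH) zs := by
        have a1 : HasDerivAt (fun z => (N : ℂ) * g z) ((N : ℂ) * deriv g zs) zs :=
          (hg zs).hasDerivAt.const_mul _
        have a2 : HasDerivAt (mainF φ pH qH hpH hmH) (deriv (mainF φ pH qH hpH hmH) zs) zs :=
          (differentiable_mainF φ pH qH hpH hmH zs).hasDerivAt
        exact (a1.fun_sub a2).deriv
      rw [h2, hder, mul_zero, zero_sub, norm_neg, div_one] at h1
      have hzR : ‖zs - z₀‖ * (2 * R) ≤ ϱ * (2 * R) := by gcongr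
      have h3 : m₂ ≤ ‖deriv (mainF φ pH qH hpH hmH) zs‖ := by
        apply deriv_mainF_lower hw₀ hp₀ hR hH k (himA zs hzs)
        · refine hzR.trans ?_
          calc ϱ * (2 * R) ≤ 1 / (8 * R) * (2 * R) := by gcongr
            _ = 1 / 4 := by field_simp; norm_num
        · refine hzR.trans ?_
          calc ϱ * (2 * R) ≤ w₀ / (16 * R ^ 2) * (2 * R) := by gcongr
            _ = w₀ / (8 * R) := by field_simp; norm_num
      linarith
    · intro hfz
      have h5 := hfw' zs ((hwin zs hzs).trans (by rw [hT]; linarith))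
      rw [hfz, mul_zero, zero_sub, norm_neg] at h5
      have h6 : m₁ ≤ ‖mainF φ pK qK hpK hmK zs‖ := by
        apply mainF_lower_of hw₀ hp₀ hR hK k (himA zs hzs) hexpη.le
        apply norm_one_sub_exp_line hη
        have h7 : (Complex.I * (zs - zr φ pK qK hpK hmK k) * ((hpK + hmK : ℝ) : ℂ)).re =
            -((zs.im + z₀.im) * w) := by
          have h8 : (zr φ pK qK hpK hmK k).im = -z₀.im := by
            rw [zr_im, hwKH, hz₀im, hpq1, hpq2, ← neg_div, ← Real.log_inv, inv_div]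
          rw [hwKH]
          simp only [Complex.mul_re, Complex.mul_im, Complex.I_re, Complex.I_im,
            Complex.sub_re, Complex.sub_im, Complex.ofReal_re, Complex.ofReal_im, h8]
          ring
        rw [h7, abs_neg]
        exact hline
      linarith

end

end Pool.Agent.Helper77.Cov
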