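import Pool.Agent.Helper77.Cov.PoleData
import Pool.Agent.Helper77.Cov.Window
import Pool.Agent.Helper77.Cov.Cells

/-!
# Counting zeros along a real direction
-/

open Set MeasureTheory

namespace Pool.Agent.Helper77.Cov

/-- The growth function on circles. -/
noncomputable def growA (hp hm : ℝ) (z : ℂ) : ℝ := hp * max z.im 0 + hm * max (-z.im) 0

lemma continuous_growA (hp hm : ℝ) : Continuous (growA hp hm) := by
  unfold growA
  have h1 : Continuous (fun z : ℂ => max z.im 0) := Complex.continuous_im.max continuous_const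
  have h2 : Continuous (fun z : ℂ => max (-z.im) 0) :=
    Complex.continuous_im.neg.max continuous_const
  exact (continuous_const.mul h1).add (continuous_const.mul h2)

lemma circleAverage_growA {hp hm r : ℝ} (hr : 0 < r) :
    Real.circleAverage (growA hp hm) 0 r = r * (hp + hm) / Real.pi := by
  unfold Real.circleAverage
  have hcont : Continuous (fun θ : ℝ => growA hp hm (circleMap 0 r θ)) :=
    (continuous_growA hp hm).comp (continuous_circleMap 0 r)
  have him : ∀ θ : ℝ, (circleMap 0 r θ).im = r * Real.sin θ := by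
    intro θ
    rw [circleMap_zero, Complex.im_ofReal_mul, Complex.exp_ofReal_mul_I_im]
  have h1 : ∫ θ in (0)..Real.pi, growA hp hm (circleMap 0 r θ) = 2 * (r * hp) := by
    have : ∫ θ in (0)..Real.pi, growA hp hm (circleMap 0 r θ) =
        ∫ θ in (0)..Real.pi, (r * hp) * Real.sin θ := by
      apply intervalIntegral.integral_congr
      intro θ hθ
      rw [uIcc_of_le Real.pi_pos.le] at hθ
      have hs : 0 ≤ Real.sin θ := Real.sin_nonneg_of_mem_Icc hθ
      have hs' : 0 ≤ r * Real.sin θ := by positivity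
      simp only [growA, him]
      rw [max_eq_left hs', max_eq_right (by linarith)]
      ring
    rw [this, intervalIntegral.integral_const_mul, integral_sin]
    simp
    ring
  have h2 : ∫ θ in Real.pi..(2 * Real.pi), growA hp hm (circleMap 0 r θ) = 2 * (r * hm) := by
    have : ∫ θ in Real.pi..(2 * Real.pi), growA hp hm (circleMap 0 r θ) =
        ∫ θ in Real.pi..(2 * Real.pi), (-(r * hm)) * Real.sin θ := by
      apply intervalIntegral.integral_congr
      intro θ hθ
      rw [uIcc_of_le (by linarith [Real.pi_pos])] at hθ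
      have hs : Real.sin θ ≤ 0 := by
        have h3 : 0 ≤ Real.sin (θ - Real.pi) :=
          Real.sin_nonneg_of_mem_Icc ⟨by linarith [hθ.1], by linarith [hθ.2]⟩
        rw [Real.sin_sub_pi] at h3
        linarith
      have hs' : r * Real.sin θ ≤ 0 := mul_nonpos_of_nonneg_of_nonpos hr.le hs
      simp only [growA, him]
      rw [max_eq_right hs', max_eq_left (by linarith)]
      ring
    rw [this, intervalIntegral.integral_const_mul, integral_sin]
    simp
    ring
  rw [← intervalIntegral.integral_add_adjacent_intervals (b := Real.pi)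
    (hcont.intervalIntegrable _ _) (hcont.intervalIntegrable _ _), h1, h2, smul_eq_mul]
  field_simp

/-- The quantity controlling the bad cells. -/
noncomputable def Ups (C : ℝ) (e : ℝ → ENNReal) (r : ℝ) : ENNReal :=
  ENNReal.ofReal (C * (1 + Real.log r)) + ENNReal.ofReal C *
    ∫⁻ lam in Ico 1 r, ENNReal.ofReal (Real.log (r / lam)) * (e lam) ^ 2

/-- Data of a pair of entire functions at a real direction. -/
structure DirData (φ pK qK hpK hmK pH qH hpH hmH : ℝ) (f g : ℂ → ℂ) : Prop where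
  df : Differentiable ℂ f
  dg : Differentiable ℂ g
  symf : ∀ z, f (-(starRingEnd ℂ z)) = starRingEnd ℂ (f z)
  symg : ∀ z, g (-(starRingEnd ℂ z)) = starRingEnd ℂ (g z)
  prod : ∀ z, f z * f (-z) = g z * g (-z)
  g0 : g 0 ≠ 0
  grow : ∀ z, ‖g z‖ ≤ ‖g 0‖ * Real.exp (growA hpH hmH z)
  hpH0 : 0 ≤ hpH
  hmH0 : 0 ≤ hmH
  width : hpK + hmK = hpH + hmH

lemma sum_two_sided (Good : Finset ℕ) (ζ : ℕ → ℂ) (hinj : Set.InjOn ζ Good)
    (hre : ∀ k ∈ Good, 0 < (ζ k).re) (F : ℝ → ℝ) :
    ∑ z ∈ Good.image ζ ∪ Good.image (fun k => -(starRingEnd ℂ (ζ k))), F ‖z‖ =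
      2 * ∑ k ∈ Good, F ‖ζ k‖ := by
  classical
  have hdisj : Disjoint (Good.image ζ) (Good.image (fun k => -(starRingEnd ℂ (ζ k)))) := by
    rw [Finset.disjoint_left]
    intro z h1 h2
    obtain ⟨k, hk, rfl⟩ := Finset.mem_image.1 h1
    obtain ⟨j, hj, hjk⟩ := Finset.mem_image.1 h2
    have h3 := hre k hk
    have h4 := hre j hj
    rw [← hjk] at h3
    simp at h3
    linarith
  have hinj2 : Set.InjOn (fun k => -(starRingEnd ℂ (ζ k))) Good := by
    intro i hi j hj hij
    apply hinj hi hj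
    have h1 : (starRingEnd ℂ) (ζ i) = (starRingEnd ℂ) (ζ j) := neg_injective hij
    exact (starRingEnd ℂ).injective h1
  rw [Finset.sum_union hdisj, Finset.sum_image hinj, Finset.sum_image hinj2, two_mul]
  congr 1
  apply Finset.sum_congr rfl
  intro k _
  rw [norm_neg, RCLike.norm_conj]

/-- **Counting theorem along a real direction.** -/
theorem count_main {R w₀ p₀ P₀ η φ : ℝ} (hR : 0 < R) (hw₀ : 0 < w₀) (hp₀ : 0 < p₀)
    (hη : 0 < η) (hφ : 0 ≤ φ) :
    ∃ δ T C : ℝ, 0 < δ ∧ 0 < T ∧ 0 ≤ C ∧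
    ∀ (pK qK hpK hmK pH qH hpH hmH : ℝ), WPar R w₀ p₀ P₀ pK qK hpK hmK →
      WPar R w₀ p₀ P₀ pH qH hpH hmH → η ≤ |Real.log (qH / pH)| →
    ∀ (f g : ℂ → ℂ), DirData φ pK qK hpK hmK pH qH hpH hmH f g →
    ∀ (N : ℝ → ℝ) (e : ℝ → ENNReal), (∀ lam, 1 ≤ lam → 0 < N lam) →
      (∀ lam, 1 ≤ lam → e lam ≤ ENNReal.ofReal δ → ∀ z : ℂ, ‖z‖ ≤ T →
        ‖(N lam : ℂ) * f (lam + z) - mainF φ pK qK hpK hmK (lam + z)‖ ≤ δ ∧
        ‖(N lam : ℂ) * g (lam + z) - mainF φ pH qH hpH hmH (lam + z)‖ ≤ δ) →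
    ∀ r : ℝ, 1 ≤ r →
      ((pK = pH ∧ qK = qH) → PoleData f g r (Ups C e r)) ∧
      ((pK = qH ∧ qK = pH) → ∃ Z : Finset ℂ, (∀ z ∈ Z, ‖z‖ < r ∧ g z = 0 ∧
        deriv g z ≠ 0 ∧ f z ≠ 0) ∧
        ENNReal.ofReal (w₀ / (2 * Real.pi) * r) ≤
          ENNReal.ofReal (∑ z ∈ Z, Real.log (r / ‖z‖)) + Ups C e r) := by
  classical
  obtain ⟨ϱ, δ, T, hϱ, hϱ1, hϱ2, hδ, hT, hmain⟩ := window_main (P₀ := P₀) hR hw₀ hp₀ hη
  have hpi := Real.pi_pos
  set L₀ : ℝ := |Real.log (P₀ / p₀) / w₀| with hL₀
  have hL₀' : 0 ≤ L₀ := abs_nonneg _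
  set c : ℝ := L₀ + 1 + 2 * Real.pi / w₀ with hc
  set k₀ : ℕ := ⌈R⌉₊ + 1 with hk₀
  set am : ℝ := 2 * φ / w₀ + c + k₀ * (2 * Real.pi / w₀) with ham
  have ham0 : 0 ≤ am := by positivity
  set C : ℝ := R * am + w₀ * am + am * R + 2 * (R / δ ^ 2) with hC
  have hC0 : 0 ≤ C := by positivity
  clear_value C
  have hcpos : 0 ≤ c := by positivity
  clear_value am
  clear_value c
  clear_value L₀
  refine ⟨δ, T, C, hδ, hT, hC0, ?_⟩
  intro pK qK hpK hmK pH qH hpH hmH hK hH hlog f g hfg N e hN he r hr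
  have hr0 : 0 < r := by linarith
  have hlogr : 0 ≤ Real.log r := Real.log_nonneg hr
  set w : ℝ := hpH + hmH with hw
  have hwpos : 0 < w := lt_of_lt_of_le hw₀ hH.hw
  have hw2 : w ≤ 2 * R := by
    have := hH.hhp; have := hH.hhm
    have a1 := le_abs_self hpH
    have a2 := le_abs_self hmH
    linarith
  set L : ℝ := 2 * Real.pi / w with hL
  have hLpos : 0 < L := by positivity
  have hLle : L ≤ 2 * Real.pi / w₀ := by
    rw [hL]; gcongr; exact hH.hw
  have hLge : Real.pi / R ≤ L := by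
    rw [hL, div_le_div_iff₀ hR hwpos]
    calc Real.pi * w ≤ Real.pi * (2 * R) := by gcongr
      _ = 2 * Real.pi * R := by ring
  set x₀ : ℝ := 2 * φ / w with hx₀
  have hx₀0 : 0 ≤ x₀ := by positivity
  have hx₀le : x₀ ≤ 2 * φ / w₀ := by
    rw [hx₀]; gcongr; exact hH.hw
  have hxk : ∀ k : ℕ, (2 * φ + 2 * Real.pi * k) / w = x₀ + k * L := by
    intro k; rw [hx₀, hL]; field_simp
  have hx1 : 1 ≤ x₀ + k₀ * L := by
    have h1 : R ≤ k₀ := by
      rw [hk₀]; push_cast
      linarith [Nat.le_ceil R]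
    have h2 : Real.pi ≤ k₀ * L := by
      calc Real.pi = R * (Real.pi / R) := by field_simp
        _ ≤ k₀ * L := by gcongr
    linarith [Real.pi_gt_three]
  clear_value x₀
  clear_value L
  set y : ℝ := x₀ + c with hy
  set a : ℝ := y + k₀ * L with ha
  clear_value a
  clear_value y
  have ha1 : 1 ≤ a := by
    rw [ha, hy]
    have : 0 ≤ c := by positivity
    linarith
  have ha0 : 0 < a := by linarith
  have ham1 : a ≤ am := by
    rw [ha, hy, ham]
    have : (k₀ : ℝ) * L ≤ k₀ * (2 * Real.pi / w₀) := by gcongr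
    linarith
  have hUps0 : ENNReal.ofReal (C * (1 + Real.log r)) ≤ Ups C e r := le_self_add
  rcases le_or_gt r a with hra | hra
  · -- small radius
    constructor
    · intro _
      have h1 := poleData_remove' hfg.df hfg.dg hfg.g0 hr0 ∅ (by simp)
        (A := growA hpH hmH) ((continuous_growA hpH hmH).continuousOn.circleIntegrable hr0.le)
        (fun z _ => hfg.grow z) (fun z _ => by
          unfold growA
          have := hfg.hpH0; have := hfg.hmH0
          positivity)
      refine h1.mono (le_trans (ENNReal.ofReal_le_ofReal ?_) hUps0)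
      rw [Finset.sum_empty, sub_zero, circleAverage_growA hr0]
      have h2 : r * w / Real.pi ≤ am * R := by
        rw [div_le_iff₀ hpi]
        calc r * w ≤ am * (2 * R) := by gcongr; linarith
          _ = am * R * 2 := by ring
          _ ≤ am * R * Real.pi := by
            have : 0 ≤ am * R := by positivity
            have h2 : (2 : ℝ) ≤ Real.pi := by linarith [Real.pi_gt_three]
            gcongr
      have h3 : am * R ≤ C := by
        rw [hC]
        have : 0 ≤ R * am + w₀ * am + 2 * (R / δ ^ 2) := by positivity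
        linarith
      calc r * w / Real.pi ≤ C * 1 := by rw [mul_one]; exact h2.trans h3
        _ ≤ C * (1 + Real.log r) := by gcongr; exact le_add_of_nonneg_right hlogr
    · intro _
      refine ⟨∅, by simp, ?_⟩
      simp only [Finset.sum_empty, ENNReal.ofReal_zero, zero_add]
      refine le_trans (ENNReal.ofReal_le_ofReal ?_) hUps0
      have h2 : w₀ / (2 * Real.pi) * r ≤ w₀ * am := by
        have : w₀ / (2 * Real.pi) ≤ w₀ := by
          rw [div_le_iff₀ (by positivity)]
          have h2 : (1 : ℝ) ≤ 2 * Real.pi := by linarith [Real.pi_gt_three]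
          exact le_mul_of_one_le_right hw₀.le h2
        exact mul_le_mul this (by linarith) hr0.le hw₀.le
      have h3 : w₀ * am ≤ C := by
        rw [hC]
        have : 0 ≤ R * am + am * R + 2 * (R / δ ^ 2) := by positivity
        linarith
      calc w₀ / (2 * Real.pi) * r ≤ C * 1 := by rw [mul_one]; exact h2.trans h3
        _ ≤ C * (1 + Real.log r) := by gcongr; exact le_add_of_nonneg_right hlogr
  -- large radius
  set S : Finset ℕ := Finset.Ico k₀ ⌈(r - y) / L⌉₊ with hS
  have hSy : ∀ k ∈ S, k₀ ≤ k ∧ y + k * L < r := by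
    intro k hk
    rw [hS, Finset.mem_Ico, Nat.lt_ceil, lt_div_iff₀ hLpos] at hk
    exact ⟨hk.1, by linarith [hk.2]⟩
  have hSx : ∀ k ∈ S, 1 ≤ x₀ + (k : ℝ) * L := by
    intro k hk
    have h1 : (k₀ : ℝ) ≤ k := by exact_mod_cast (hSy k hk).1
    have h2 : (k₀ : ℝ) * L ≤ k * L := by gcongr
    linarith
  set Gd : ℕ → Prop := fun k => ∃ lam ∈ Ico (x₀ + (k : ℝ) * L) (x₀ + ((k : ℝ) + 1) * L),
    e lam ≤ ENNReal.ofReal δ with hGd
  set Good := S.filter Gd with hGood
  set Bad := S.filter (fun k => ¬ Gd k) with hBad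
  set φk : ℕ → ℝ := fun k => Real.log (r / (y + k * L)) with hφk
  have hφk0 : ∀ k ∈ S, 0 ≤ φk k := by
    intro k hk
    have h1 := hSx k hk
    have h2 := (hSy k hk).2
    have h3 : 0 ≤ c := by positivity
    apply Real.log_nonneg
    rw [le_div_iff₀ (by rw [hy]; linarith)]
    linarith
  have hsplit : ∑ k ∈ S, φk k = ∑ k ∈ Good, φk k + ∑ k ∈ Bad, φk k :=
    (Finset.sum_filter_add_sum_filter_not S Gd φk).symm
  have hsum := cells_sum hLpos (k₀ := k₀) (y := y) (r := r) (by linarith) (by linarith)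
  rw [← hS, ← ha] at hsum
  have hlogra : Real.log (r / a) ≤ Real.log r := by
    apply Real.log_le_log (by positivity)
    exact div_le_self hr0.le ha1
  -- the bad sum
  have hbadsum : ENNReal.ofReal (2 * ∑ k ∈ Bad, φk k) ≤ ENNReal.ofReal (2 * (R / δ ^ 2)) *
      ∫⁻ lam in Ico 1 r, ENNReal.ofReal (Real.log (r / lam)) * (e lam) ^ 2 := by
    have hcL : L ≤ c := by
      rw [hc]; linarith
    have h1 := cells_bad (r := r) (x := x₀) (c := c) (k₀ := k₀) hLpos hcL hx1 Bad (by
      intro k hk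
      rw [hBad, Finset.mem_filter] at hk
      have := hSy k hk.1
      refine ⟨this.1, ?_⟩
      have h2 := this.2
      rw [hy] at h2
      linarith) e (δ := δ) (by
      intro k hk lam hlam
      rw [hBad, Finset.mem_filter] at hk
      by_contra hcon
      exact hk.2 ⟨lam, hlam, (not_le.1 hcon).le⟩)
    have h2 : ∑ k ∈ Bad, ENNReal.ofReal (Real.log (r / (x₀ + k * L + c))) =
        ENNReal.ofReal (∑ k ∈ Bad, φk k) := by
      rw [ENNReal.ofReal_sum_of_nonneg]
      · apply Finset.sum_congr rfl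
        intro k _
        simp only [hφk, hy]
        congr 3
        ring
      · intro k hk
        rw [hBad, Finset.mem_filter] at hk
        exact hφk0 k hk.1
    rw [h2] at h1
    set I := ∫⁻ lam in Ico 1 r, ENNReal.ofReal (Real.log (r / lam)) * (e lam) ^ 2 with hI
    have h3 : ENNReal.ofReal (1 / R) * ENNReal.ofReal δ ^ 2 ≤
        ENNReal.ofReal L * ENNReal.ofReal δ ^ 2 := by
      gcongr
      refine le_trans ?_ hLge
      gcongr
      linarith [Real.pi_gt_three]
    have h4 : ENNReal.ofReal (1 / R) * ENNReal.ofReal δ ^ 2 =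
        ENNReal.ofReal (δ ^ 2 / R) := by
      rw [← ENNReal.ofReal_pow hδ.le, ← ENNReal.ofReal_mul (by positivity)]
      congr 1; ring
    have h5 : ENNReal.ofReal (R / δ ^ 2) * ENNReal.ofReal (δ ^ 2 / R) = 1 := by
      rw [← ENNReal.ofReal_mul (by positivity)]
      have : R / δ ^ 2 * (δ ^ 2 / R) = 1 := by field_simp
      rw [this, ENNReal.ofReal_one]
    have h6 : ENNReal.ofReal (∑ k ∈ Bad, φk k) ≤ ENNReal.ofReal (R / δ ^ 2) * I := by
      calc ENNReal.ofReal (∑ k ∈ Bad, φk k)
          = ENNReal.ofReal (R / δ ^ 2) * (ENNReal.ofReal (δ ^ 2 / R) *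
              ENNReal.ofReal (∑ k ∈ Bad, φk k)) := by rw [← mul_assoc, h5, one_mul]
        _ ≤ ENNReal.ofReal (R / δ ^ 2) * (ENNReal.ofReal L * ENNReal.ofReal δ ^ 2 *
              ENNReal.ofReal (∑ k ∈ Bad, φk k)) := by
            rw [← h4]; gcongr
        _ ≤ _ := by gcongr
    rw [ENNReal.ofReal_mul (by norm_num), ENNReal.ofReal_mul (p := 2) (by norm_num), mul_assoc]
    gcongr
  -- final comparison
  have hfinal : ∀ t : ℝ, t ≤ R * am * (1 + Real.log r) + 2 * ∑ k ∈ Bad, φk k →
      ENNReal.ofReal t ≤ Ups C e r := by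
    intro t ht
    calc ENNReal.ofReal t ≤ ENNReal.ofReal (R * am * (1 + Real.log r) + 2 * ∑ k ∈ Bad, φk k) :=
          ENNReal.ofReal_le_ofReal ht
      _ ≤ ENNReal.ofReal (R * am * (1 + Real.log r)) + ENNReal.ofReal (2 * ∑ k ∈ Bad, φk k) :=
          ENNReal.ofReal_add_le
      _ ≤ Ups C e r := by
          unfold Ups
          have h1 : R * am ≤ C := by
            rw [hC]
            have : 0 ≤ w₀ * am + am * R + 2 * (R / δ ^ 2) := by positivity
            linarith
          have h2 : 2 * (R / δ ^ 2) ≤ C := by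
            rw [hC]
            have : 0 ≤ R * am + w₀ * am + am * R := by positivity
            linarith
          refine add_le_add (ENNReal.ofReal_le_ofReal ?_) (hbadsum.trans ?_)
          · gcongr
          · gcongr
  have hBad0 : 0 ≤ ∑ k ∈ Bad, φk k := by
    apply Finset.sum_nonneg
    intro k hk
    rw [hBad, Finset.mem_filter] at hk
    exact hφk0 k hk.1
  -- windows for the good cells
  have hwin : ∀ k ∈ Good,
      ((pK = pH ∧ qK = qH) → ∃ z, ‖z - zr φ pH qH hpH hmH k‖ ≤ ϱ ∧ g z = 0 ∧ f z = 0) ∧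
      ((pK = qH ∧ qK = pH) → ∃ z, ‖z - zr φ pH qH hpH hmH k‖ ≤ ϱ ∧ g z = 0 ∧
        deriv g z ≠ 0 ∧ f z ≠ 0) := by
    intro k hk
    have hk' := (Finset.mem_filter.1 hk)
    obtain ⟨lam, hlam, hle⟩ := hk'.2
    have hlam1 : 1 ≤ lam := (hSx k hk'.1).trans hlam.1
    exact hmain φ pK qK hpK hmK pH qH hpH hmH hK hH hfg.width hlog f g hfg.df hfg.dg hfg.symf
      hfg.prod (N lam) lam (hN lam hlam1) (fun z hz => (he lam hlam1 hle z hz).1)
      (fun z hz => (he lam hlam1 hle z hz).2) k (by
        rw [← hw, hxk, abs_le]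
        constructor
        · have h1 := hlam.2
          have h2 : x₀ + ((k : ℝ) + 1) * L = x₀ + k * L + L := by ring
          rw [h2] at h1
          linarith
        · have := hlam.1
          have : 0 < 2 * Real.pi / w₀ := by positivity
          linarith)
  have hznorm : ∀ k ∈ Good, ∀ z, ‖z - zr φ pH qH hpH hmH k‖ ≤ ϱ →
      ‖z‖ ≤ y + k * L ∧ 0 < z.re ∧ |z.re - (x₀ + k * L)| ≤ 1 / (8 * R) := by
    intro k hk z hz
    have hkS := (Finset.mem_filter.1 hk).1
    have h1 := hSx k hkS
    have hre : |z.re - (zr φ pH qH hpH hmH k).re| ≤ ϱ := by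
      have := Complex.abs_re_le_norm (z - zr φ pH qH hpH hmH k)
      rw [Complex.sub_re] at this
      linarith
    rw [zr_re, ← hw, hxk] at hre
    have him : |(zr φ pH qH hpH hmH k).im| ≤ L₀ := by
      rw [zr_im]
      rw [hL₀]
      exact (WPar.log_le hw₀ hp₀ hH).trans (le_abs_self _)
    have hzr : ‖zr φ pH qH hpH hmH k‖ ≤ (x₀ + k * L) + L₀ := by
      have h2 := Complex.norm_le_abs_re_add_abs_im (zr φ pH qH hpH hmH k)
      rw [zr_re, ← hw, hxk, abs_of_pos (by linarith : 0 < x₀ + (k : ℝ) * L)] at h2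
      linarith
    have hzn : ‖z‖ ≤ ‖z - zr φ pH qH hpH hmH k‖ + ‖zr φ pH qH hpH hmH k‖ := by
      have := norm_add_le (z - zr φ pH qH hpH hmH k) (zr φ pH qH hpH hmH k)
      rwa [sub_add_cancel] at this
    refine ⟨?_, ?_, ?_⟩
    · rw [hy, hc]
      have : 0 < 2 * Real.pi / w₀ := by positivity
      linarith
    · have := (abs_le.1 hre).1
      linarith
    · refine hre.trans ?_
      rw [le_div_iff₀ (by positivity)]
      exact hϱ2
  have hinj : ∀ i ∈ Good, ∀ j ∈ Good, ∀ z : ℂ, |z.re - (x₀ + i * L)| ≤ 1 / (8 * R) →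
      |z.re - (x₀ + j * L)| ≤ 1 / (8 * R) → i = j := by
    intro i _ j _ z h1 h2
    by_contra hij
    have h3 : (1 : ℝ) ≤ |(i : ℝ) - j| := by
      have h4 : (1 : ℤ) ≤ |(i : ℤ) - j| := by
        apply Int.one_le_abs
        omega
      exact_mod_cast h4
    have h5 : |(i : ℝ) - j| * L ≤ 1 / (4 * R) := by
      have h6 : ((i : ℝ) - j) * L = (z.re - (x₀ + j * L)) - (z.re - (x₀ + i * L)) := by ring
      have h7' : |(i : ℝ) - j| * L = |((i : ℝ) - j) * L| := by rw [abs_mul, abs_of_pos hLpos]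
      rw [h7', h6]
      refine (abs_sub _ _).trans ?_
      have h7 : 1 / (4 * R) = 1 / (8 * R) + 1 / (8 * R) := by field_simp; norm_num
      linarith
    have h8 : 1 / (4 * R) < Real.pi / R := by
      rw [div_lt_div_iff₀ (by positivity) hR, one_mul]
      have h2 : R < 4 * R * Real.pi := by
        have h3 : (1 : ℝ) < 4 * Real.pi := by linarith [Real.pi_gt_three]
        calc R = R * 1 := by ring
          _ < R * (4 * Real.pi) := by gcongr
          _ = 4 * R * Real.pi := by ring
      linarith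
    have h9 : L ≤ |(i : ℝ) - j| * L := le_mul_of_one_le_left hLpos.le h3
    linarith
  have hφle : ∀ k ∈ Good, ∀ z, ‖z - zr φ pH qH hpH hmH k‖ ≤ ϱ →
      φk k ≤ Real.log (r / ‖z‖) ∧ ‖z‖ < r := by
    intro k hk z hz
    have h1 := hznorm k hk z hz
    have h2 := (hSy k (Finset.mem_filter.1 hk).1).2
    have h3 : 0 < ‖z‖ := by
      apply norm_pos_iff.2
      rintro rfl
      simp at h1
    have h4 : ‖z‖ < r := lt_of_le_of_lt h1.1 h2
    refine ⟨?_, h4⟩
    simp only [hφk]
    apply Real.log_le_log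
    · exact div_pos hr0 (lt_of_lt_of_le h3 h1.1)
    · exact div_le_div_of_nonneg_left hr0.le h3 h1.1
  have hmulL : r * w / Real.pi = 2 * (r / L) := by
    rw [hL]; field_simp
  have hwL : 1 / L ≤ R := by
    have h1 : 1 / L ≤ 1 / (Real.pi / R) := by
      apply one_div_le_one_div_of_le (by positivity) hLge
    have h2 : 1 / (Real.pi / R) = R / Real.pi := by field_simp
    have h3 : R / Real.pi ≤ R / 2 := by
      gcongr
      linarith [Real.pi_gt_three]
    linarith
  have hsum' : r / L - (1 / L) * (a * Real.log (r / a) + a) ≤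
      ∑ k ∈ Good, φk k + ∑ k ∈ Bad, φk k := by
    rw [← hsplit]
    have h1 : (1 / L) * (r - (a * Real.log (r / a) + a)) ≤ (1 / L) * (L * ∑ k ∈ S, φk k) := by
      gcongr
    have h2 : (1 / L) * (L * ∑ k ∈ S, φk k) = ∑ k ∈ S, φk k := by field_simp
    rw [h2] at h1
    calc _ = (1 / L) * (r - (a * Real.log (r / a) + a)) := by ring
      _ ≤ _ := h1
  have haux : a * Real.log (r / a) + a ≤ am * (1 + Real.log r) := by
    have h1 : a * Real.log (r / a) ≤ am * Real.log r := by
      apply mul_le_mul ham1 hlogra _ ham0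
      apply Real.log_nonneg
      rw [le_div_iff₀ ha0]; linarith
    calc a * Real.log (r / a) + a ≤ am * Real.log r + am := add_le_add h1 ham1
      _ = am * (1 + Real.log r) := by ring
  have haux0 : 0 ≤ a * Real.log (r / a) + a := by
    have : 0 ≤ Real.log (r / a) := by
      apply Real.log_nonneg
      rw [le_div_iff₀ ha0]; linarith
    positivity
  have haux2 : (2 / L) * (a * Real.log (r / a) + a) ≤ R * am * (1 + Real.log r) := by
    have h1 : 2 / L ≤ R := by
      have h1 : 2 / L ≤ 2 / (Real.pi / R) := by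
        apply div_le_div_of_nonneg_left (by norm_num) (by positivity) hLge
      have h2 : 2 / (Real.pi / R) = 2 * R / Real.pi := by field_simp
      have h3 : 2 * R / Real.pi ≤ 2 * R / 2 := by
        gcongr
        linarith [Real.pi_gt_three]
      linarith
    calc (2 / L) * (a * Real.log (r / a) + a) ≤ R * (am * (1 + Real.log r)) :=
          mul_le_mul h1 haux haux0 hR.le
      _ = _ := by ring
  constructor
  · -- type 1
    intro htype
    have hex : ∀ k, ∃ z, k ∈ Good → (‖z - zr φ pH qH hpH hmH k‖ ≤ ϱ ∧ g z = 0 ∧ f z = 0) := by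
      intro k
      by_cases hk : k ∈ Good
      · obtain ⟨z, hz⟩ := (hwin k hk).1 htype
        exact ⟨z, fun _ => hz⟩
      · exact ⟨0, fun h => absurd h hk⟩
    choose ζ hζ using hex
    have hζinj : Set.InjOn ζ Good := by
      intro i hi j hj hij
      apply hinj i hi j hj (ζ i)
      · exact (hznorm i hi _ (hζ i hi).1).2.2
      · rw [hij]
        exact (hznorm j hj _ (hζ j hj).1).2.2
    have hζre : ∀ k ∈ Good, 0 < (ζ k).re := fun k hk => (hznorm k hk _ (hζ k hk).1).2.1
    set Z : Finset ℂ := Good.image ζ ∪ Good.image (fun k => -(starRingEnd ℂ (ζ k))) with hZdef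
    have hZ : ∀ z ∈ Z, ‖z‖ < r ∧ f z = 0 ∧ g z = 0 := by
      intro z hz
      rw [hZdef, Finset.mem_union] at hz
      rcases hz with h | h
      · obtain ⟨k, hk, rfl⟩ := Finset.mem_image.1 h
        have := hζ k hk
        exact ⟨(hφle k hk _ this.1).2, this.2.2, this.2.1⟩
      · obtain ⟨k, hk, rfl⟩ := Finset.mem_image.1 h
        have := hζ k hk
        refine ⟨?_, ?_, ?_⟩
        · rw [norm_neg, RCLike.norm_conj]
          exact (hφle k hk _ this.1).2
        · rw [hfg.symf, this.2.2, map_zero]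
        · rw [hfg.symg, this.2.1, map_zero]
    have h1 := poleData_remove' hfg.df hfg.dg hfg.g0 hr0 Z hZ
      (A := growA hpH hmH) ((continuous_growA hpH hmH).continuousOn.circleIntegrable hr0.le)
      (fun z _ => hfg.grow z) (fun z _ => by
        unfold growA
        have := hfg.hpH0; have := hfg.hmH0
        positivity)
    refine h1.mono (hfinal _ ?_)
    rw [circleAverage_growA hr0, ← hw, hmulL]
    have h2 := sum_two_sided Good ζ hζinj hζre (fun t => Real.log (r / t))
    rw [← hZdef] at h2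
    rw [h2]
    have h3 : ∑ k ∈ Good, φk k ≤ ∑ k ∈ Good, Real.log (r / ‖ζ k‖) := by
      apply Finset.sum_le_sum
      intro k hk
      exact (hφle k hk _ (hζ k hk).1).1
    have h4 : (2 / L) * (a * Real.log (r / a) + a) =
      2 * ((1 / L) * (a * Real.log (r / a) + a)) := by ring
    linarith
  · -- type 2
    intro htype
    have hex : ∀ k, ∃ z, k ∈ Good → (‖z - zr φ pH qH hpH hmH k‖ ≤ ϱ ∧ g z = 0 ∧
        deriv g z ≠ 0 ∧ f z ≠ 0) := by
      intro k
      by_cases hk : k ∈ Good
      · obtain ⟨z, hz⟩ := (hwin k hk).2 htype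
        exact ⟨z, fun _ => hz⟩
      · exact ⟨0, fun h => absurd h hk⟩
    choose ζ hζ using hex
    have hζinj : Set.InjOn ζ Good := by
      intro i hi j hj hij
      apply hinj i hi j hj (ζ i)
      · exact (hznorm i hi _ (hζ i hi).1).2.2
      · rw [hij]
        exact (hznorm j hj _ (hζ j hj).1).2.2
    refine ⟨Good.image ζ, ?_, ?_⟩
    · intro z hz
      obtain ⟨k, hk, rfl⟩ := Finset.mem_image.1 hz
      have := hζ k hk
      exact ⟨(hφle k hk _ this.1).2, this.2⟩
    · rw [Finset.sum_image hζinj]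
      have h3 : ∑ k ∈ Good, φk k ≤ ∑ k ∈ Good, Real.log (r / ‖ζ k‖) := by
        apply Finset.sum_le_sum
        intro k hk
        exact (hφle k hk _ (hζ k hk).1).1
      have h5 : w₀ / (2 * Real.pi) * r ≤ r / L := by
        rw [hL]
        have : r / (2 * Real.pi / w) = w / (2 * Real.pi) * r := by field_simp
        rw [this]
        have := hH.hw
        gcongr
      have h6 : (1 / L) * (a * Real.log (r / a) + a) ≤ (2 / L) * (a * Real.log (r / a) + a) := by
        gcongr
        norm_num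
      have h7 : w₀ / (2 * Real.pi) * r ≤ ∑ k ∈ Good, Real.log (r / ‖ζ k‖) +
          (R * am * (1 + Real.log r) + 2 * ∑ k ∈ Bad, φk k) := by linarith
      calc ENNReal.ofReal (w₀ / (2 * Real.pi) * r)
          ≤ ENNReal.ofReal (∑ k ∈ Good, Real.log (r / ‖ζ k‖) +
          (R * am * (1 + Real.log r) + 2 * ∑ k ∈ Bad, φk k)) := ENNReal.ofReal_le_ofReal h7
        _ ≤ ENNReal.ofReal (∑ k ∈ Good, Real.log (r / ‖ζ k‖)) +
          ENNReal.ofReal (R * am * (1 + Real.log r) + 2 * ∑ k ∈ Bad, φk k) :=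
            ENNReal.ofReal_add_le
        _ ≤ _ := by
          gcongr
          exact hfinal _ le_rfl

end Pool.Agent.Helper77.Cov
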