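import Pool.Agent.Helper77.Cov.WindowErr
import Pool.Agent.Helper77.Cov.Count

/-!
# Basic properties of the Fourier transforms
-/

open Metric Set MeasureTheory Complex Filter Topology

namespace Pool.Agent.Helper77.Cov

variable {d : ℕ}

/-- The real linear functional `p ↦ ⟨σ, p.1⟩ + p.2`, with values in `ℂ`. -/
noncomputable def ell (σ : V d) : (V d × ℝ) →L[ℝ] ℂ :=
  Complex.ofRealCLM.comp ((innerSL ℝ σ).comp (ContinuousLinearMap.fst ℝ (V d) ℝ) +
    ContinuousLinearMap.snd ℝ (V d) ℝ)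

lemma ell_apply (σ : V d) (p : V d × ℝ) : ell σ p = ((inner ℝ σ p.1 + p.2 : ℝ) : ℂ) := by
  simp [ell]

/-- The Fourier transform at a complex covector. -/
noncomputable def FC (K : Set (V d × ℝ)) (L : (V d × ℝ) →L[ℝ] ℂ) : ℂ :=
  ∫ p in K, Complex.exp (-Complex.I * L p)

lemma fT_eq_FC (K : Set (V d × ℝ)) (σ : V d) (z : ℂ) : fT K σ z = FC K (z • ell σ) := by
  unfold fT FC
  congr 1
  ext p
  rw [_root_.smul_apply, ell_apply, smul_eq_mul, mul_assoc]

/-- Two-parameter family. -/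
noncomputable def F2 (K : Set (V d × ℝ)) (L₁ L₂ : (V d × ℝ) →L[ℝ] ℂ) (q : ℂ × ℂ) : ℂ :=
  ∫ p in K, Complex.exp (-Complex.I * (q.1 * L₁ p + q.2 * L₂ p))

lemma F2_eq_FC (K : Set (V d × ℝ)) (L₁ L₂ : (V d × ℝ) →L[ℝ] ℂ) (a b : ℂ) :
    F2 K L₁ L₂ (a, b) = FC K (a • L₁ + b • L₂) := rfl

lemma differentiable_F2 {K : Set (V d × ℝ)} (hK : IsCompact K) (L₁ L₂ : (V d × ℝ) →L[ℝ] ℂ) :
    Differentiable ℂ (F2 K L₁ L₂) := by
  have hfin : IsFiniteMeasure ((volume : Measure (V d × ℝ)).restrict K) :=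
    ⟨by simpa using hK.measure_lt_top⟩
  set G : ℂ × ℂ → V d × ℝ → ℂ := fun q p =>
    Complex.exp (-Complex.I * (q.1 * L₁ p + q.2 * L₂ p)) with hG
  set G' : ℂ × ℂ → V d × ℝ → (ℂ × ℂ →L[ℂ] ℂ) := fun q p =>
    Complex.exp (-Complex.I * (q.1 * L₁ p + q.2 * L₂ p)) •
      (-Complex.I • (L₁ p • ContinuousLinearMap.fst ℂ ℂ ℂ +
        L₂ p • ContinuousLinearMap.snd ℂ ℂ ℂ)) with hG'
  have hcG : Continuous (Function.uncurry G) := by
    simp only [hG, Function.uncurry_def]
    fun_prop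
  have hcG' : Continuous (Function.uncurry G') := by
    simp only [hG', Function.uncurry_def]
    fun_prop
  intro q₀
  obtain ⟨C, hC⟩ : ∃ C : ℝ, ∀ x ∈ closedBall q₀ 1 ×ˢ K, ‖Function.uncurry G' x‖ ≤ C :=
    ((isCompact_closedBall q₀ 1).prod hK).exists_bound_of_continuousOn hcG'.continuousOn
  have h := hasFDerivAt_integral_of_dominated_of_fderiv_le (𝕜 := ℂ)
    (μ := (volume : Measure (V d × ℝ)).restrict K) (F := G) (F' := G') (x₀ := q₀)
    (s := ball q₀ 1) (bound := fun _ => C) (ball_mem_nhds q₀ one_pos) ?_ ?_ ?_ ?_ ?_ ?_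
  · exact h.differentiableAt
  · filter_upwards with q
    exact (hcG.comp (f := fun p => (q, p)) (by fun_prop)).aestronglyMeasurable
  · exact (hcG.comp (f := fun p => (q₀, p)) (by fun_prop)).continuousOn.integrableOn_compact hK
  · exact (hcG'.comp (f := fun p => (q₀, p)) (by fun_prop)).aestronglyMeasurable
  · filter_upwards [ae_restrict_mem hK.measurableSet] with p hp q hq
    exact hC (q, p) ⟨ball_subset_closedBall hq, hp⟩
  · exact integrable_const _
  · filter_upwards with p q _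
    simp only [hG, hG']
    have h1 : HasFDerivAt (fun q : ℂ × ℂ => -Complex.I * (q.1 * L₁ p + q.2 * L₂ p))
        (-Complex.I • (L₁ p • ContinuousLinearMap.fst ℂ ℂ ℂ +
        L₂ p • ContinuousLinearMap.snd ℂ ℂ ℂ)) q := by
      have h2 : HasFDerivAt (fun q : ℂ × ℂ => q.1 * L₁ p + q.2 * L₂ p)
          (L₁ p • ContinuousLinearMap.fst ℂ ℂ ℂ + L₂ p • ContinuousLinearMap.snd ℂ ℂ ℂ) q :=
        (hasFDerivAt_fst.mul_const (L₁ p)).add (hasFDerivAt_snd.mul_const (L₂ p))
      exact h2.const_mul (-Complex.I)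
    exact h1.cexp

lemma fT_eq_F2 (K : Set (V d × ℝ)) (σ : V d) (z : ℂ) : fT K σ z = F2 K (ell σ) 0 (z, 0) := by
  unfold fT F2
  congr 1
  ext p
  rw [ell_apply, zero_mul, add_zero, mul_assoc]

lemma differentiable_fT {K : Set (V d × ℝ)} (hK : IsCompact K) (σ : V d) :
    Differentiable ℂ (fT K σ) := by
  have h1 : fT K σ = fun z => F2 K (ell σ) 0 (z, 0) := by
    ext z; exact fT_eq_F2 K σ z
  rw [h1]
  have h2 : Differentiable ℂ (fun z : ℂ => ((z, 0) : ℂ × ℂ)) := by fun_prop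
  exact (differentiable_F2 hK (ell σ) 0).comp h2

lemma fT_zero (K : Set (V d × ℝ)) (σ : V d) : fT K σ 0 = ((volume K).toReal : ℂ) := by
  unfold fT
  simp [Measure.real]

lemma fT_conj (K : Set (V d × ℝ)) (σ : V d) (z : ℂ) :
    fT K σ (-(starRingEnd ℂ z)) = starRingEnd ℂ (fT K σ z) := by
  unfold fT
  rw [← integral_conj]
  congr 1
  ext p
  rw [← Complex.exp_conj]
  congr 1
  simp

lemma volume_pos_of_isBody {K : Set (V d × ℝ)} (hK : IsBody K) : 0 < (volume K).toReal := by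
  apply ENNReal.toReal_pos
  · have h1 : 0 < volume (interior K) :=
      isOpen_interior.measure_pos _ hK.interior_nonempty
    exact (lt_of_lt_of_le h1 (measure_mono interior_subset)).ne'
  · exact hK.compact.measure_lt_top.ne

lemma bddAbove_suppP {K : Set (V d × ℝ)} (hK : IsCompact K) (u : V d × ℝ) :
    BddAbove ((fun p : V d × ℝ => inner ℝ u.1 p.1 + u.2 * p.2) '' K) := by
  apply IsCompact.bddAbove
  apply hK.image
  fun_prop

lemma le_Hup {K : Set (V d × ℝ)} (hK : IsCompact K) (σ : V d) {p : V d × ℝ} (hp : p ∈ K) :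
    inner ℝ σ p.1 + p.2 ≤ Hup K σ := by
  unfold Hup suppP
  apply le_csSup (bddAbove_suppP hK (σ, 1))
  exact ⟨p, hp, by simp⟩

lemma le_Hdn {K : Set (V d × ℝ)} (hK : IsCompact K) (σ : V d) {p : V d × ℝ} (hp : p ∈ K) :
    -(inner ℝ σ p.1 + p.2) ≤ Hdn K σ := by
  unfold Hdn suppP
  apply le_csSup (bddAbove_suppP hK (-σ, -1))
  refine ⟨p, hp, ?_⟩
  simp only [inner_neg_left]
  ring

lemma fT_growth {K : Set (V d × ℝ)} (hK : IsCompact K) (σ : V d) (z : ℂ) :
    ‖fT K σ z‖ ≤ ‖fT K σ 0‖ * Real.exp (growA (Hup K σ) (Hdn K σ) z) := by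
  rw [fT_zero, Complex.norm_real, Real.norm_eq_abs, abs_of_nonneg ENNReal.toReal_nonneg]
  unfold fT
  have : ‖∫ p in K, Complex.exp (-Complex.I * z * ((inner ℝ σ p.1 + p.2 : ℝ) : ℂ))‖ ≤
      Real.exp (growA (Hup K σ) (Hdn K σ) z) * (volume K).toReal := by
    apply norm_setIntegral_le_of_norm_le_const hK.measure_lt_top
    intro p hp
    rw [Complex.norm_exp]
    apply Real.exp_le_exp.2
    have h1 : (-Complex.I * z * ((inner ℝ σ p.1 + p.2 : ℝ) : ℂ)).re =
        z.im * (inner ℝ σ p.1 + p.2) := by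
      simp
    rw [h1]
    have h2 := le_Hup hK σ hp
    have h3 := le_Hdn hK σ hp
    unfold growA
    rcases le_total 0 z.im with h | h
    · rw [max_eq_left h, max_eq_right (by linarith)]
      nlinarith
    · rw [max_eq_right h, max_eq_left (by linarith)]
      nlinarith
  linarith

lemma continuous_ell_apply : Continuous (fun q : V d × (V d × ℝ) => inner ℝ q.1 q.2.1 + q.2.2) := by
  fun_prop

/-- Symmetry and positivity of the Hessian matrix. -/
lemma hess_posDef {f : V d → ℝ} (hf : PosC2 f) (σ : V d) : (hess f σ).PosDef := by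
  have hsymm : IsSymmSndFDerivAt ℝ f σ :=
    hf.1.contDiffAt.isSymmSndFDerivAt (by simp)
  apply Matrix.PosDef.of_dotProduct_mulVec_pos
  · ext i j
    simp only [hess, Matrix.conjTranspose_apply, Matrix.of_apply, star_trivial]
    exact hsymm _ _
  · intro x hx
    have h1 : (WithLp.toLp 2 x : V d) ≠ 0 := by
      intro h
      apply hx
      have := congrArg WithLp.ofLp h
      simpa using this
    have h2 := hf.2 σ _ h1
    have h3 : (WithLp.toLp 2 x : V d) = ∑ i, x i • (EuclideanSpace.single i (1 : ℝ) : V d) := by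
      ext j
      simp [Finset.sum_apply, Pi.single_apply]
    rw [h3] at h2
    simp only [map_sum, map_smul, FunLike.coe_sum, Finset.sum_apply,
      FunLike.coe_smul, Pi.smul_apply, smul_eq_mul] at h2
    simp only [dotProduct, Matrix.mulVec, star_trivial, Pi.star_apply]
    refine lt_of_lt_of_eq h2 ?_
    apply Finset.sum_congr rfl
    intro i _
    congr 1
    apply Finset.sum_congr rfl
    intro j _
    have h4 := hsymm (EuclideanSpace.single j (1 : ℝ)) (EuclideanSpace.single i (1 : ℝ))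
    rw [h4, mul_comm]
    rfl

end Pool.Agent.Helper77.Cov
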