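import Mathlib

/-!
# Definitions used in the statement of the covariogram theorem
-/

open MeasureTheory Set
open scoped Gradient RealInnerProductSpace

namespace Pool.Agent.Helper77.Covariogram

/-- The covariogram `g_K(x) = vol_n (K ∩ (K + x))` of a set `K` in Euclidean space. -/
noncomputable def covariogram {n : ℕ} (K : Set (EuclideanSpace ℝ (Fin n)))
    (x : EuclideanSpace ℝ (Fin n)) : ℝ :=
  (volume (K ∩ ((fun y => y + x) '' K))).toReal

/-- The second fundamental form at `x` of the level hypersurface of `ρ` through `x`, with respect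
to the unit normal `∇ρ / ‖∇ρ‖`: `II(v, w) = D_v D_w ρ (x) / ‖∇ρ(x)‖` for tangent vectors `v`, `w`,
that is, for vectors orthogonal to `∇ρ(x)`. -/
noncomputable def secondForm {n : ℕ} (ρ : EuclideanSpace ℝ (Fin n) → ℝ)
    (x v w : EuclideanSpace ℝ (Fin n)) : ℝ :=
  lineDeriv ℝ (fun y => lineDeriv ℝ ρ y w) x v / ‖∇ ρ x‖

/-- The Gauss curvature at `x` of the level hypersurface of `ρ` through `x`, computed in an
orthonormal basis `b` of the tangent space: the determinant of the matrix `II(b i, b j)`, that is,
the product of the principal curvatures. -/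
noncomputable def gaussCurvature {n m : ℕ} (ρ : EuclideanSpace ℝ (Fin n) → ℝ)
    (x : EuclideanSpace ℝ (Fin n)) (b : Fin m → EuclideanSpace ℝ (Fin n)) : ℝ :=
  (Matrix.of fun i j => secondForm ρ x (b i) (b j)).det

/-- Convex bodies of class `C²₊`: compact convex sets with non-empty interior whose boundary is
a `C²` hypersurface with strictly positive Gauss curvature. Near each boundary point `x` the body
is the sublevel set `{ρ ≤ 0}` of a `C²` function `ρ` with `∇ρ(x) ≠ 0`, and the Gauss curvature of
the hypersurface `{ρ = 0}` at `x`, computed in an orthonormal basis `b` of the tangent space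
at `x` (the orthogonal complement of `∇ρ(x)`, of dimension `n - 1`), is strictly positive. -/
structure IsC2PlusBody {n : ℕ} (K : Set (EuclideanSpace ℝ (Fin n))) : Prop where
  isCompact : IsCompact K
  convex : Convex ℝ K
  interior_nonempty : (interior K).Nonempty
  boundary : ∀ x ∈ frontier K, ∃ (U : Set (EuclideanSpace ℝ (Fin n)))
    (ρ : EuclideanSpace ℝ (Fin n) → ℝ), IsOpen U ∧ x ∈ U ∧ ContDiffOn ℝ 2 ρ U ∧
      K ∩ U = {y ∈ U | ρ y ≤ 0} ∧ ∇ ρ x ≠ 0 ∧
      ∃ b : Fin (n - 1) → EuclideanSpace ℝ (Fin n),
        Orthonormal ℝ b ∧ (∀ i, ⟪∇ ρ x, b i⟫ = 0) ∧ 0 < gaussCurvature ρ x b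

end Pool.Agent.Helper77.Covariogram
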