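import Pool.Agent.Helper77.Cov.NoMix2

/-!
# The covariogram and the Fourier transform
-/

open Metric Set MeasureTheory Complex Filter Topology
open scoped Convolution

namespace Pool.Agent.Helper77.Cov

/-- The covariogram (extended nonnegative real valued). -/
noncomputable def gE {n : ℕ} (K : Set (V n)) (x : V n) : ENNReal :=
  volume (K ∩ ((fun y => y + x) '' K))

/-- The Fourier transform on `V n`. -/
noncomputable def FV {n : ℕ} (K : Set (V n)) (L : V n →L[ℝ] ℂ) : ℂ :=
  ∫ p in K, Complex.exp (-Complex.I * L p)

lemma mem_image_add {n : ℕ} {K : Set (V n)} {x y : V n} :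
    y ∈ (fun y => y + x) '' K ↔ y - x ∈ K := by
  constructor
  · rintro ⟨z, hz, rfl⟩
    simpa using hz
  · intro h
    exact ⟨y - x, h, by simp⟩

/-- The Fourier identity for the covariogram. -/
theorem FV_mul {n : ℕ} {K : Set (V n)} (hK : IsCompact K) (L : V n →L[ℝ] ℂ) :
    FV K L * FV K (-L) = ∫ x, ((gE K x).toReal : ℂ) * Complex.exp (-Complex.I * L x) := by
  set f : V n → ℂ := K.indicator (fun p => Complex.exp (-Complex.I * L p)) with hf
  set g : V n → ℂ := fun w => K.indicator (fun p => Complex.exp (Complex.I * L p)) (-w) with hg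
  have hcont1 : Continuous (fun p => Complex.exp (-Complex.I * L p)) := by fun_prop
  have hcont2 : Continuous (fun p => Complex.exp (Complex.I * L p)) := by fun_prop
  have hfi : Integrable f := by
    rw [hf, integrable_indicator_iff hK.measurableSet]
    exact hcont1.continuousOn.integrableOn_compact hK
  have hgi0 : Integrable (K.indicator (fun p => Complex.exp (Complex.I * L p))) := by
    rw [integrable_indicator_iff hK.measurableSet]
    exact hcont2.continuousOn.integrableOn_compact hK
  have hgi : Integrable g := hgi0.comp_neg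
  have h1 := integral_convolution (ContinuousLinearMap.mul ℝ ℂ) hfi hgi
  have h2 : ∫ x, f x = FV K L := by
    rw [hf, integral_indicator hK.measurableSet, FV]
  have h3 : ∫ x, g x = FV K (-L) := by
    rw [hg, integral_neg_eq_self (fun w => K.indicator (fun p => Complex.exp (Complex.I * L p)) w),
      integral_indicator hK.measurableSet, FV]
    congr 1
    ext p
    rw [_root_.neg_apply]
    ring_nf
  rw [h2, h3, ContinuousLinearMap.mul_apply'] at h1
  rw [← h1]
  congr 1
  ext x
  rw [convolution_def]
  have h4 : ∀ t, (ContinuousLinearMap.mul ℝ ℂ) (f t) (g (x - t)) =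
      (K ∩ ((fun y => y + x) '' K)).indicator
        (fun _ => Complex.exp (-Complex.I * L x)) t := by
    intro t
    rw [ContinuousLinearMap.mul_apply']
    by_cases ht : t ∈ K
    · by_cases ht' : t - x ∈ K
      · have hmem : t ∈ K ∩ ((fun y => y + x) '' K) := And.intro ht (mem_image_add.2 ht')
        rw [indicator_of_mem hmem]
        simp only [hf, hg]
        rw [indicator_of_mem ht, neg_sub, indicator_of_mem ht', ← Complex.exp_add]
        congr 1
        rw [map_sub]
        ring
      · have hmem : t ∉ K ∩ ((fun y => y + x) '' K) := fun h => ht' (mem_image_add.1 h.2)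
        rw [indicator_of_notMem hmem]
        simp only [hg]
        rw [neg_sub, indicator_of_notMem ht', mul_zero]
    · have hmem : t ∉ K ∩ ((fun y => y + x) '' K) := fun h => ht h.1
      rw [indicator_of_notMem hmem]
      simp only [hf]
      rw [indicator_of_notMem ht, zero_mul]
  simp only [h4]
  have hmeas : MeasurableSet (K ∩ ((fun y => y + x) '' K)) :=
    hK.measurableSet.inter (hK.image (by fun_prop)).measurableSet
  rw [integral_indicator hmeas, setIntegral_const, gE, Measure.real, Complex.real_smul]

lemma FV_mul_eq {n : ℕ} {K H : Set (V n)} (hK : IsCompact K) (hH : IsCompact H)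
    (h : ∀ x, gE K x = gE H x) (L : V n →L[ℝ] ℂ) :
    FV K L * FV K (-L) = FV H L * FV H (-L) := by
  rw [FV_mul hK, FV_mul hH]
  simp only [h]

/-- Support function facts. -/
lemma bddAbove_supp {n : ℕ} {K : Set (V n)} (hK : IsCompact K) (u : V n) :
    BddAbove ((fun x => inner ℝ u x) '' K) := by
  apply IsCompact.bddAbove
  apply hK.image
  fun_prop

lemma le_supp {n : ℕ} {K : Set (V n)} (hK : IsCompact K) {u x : V n} (hx : x ∈ K) :
    inner ℝ u x ≤ supp K u :=
  le_csSup (bddAbove_supp hK u) ⟨x, hx, rfl⟩

lemma exists_interior_approx {n : ℕ} {K : Set (V n)} (hK : IsBody K) (u : V n) {ε : ℝ}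
    (hε : 0 < ε) : ∃ x ∈ interior K, supp K u - ε < inner ℝ u x := by
  have hne : K.Nonempty := hK.interior_nonempty.mono interior_subset
  obtain ⟨x, hx, hxu⟩ := hK.compact.exists_sSup_image_eq hne
    (f := fun x => inner ℝ u x) (by fun_prop)
  have hcl : x ∈ closure (interior K) := by
    rw [hK.convex.closure_interior_eq_closure_of_nonempty_interior hK.interior_nonempty]
    exact subset_closure hx
  have hU : IsOpen {y : V n | supp K u - ε < inner ℝ u y} := by
    apply isOpen_lt continuous_const
    fun_prop
  have hxU : x ∈ {y : V n | supp K u - ε < inner ℝ u y} := by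
    simp only [mem_ofPred_eq]
    have : supp K u = inner ℝ u x := hxu
    rw [this]
    linarith
  obtain ⟨y, hyU, hy⟩ := mem_closure_iff.1 hcl _ hU hxU
  exact ⟨y, hy, hyU⟩

/-- The width in terms of the support of the covariogram. -/
lemma width_eq {n : ℕ} {K : Set (V n)} (hK : IsBody K) (u : V n) :
    supp K u + supp K (-u) = sSup ((fun x => inner ℝ u x) '' {x : V n | gE K x ≠ 0}) := by
  apply (IsLUB.csSup_eq _ _).symm
  · constructor
    · rintro _ ⟨x, hx, rfl⟩
      have h1 : (K ∩ ((fun y => y + x) '' K)).Nonempty := by
        by_contra h2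
        rw [not_nonempty_iff_eq_empty] at h2
        apply hx
        rw [gE, h2, measure_empty]
      obtain ⟨y, hy, hy'⟩ := h1
      rw [mem_image_add] at hy'
      have h2 := le_supp hK.compact (u := u) hy
      have h3 := le_supp hK.compact (u := -u) hy'
      simp only
      have h4 : x = y - (y - x) := by abel
      rw [h4, inner_sub_right]
      rw [inner_neg_left] at h3
      linarith
    · intro b hb
      by_contra hlt
      push Not at hlt
      obtain ⟨ε, hε, hε2⟩ : ∃ ε : ℝ, 0 < ε ∧ 2 * ε ≤ supp K u + supp K (-u) - b :=
        ⟨(supp K u + supp K (-u) - b) / 2, by linarith, by linarith⟩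
      obtain ⟨p, hp, hpu⟩ := exists_interior_approx hK u hε
      obtain ⟨q, hq, hqu⟩ := exists_interior_approx hK (-u) hε
      have hmem : p - q ∈ {x : V n | gE K x ≠ 0} := by
        simp only [mem_ofPred_eq, gE]
        have h1 : (interior K ∩ ((fun y => y + (p - q)) '' interior K)).Nonempty :=
          ⟨p, hp, ⟨q, hq, by simp⟩⟩
        have h2 : IsOpen (interior K ∩ ((fun y => y + (p - q)) '' interior K)) := by
          apply isOpen_interior.inter
          exact (Homeomorph.addRight (p - q)).isOpenMap _ isOpen_interior
        have h3 := h2.measure_pos volume h1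
        apply (h3.trans_le (measure_mono _)).ne'
        exact inter_subset_inter interior_subset (image_mono interior_subset)
      have h1 := hb ⟨p - q, hmem, rfl⟩
      simp only [inner_sub_right] at h1
      rw [inner_neg_left] at hqu
      linarith
  · obtain ⟨p, hp⟩ := hK.interior_nonempty
    refine ⟨_, 0, ?_, rfl⟩
    simp only [mem_ofPred_eq, gE]
    have h1 : (fun y : V n => y + 0) '' K = K := by simp
    rw [h1, inter_self]
    exact ((isOpen_interior.measure_pos volume ⟨p, hp⟩).trans_le
      (measure_mono interior_subset)).ne'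

lemma width_eq_of_gE {n : ℕ} {K H : Set (V n)} (hK : IsBody K) (hH : IsBody H)
    (h : ∀ x, gE K x = gE H x) (u : V n) :
    supp K u + supp K (-u) = supp H u + supp H (-u) := by
  rw [width_eq hK, width_eq hH]
  simp only [h]

/-- The support function determines a compact convex set. -/
lemma subset_of_supp_le {n : ℕ} {K H : Set (V n)} (hK : IsCompact K) (hH : IsCompact H)
    (hHc : Convex ℝ H) (hne : H.Nonempty) (h : ∀ u, supp K u ≤ supp H u) : K ⊆ H := by
  intro x hx
  by_contra hxH
  obtain ⟨f, u, hu1, hu2⟩ := geometric_hahn_banach_closed_point hHc hH.isClosed hxH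
  obtain ⟨v, hv⟩ := (InnerProductSpace.toDual ℝ (V n)).surjective f
  have h1 : ∀ y, f y = inner ℝ v y := by
    intro y
    rw [← hv, InnerProductSpace.toDual_apply_apply]
  have h2 : supp H v ≤ u := by
    unfold supp
    apply csSup_le (hne.image _)
    rintro _ ⟨y, hy, rfl⟩
    simp only
    rw [← h1]
    exact (hu1 y hy).le
  have h3 := le_supp hK (u := v) hx
  rw [← h1] at h3
  linarith [h v]

lemma eq_of_supp_eq {n : ℕ} {K H : Set (V n)} (hK : IsBody K) (hH : IsBody H)
    (h : ∀ u, supp K u = supp H u) : K = H :=
  Subset.antisymm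
    (subset_of_supp_le hK.compact hH.compact hH.convex
      (hH.interior_nonempty.mono interior_subset) fun u => (h u).le)
    (subset_of_supp_le hH.compact hK.compact hK.convex
      (hK.interior_nonempty.mono interior_subset) fun u => (h u).ge)

end Pool.Agent.Helper77.Cov
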