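import Pool.Agent.Helper77.Cov.CovDefs
import Pool.Agent.Helper77.Cov.Defs

/-!
# Positive Gauss curvature implies a positive definite second fundamental form
-/

open MeasureTheory Set Filter Topology
open scoped Gradient RealInnerProductSpace

namespace Pool.Agent.Helper77.Cov

open Pool.Agent.Helper77.Covariogram

/-- Convexity gives a positive semidefinite second fundamental form. -/
lemma second_form_nonneg {n : ℕ} {K U : Set (V n)} {ρ : V n → ℝ} {x v : V n}
    (hKc : Convex ℝ K) (hU : IsOpen U) (hxU : x ∈ U) (hρ : ContDiffOn ℝ 2 ρ U)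
    (hKU : K ∩ U = {y ∈ U | ρ y ≤ 0}) (hx0 : ρ x = 0) (hdx : fderiv ℝ ρ x ≠ 0)
    (hv : fderiv ℝ ρ x v = 0) : 0 ≤ fderiv ℝ (fderiv ℝ ρ) x v v := by
  by_contra hneg
  push Not at hneg
  -- a direction in which `ρ` increases
  obtain ⟨g, hg⟩ : ∃ g, 0 < fderiv ℝ ρ x g := by
    obtain ⟨w, hw⟩ : ∃ w, fderiv ℝ ρ x w ≠ 0 := by
      by_contra h
      push Not at h
      exact hdx (ContinuousLinearMap.ext h)
    rcases lt_or_gt_of_ne hw with h | h
    · exact ⟨-w, by rw [map_neg]; linarith⟩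
    · exact ⟨w, h⟩
  obtain ⟨c, hc0, hc⟩ : ∃ c : ℝ, 0 < c ∧
      fderiv ℝ (fderiv ℝ ρ) x v v + 2 * c * fderiv ℝ ρ x g < 0 := by
    refine ⟨-(fderiv ℝ (fderiv ℝ ρ) x v v) / (4 * fderiv ℝ ρ x g), by
      apply div_pos <;> linarith, ?_⟩
    have : 2 * (-(fderiv ℝ (fderiv ℝ ρ) x v v) / (4 * fderiv ℝ ρ x g)) * fderiv ℝ ρ x g =
        -(fderiv ℝ (fderiv ℝ ρ) x v v) / 2 := by
      field_simp
      ring
    rw [this]
    linarith
  have hρat : ∀ y ∈ U, ContDiffAt ℝ 2 ρ y := fun y hy => hρ.contDiffAt (hU.mem_nhds hy)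
  set γ : ℝ → V n := fun t => x + t • v + (c * t ^ 2) • g with hγ
  have hγd : ∀ t, HasDerivAt γ (v + (2 * c * t) • g) t := by
    intro t
    have h1 : HasDerivAt (fun t : ℝ => x + t • v) v t := by
      simpa using ((hasDerivAt_id t).smul_const v).const_add x
    have h2 : HasDerivAt (fun t : ℝ => c * t ^ 2) (2 * c * t) t := by
      have := ((hasDerivAt_pow 2 t).const_mul c)
      refine this.congr_deriv ?_
      push_cast
      ring
    exact h1.add (h2.smul_const g)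
  have hγc : Continuous γ := by fun_prop
  have hγ0 : γ 0 = x := by simp [hγ]
  have hev : ∀ᶠ t in 𝓝 (0 : ℝ), γ t ∈ U := by
    apply hγc.continuousAt.eventually
    rw [hγ0]
    exact hU.mem_nhds hxU
  set φ : ℝ → ℝ := fun t => ρ (γ t) with hφ
  have hφd : ∀ t, γ t ∈ U → HasDerivAt φ (fderiv ℝ ρ (γ t) (v + (2 * c * t) • g)) t := by
    intro t ht
    have h1 := ((hρat _ ht).differentiableAt (by norm_num)).hasFDerivAt
    exact h1.comp_hasDerivAt t (hγd t)
  have hderiv : deriv φ =ᶠ[𝓝 0] fun t => fderiv ℝ ρ (γ t) (v + (2 * c * t) • g) := by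
    filter_upwards [hev] with t ht
    exact (hφd t ht).deriv
  have hd2 : HasDerivAt (fun t => fderiv ℝ ρ (γ t) (v + (2 * c * t) • g))
      (fderiv ℝ (fderiv ℝ ρ) x v v + 2 * c * fderiv ℝ ρ x g) 0 := by
    have h1 : HasDerivAt (fun t => fderiv ℝ ρ (γ t)) (fderiv ℝ (fderiv ℝ ρ) x v) 0 := by
      have h2 : HasFDerivAt (fderiv ℝ ρ) (fderiv ℝ (fderiv ℝ ρ) x) (γ 0) := by
        rw [hγ0]
        exact (((hρat x hxU).fderiv_right (m := 1) (by norm_num)).differentiableAt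
          (by norm_num)).hasFDerivAt
      have h3 := h2.comp_hasDerivAt 0 (hγd 0)
      have h4 : v + (2 * c * 0) • g = v := by simp
      rw [h4] at h3
      exact h3
    have h2 : HasDerivAt (fun t : ℝ => v + (2 * c * t) • g) ((2 * c) • g) 0 := by
      have h3 : HasDerivAt (fun t : ℝ => 2 * c * t) (2 * c) 0 := by
        simpa using (hasDerivAt_id (0 : ℝ)).const_mul (2 * c)
      simpa using (h3.smul_const g).const_add v
    have h3 := h1.clm_apply h2
    refine h3.congr_deriv ?_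
    simp [hγ0]
  have hφ2 : deriv (deriv φ) 0 < 0 := by
    rw [hderiv.deriv_eq, hd2.deriv]
    exact hc
  have hφ1 : deriv φ 0 = 0 := by
    rw [hderiv.eq_of_nhds, hγ0]
    simpa using hv
  have hφc : ContinuousAt φ 0 := (hφd 0 (by rw [hγ0]; exact hxU)).continuousAt
  have hmax := isLocalMax_of_deriv_deriv_neg hφ2 hφ1 hφc
  have hmax' : ∀ᶠ t in 𝓝 (0 : ℝ), φ t ≤ 0 := by
    have h0 : φ 0 = 0 := by simp only [hφ, hγ0, hx0]
    filter_upwards [hmax] with t ht
    rw [h0] at ht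
    exact ht
  have hK : ∀ᶠ t in 𝓝 (0 : ℝ), γ t ∈ K := by
    filter_upwards [hmax', hev] with t h1 h2
    have : γ t ∈ K ∩ U := by
      rw [hKU]
      exact And.intro h2 h1
    exact this.1
  have hneg0 : Tendsto (fun t : ℝ => -t) (𝓝 0) (𝓝 0) := by
    simpa using (continuous_neg (G := ℝ)).tendsto 0
  -- the midpoints
  set δ : ℝ → V n := fun s => x + s • g with hδ
  have hδ0 : δ 0 = x := by simp [hδ]
  have hmid : ∀ᶠ t in 𝓝 (0 : ℝ), δ (c * t ^ 2) ∈ K := by
    filter_upwards [hK, hneg0.eventually hK] with t h1 h2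
    have h3 := hKc h1 h2 (by norm_num : (0 : ℝ) ≤ 1 / 2) (by norm_num : (0 : ℝ) ≤ 1 / 2)
      (by norm_num)
    have h4 : (1 / 2 : ℝ) • γ t + (1 / 2 : ℝ) • γ (-t) = δ (c * t ^ 2) := by
      simp only [hγ, hδ]
      module
    rw [h4] at h3
    exact h3
  have hψd : HasDerivAt (fun s => ρ (δ s)) (fderiv ℝ ρ x g) 0 := by
    have h1 : HasDerivAt δ g 0 :=
      (((hasDerivAt_id (0 : ℝ)).smul_const g).const_add x).congr_deriv (one_smul _ _)
    have h2 : HasFDerivAt ρ (fderiv ℝ ρ x) (δ 0) := by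
      rw [hδ0]
      exact ((hρat x hxU).differentiableAt (by norm_num)).hasFDerivAt
    exact h2.comp_hasDerivAt 0 h1
  have hpos : ∀ᶠ s in 𝓝[>] (0 : ℝ), 0 < ρ (δ s) := by
    have h1 := hψd.hasDerivWithinAt (s := Ioi 0)
    rw [hasDerivWithinAt_iff_tendsto_slope] at h1
    have h2 : Ioi (0 : ℝ) \ {0} = Ioi 0 := by
      ext s
      simp only [Set.mem_sdiff, mem_Ioi, mem_singleton_iff]
      constructor
      · exact fun h => h.1
      · exact fun h => ⟨h, h.ne'⟩
    rw [h2] at h1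
    filter_upwards [h1.eventually (lt_mem_nhds hg), self_mem_nhdsWithin] with s hs hs0
    have hs0' : (0 : ℝ) < s := hs0
    rw [slope_def_field] at hs
    simp only [hδ0, hx0, sub_zero] at hs
    rwa [div_pos_iff_of_pos_right hs0'] at hs
  have ht : Tendsto (fun t : ℝ => c * t ^ 2) (𝓝[>] 0) (𝓝[>] 0) := by
    rw [tendsto_nhdsWithin_iff]
    constructor
    · have : Tendsto (fun t : ℝ => c * t ^ 2) (𝓝 0) (𝓝 (c * 0 ^ 2)) :=
        (Continuous.tendsto (by fun_prop) 0)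
      simp only [ne_eq, OfNat.ofNat_ne_zero, not_false_eq_true, zero_pow, mul_zero] at this
      exact this.mono_left nhdsWithin_le_nhds
    · filter_upwards [self_mem_nhdsWithin] with t ht
      have ht0 : (0 : ℝ) < t := ht
      exact mem_Ioi.2 (by positivity)
  have hδU : ∀ᶠ s in 𝓝 (0 : ℝ), δ s ∈ U := by
    have hδc : Continuous δ := by fun_prop
    apply hδc.continuousAt.eventually
    rw [hδ0]
    exact hU.mem_nhds hxU
  obtain ⟨t, h1, h2, h3⟩ := ((hmid.filter_mono nhdsWithin_le_nhds).and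
    ((ht.eventually hpos).and (ht.eventually (hδU.filter_mono nhdsWithin_le_nhds)))).exists
  have h4 : δ (c * t ^ 2) ∈ K ∩ U := ⟨h1, h3⟩
  rw [hKU] at h4
  have h5 : ρ (δ (c * t ^ 2)) ≤ 0 := h4.2
  linarith

/-- The second derivatives in terms of iterated directional derivatives. -/
lemma lineDeriv_lineDeriv {n : ℕ} {U : Set (V n)} {ρ : V n → ℝ} {x : V n} (hU : IsOpen U)
    (hxU : x ∈ U) (hρ : ContDiffOn ℝ 2 ρ U) (v w : V n) :
    lineDeriv ℝ (fun y => lineDeriv ℝ ρ y w) x v = fderiv ℝ (fderiv ℝ ρ) x v w := by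
  have h1 : (fun y => lineDeriv ℝ ρ y w) =ᶠ[𝓝 x] fun y => fderiv ℝ ρ y w := by
    filter_upwards [hU.mem_nhds hxU] with y hy
    have h2 : DifferentiableAt ℝ ρ y :=
      (hρ.contDiffAt (hU.mem_nhds hy)).differentiableAt (by norm_num)
    exact h2.lineDeriv_eq_fderiv
  rw [h1.lineDeriv_eq]
  have hd1 : DifferentiableAt ℝ (fderiv ℝ ρ) x :=
    ((hρ.contDiffAt (hU.mem_nhds hxU)).fderiv_right (m := 1) (by norm_num)).differentiableAt
      (by norm_num)
  have h3 : HasFDerivAt (fun y => ContinuousLinearMap.apply ℝ ℝ w (fderiv ℝ ρ y))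
      ((ContinuousLinearMap.apply ℝ ℝ w).comp (fderiv ℝ (fderiv ℝ ρ) x)) x :=
    (ContinuousLinearMap.apply ℝ ℝ w).hasFDerivAt.comp x hd1.hasFDerivAt
  have h4 : HasFDerivAt (fun y => fderiv ℝ ρ y w)
      ((ContinuousLinearMap.apply ℝ ℝ w).comp (fderiv ℝ (fderiv ℝ ρ) x)) x := h3
  rw [h4.differentiableAt.lineDeriv_eq_fderiv, h4.fderiv]
  rfl

/-- An orthonormal family of `n - 1` tangent vectors spans the tangent space. -/
lemma mem_span_frame {n : ℕ} (hn : 1 ≤ n) {g : V n} (hg : g ≠ 0) {b : Fin (n - 1) → V n}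
    (hb : Orthonormal ℝ b) (hbg : ∀ i, ⟪g, b i⟫ = 0) {v : V n} (hv : ⟪g, v⟫ = 0) :
    v ∈ Submodule.span ℝ (range b) := by
  have hfact : Fact (Module.finrank ℝ (V n) = (n - 1) + 1) :=
    ⟨by rw [finrank_euclideanSpace_fin]; omega⟩
  have h1 : Submodule.span ℝ (range b) ≤ (Submodule.span ℝ {g})ᗮ := by
    rw [Submodule.span_le]
    rintro _ ⟨i, rfl⟩
    simp only [SetLike.mem_coe]
    rw [Submodule.mem_orthogonal_singleton_iff_inner_right]
    exact hbg i
  have h2 : Module.finrank ℝ (Submodule.span ℝ (range b)) =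
      Module.finrank ℝ ((Submodule.span ℝ {g})ᗮ : Submodule ℝ (V n)) := by
    rw [finrank_span_eq_card hb.linearIndependent,
      Submodule.finrank_orthogonal_span_singleton (n := n - 1) hg, Fintype.card_fin]
  rw [Submodule.eq_of_le_of_finrank_eq h1 h2, Submodule.mem_orthogonal_singleton_iff_inner_right]
  exact hv

/-- A positive semidefinite second fundamental form with non-zero Gauss curvature is positive
definite. -/
lemma second_form_pos {n : ℕ} (hn : 1 ≤ n) {U : Set (V n)} {ρ : V n → ℝ} {x : V n}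
    (hU : IsOpen U) (hxU : x ∈ U) (hρ : ContDiffOn ℝ 2 ρ U)
    (hnn : ∀ v, fderiv ℝ ρ x v = 0 → 0 ≤ fderiv ℝ (fderiv ℝ ρ) x v v)
    (hgx : ∇ ρ x ≠ 0) {b : Fin (n - 1) → V n} (hb : Orthonormal ℝ b)
    (hbg : ∀ i, ⟪∇ ρ x, b i⟫ = 0)
    (hG : gaussCurvature ρ x b ≠ 0) {v : V n} (hv0 : v ≠ 0) (hv : fderiv ℝ ρ x v = 0) :
    0 < fderiv ℝ (fderiv ℝ ρ) x v v := by
  have hρx : ContDiffAt ℝ 2 ρ x := hρ.contDiffAt (hU.mem_nhds hxU)
  have hsymm : IsSymmSndFDerivAt ℝ ρ x := hρx.isSymmSndFDerivAt (by simp)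
  set B := fderiv ℝ (fderiv ℝ ρ) x with hB
  refine lt_of_le_of_ne (hnn v hv) (fun h0 => ?_)
  -- the form vanishes on `v`
  have hBv : ∀ w, fderiv ℝ ρ x w = 0 → B v w = 0 := by
    intro w hw
    by_contra hne
    set b := B v w with hb
    set q := B w w with hq
    have hq0 : 0 ≤ q := hnn w hw
    have h1 := hnn (v + (-b / (q + 1)) • w) (by rw [map_add, map_smul, hv, hw]; simp)
    have h2 : B (v + (-b / (q + 1)) • w) (v + (-b / (q + 1)) • w) =
        B v v + 2 * (-b / (q + 1)) * b + (-b / (q + 1)) ^ 2 * q := by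
      have h3 : B w v = b := hsymm w v
      simp only [map_add, map_smul, _root_.add_apply, _root_.smul_apply, smul_eq_mul, h3]
      rw [← hb, ← hq]
      ring
    rw [h2, ← h0] at h1
    have h3 : 0 + 2 * (-b / (q + 1)) * b + (-b / (q + 1)) ^ 2 * q =
        -(b ^ 2 * (q + 2)) / (q + 1) ^ 2 := by
      field_simp
      ring
    rw [h3] at h1
    have h4 : 0 < b ^ 2 := by positivity
    have h5 : -(b ^ 2 * (q + 2)) / (q + 1) ^ 2 < 0 := by
      apply div_neg_of_neg_of_pos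
      · nlinarith
      · positivity
    linarith
  have hgrad : ∀ w : V n, ⟪∇ ρ x, w⟫ = fderiv ℝ ρ x w := fun w => inner_gradient_left
  obtain ⟨c, hc⟩ := (Submodule.mem_span_range_iff_exists_fun ℝ).1
    (mem_span_frame hn hgx hb hbg (v := v) (by rw [hgrad]; exact hv))
  set M : Matrix (Fin (n - 1)) (Fin (n - 1)) ℝ :=
    Matrix.of fun i j => secondForm ρ x (b i) (b j) with hM
  have hMdet : M.det ≠ 0 := hG
  have hcM : Matrix.vecMul c M = 0 := by
    ext j
    simp only [Matrix.vecMul, dotProduct, hM, Matrix.of_apply, secondForm, Pi.zero_apply]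
    have h1 : ∑ i, c i * (lineDeriv ℝ (fun y => lineDeriv ℝ ρ y (b j)) x (b i) / ‖∇ ρ x‖) =
        B v (b j) / ‖∇ ρ x‖ := by
      rw [← hc, map_sum, FunLike.coe_sum, Finset.sum_apply, Finset.sum_div]
      apply Finset.sum_congr rfl
      intro i _
      rw [lineDeriv_lineDeriv hU hxU hρ, map_smul, _root_.smul_apply, smul_eq_mul, mul_div_assoc]
    rw [h1, hBv (b j) (by rw [← hgrad]; exact hbg j), zero_div]
  have hc0 : c = 0 := Matrix.eq_zero_of_vecMul_eq_zero hMdet hcM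
  apply hv0
  rw [← hc, hc0]
  simp

theorem IsC2PlusBody_isBody {n : ℕ} {K : Set (V n)} (h : IsC2PlusBody K) : IsBody K :=
  ⟨h.isCompact, h.convex, h.interior_nonempty⟩

theorem IsC2PlusBody_ckPlus {n : ℕ} (hn : 1 ≤ n) {K : Set (V n)} (h : IsC2PlusBody K) :
    CkPlus 2 K := by
  intro x hx
  obtain ⟨U, ρ, hU, hxU, hρ, hKU, hgx, b, hb, hbg, hG⟩ := h.boundary x hx
  have hdx : fderiv ℝ ρ x ≠ 0 := by
    intro h0
    apply hgx
    have h1 : ∇ ρ x = (InnerProductSpace.toDual ℝ (V n)).symm (fderiv ℝ ρ x) := rfl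
    rw [h1, h0, map_zero]
  have hxK : x ∈ K := h.isCompact.isClosed.frontier_subset hx
  have hx0 : ρ x = 0 := by
    have h1 : x ∈ K ∩ U := ⟨hxK, hxU⟩
    rw [hKU] at h1
    have h2 : ρ x ≤ 0 := h1.2
    by_contra hne
    have h3 : ρ x < 0 := lt_of_le_of_ne h2 hne
    have h4 : ∀ᶠ y in 𝓝 x, y ∈ K := by
      have h5 : ContinuousAt ρ x := (hρ.contDiffAt (hU.mem_nhds hxU)).continuousAt
      filter_upwards [h5.eventually (gt_mem_nhds h3), hU.mem_nhds hxU] with y hy hyU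
      have h6 : y ∈ K ∩ U := by
        rw [hKU]
        exact And.intro hyU hy.le
      exact h6.1
    exact hx.2 (mem_interior_iff_mem_nhds.2 h4)
  have hnn : ∀ v, fderiv ℝ ρ x v = 0 → 0 ≤ fderiv ℝ (fderiv ℝ ρ) x v v :=
    fun v hv => second_form_nonneg h.convex hU hxU hρ hKU hx0 hdx hv
  exact ⟨U, ρ, hU, hxU, hρ, hKU, hdx, fun v hv0 hv =>
    second_form_pos hn hU hxU hρ hnn hgx hb hbg hG.ne' hv0 hv⟩

end Pool.Agent.Helper77.Cov
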