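import Mathlib

/-!
# Factoring out finitely many zeros, Jensen's formula for the factorisation
-/

open Metric Set MeasureTheory

namespace Pool.Agent.Helper77.Cov

/-- The product of the factors `1 - z/w`, `w ∈ W`. -/
noncomputable def zprod (W : Multiset ℂ) (z : ℂ) : ℂ := (W.map (fun w => 1 - z / w)).prod

@[simp] lemma zprod_zero_left (z : ℂ) : zprod 0 z = 1 := by simp [zprod]

@[simp] lemma zprod_cons (w : ℂ) (W : Multiset ℂ) (z : ℂ) :
    zprod (w ::ₘ W) z = (1 - z / w) * zprod W z := by simp [zprod]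

lemma zprod_add (W W' : Multiset ℂ) (z : ℂ) : zprod (W + W') z = zprod W z * zprod W' z := by
  simp [zprod]

@[simp] lemma zprod_at_zero (W : Multiset ℂ) : zprod W 0 = 1 := by
  simp [zprod]

lemma differentiable_zprod (W : Multiset ℂ) : Differentiable ℂ (zprod W) := by
  induction W using Multiset.induction with
  | empty =>
    have : zprod 0 = fun _ : ℂ => (1 : ℂ) := by ext z; simp
    rw [this]
    exact differentiable_const (1 : ℂ)
  | cons w W ih =>
    have : zprod (w ::ₘ W) = fun z => (1 - z / w) * zprod W z := by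
      ext z; simp
    rw [this]
    have h1 : Differentiable ℂ (fun z : ℂ => 1 - z / w) := by fun_prop
    exact h1.mul ih

lemma zprod_ne_zero {W : Multiset ℂ} {z : ℂ} (hW : ∀ w ∈ W, w ≠ 0) (hz : z ∉ W) :
    zprod W z ≠ 0 := by
  induction W using Multiset.induction with
  | empty => simp
  | cons w W ih =>
    rw [zprod_cons]
    have hw : w ≠ 0 := hW w (by simp)
    have hzw : z ≠ w := fun h => hz (by simp [h])
    have h1 : (1 - z / w) ≠ 0 := by
      intro h
      apply hzw
      field_simp at h
      linear_combination -h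
    exact mul_ne_zero h1 (ih (fun w' hw' => hW w' (by simp [hw']))
      (fun h => hz (by simp [h])))

lemma zprod_eq_zero {W : Multiset ℂ} {z : ℂ} (hW : ∀ w ∈ W, w ≠ 0) (hz : z ∈ W) :
    zprod W z = 0 := by
  unfold zprod
  apply Multiset.prod_eq_zero
  rw [Multiset.mem_map]
  exact ⟨z, hz, by rw [div_self (hW z hz), sub_self]⟩

lemma two_pow_le_norm_zprod {W : Multiset ℂ} {z : ℂ} {r : ℝ} (hr : 0 < r)
    (hW : ∀ w ∈ W, w ≠ 0 ∧ ‖w‖ ≤ r) (hz : ‖z‖ = 3 * r) :
    2 ^ W.card ≤ ‖zprod W z‖ := by
  induction W using Multiset.induction with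
  | empty => simp
  | cons w W ih =>
    rw [zprod_cons, norm_mul, Multiset.card_cons, pow_succ, mul_comm]
    have hw := hW w (by simp)
    have hw0 : 0 < ‖w‖ := norm_pos_iff.2 hw.1
    have h1 : 2 ≤ ‖1 - z / w‖ := by
      have h2 : ‖z / w‖ - ‖(1 : ℂ)‖ ≤ ‖z / w - 1‖ := norm_sub_norm_le _ _
      rw [norm_sub_rev] at h2
      have h3 : 3 ≤ ‖z / w‖ := by
        rw [norm_div, hz, le_div_iff₀ hw0]
        nlinarith [hw.2]
      simp only [norm_one] at h2
      linarith
    exact mul_le_mul h1 (ih (fun w' hw' => hW w' (by simp [hw']))) (by positivity)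
      (by positivity)

/-- An entire function which does not vanish at `0` factors as a finite product over its zeros in a
closed disc times an entire function without zeros in this disc. -/
theorem exists_factor {f : ℂ → ℂ} (hf : Differentiable ℂ f) (h0 : f 0 ≠ 0) {r : ℝ}
    (hr : 0 < r) :
    ∃ (W : Multiset ℂ) (E : ℂ → ℂ), (∀ w ∈ W, w ≠ 0 ∧ ‖w‖ ≤ r) ∧ Differentiable ℂ E ∧
      (∀ z, ‖z‖ ≤ r → E z ≠ 0) ∧ ∀ z, f z = zprod W z * E z := by
  classical
  set P : ℕ → Prop := fun N => ∃ (W : Multiset ℂ) (E : ℂ → ℂ), W.card = N ∧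
    (∀ w ∈ W, w ≠ 0 ∧ ‖w‖ ≤ r) ∧ Differentiable ℂ E ∧ ∀ z, f z = zprod W z * E z with hP
  -- a bound on `N`
  obtain ⟨M, hM⟩ : ∃ M : ℝ, ∀ z ∈ sphere (0 : ℂ) (3 * r), ‖f z‖ ≤ M :=
    (isCompact_sphere (0 : ℂ) (3 * r)).exists_bound_of_continuousOn hf.continuous.continuousOn
  have hbd : ∀ N, P N → (2 : ℝ) ^ N * ‖f 0‖ ≤ M := by
    rintro N ⟨W, E, hN, hW, hE, hfE⟩
    have hE0 : f 0 = E 0 := by simpa using hfE 0
    have hmax : ‖E 0‖ ≤ M / 2 ^ N := by
      apply Complex.norm_le_of_forall_mem_frontier_norm_le (U := ball (0 : ℂ) (3 * r))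
        isBounded_ball hE.diffContOnCl
      · intro z hz
        rw [frontier_ball (0 : ℂ) (by positivity)] at hz
        have hz' : ‖z‖ = 3 * r := by simpa using hz
        have h1 := two_pow_le_norm_zprod hr hW hz'
        have h2 := hM z hz
        rw [hfE z, norm_mul] at h2
        rw [hN] at h1
        rw [le_div_iff₀ (by positivity), mul_comm]
        exact le_trans (mul_le_mul_of_nonneg_right h1 (norm_nonneg _)) h2
      · apply subset_closure
        simp [hr]
    rw [hE0]
    rw [le_div_iff₀ (by positivity), mul_comm] at hmax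
    exact hmax
  have hfpos : 0 < ‖f 0‖ := norm_pos_iff.2 h0
  obtain ⟨K, hK⟩ : ∃ K : ℕ, M / ‖f 0‖ < 2 ^ K := pow_unbounded_of_one_lt _ (by norm_num)
  have hbd' : ∀ N, P N → N ≤ K := by
    intro N hN
    by_contra hcon
    push Not at hcon
    have h1 := hbd N hN
    have h2 : M < 2 ^ K * ‖f 0‖ := by rwa [div_lt_iff₀ hfpos] at hK
    have h3 : (2 : ℝ) ^ K ≤ 2 ^ N := pow_le_pow_right₀ (by norm_num) hcon.le
    nlinarith
  have hP0 : P 0 := ⟨0, f, by simp, by simp, hf, by simp⟩
  -- maximal `N`
  have hspec := Nat.findGreatest_spec (P := P) (Nat.zero_le K) hP0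
  set N := Nat.findGreatest P K with hNdef
  obtain ⟨W, E, hN, hW, hE, hfE⟩ := hspec
  refine ⟨W, E, hW, hE, ?_, hfE⟩
  intro w hwr hEw
  have hE0 : f 0 = E 0 := by simpa using hfE 0
  have hw0 : w ≠ 0 := by
    rintro rfl
    exact h0 (by rw [hE0, hEw])
  -- extract one more factor
  have hPN : P (N + 1) := by
    refine ⟨w ::ₘ W, fun z => -w * dslope E w z, by simp [hN], ?_, ?_, ?_⟩
    · intro w' hw'
      rcases Multiset.mem_cons.1 hw' with rfl | h
      · exact ⟨hw0, hwr⟩
      · exact hW w' h
    · have h1 : DifferentiableOn ℂ (dslope E w) univ :=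
        (Complex.differentiableOn_dslope (s := univ) (c := w) (by simp)).2
          hE.differentiableOn
      have h2 : Differentiable ℂ (dslope E w) := differentiableOn_univ.1 h1
      exact (differentiable_const _).mul h2
    · intro z
      rw [hfE z, zprod_cons]
      have h3 : (z - w) • dslope E w z = E z - E w := sub_smul_dslope E w z
      rw [hEw, sub_zero, smul_eq_mul] at h3
      have h4 : (1 - z / w) * (-w * dslope E w z) = E z := by
        rw [← h3]
        field_simp
        ring
      calc zprod W z * E z = zprod W z * ((1 - z / w) * (-w * dslope E w z)) := by rw [h4]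
        _ = _ := by ring
  have h5 : N + 1 ≤ K := hbd' _ hPN
  have h6 := Nat.le_findGreatest h5 hPN
  omega

/-- Jensen's formula for a factorised function. -/
theorem jensen_factor {W : Multiset ℂ} {E : ℂ → ℂ} {r : ℝ} (hr : 0 < r)
    (hW : ∀ w ∈ W, w ≠ 0 ∧ ‖w‖ ≤ r) (hE : Differentiable ℂ E)
    (hE0 : ∀ z, ‖z‖ ≤ r → E z ≠ 0) :
    Real.circleAverage (fun z => Real.log ‖zprod W z * E z‖) 0 r =
      (W.map (fun w => Real.log (r / ‖w‖))).sum + Real.log ‖E 0‖ := by
  induction W using Multiset.induction with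
  | empty =>
    simp only [zprod_zero_left, one_mul, Multiset.map_zero, Multiset.sum_zero, zero_add]
    have := AnalyticOnNhd.circleAverage_log_norm_of_ne_zero (R := r) (c := 0) (g := E)
      (fun z _ => (hE.analyticAt z)) (by
        intro u hu
        apply hE0
        rw [abs_of_pos hr] at hu
        simpa using hu)
    exact this
  | cons w W ih =>
    have hw := hW w (by simp)
    have ih' := ih (fun w' hw' => hW w' (by simp [hw']))
    have hwpos : 0 < ‖w‖ := norm_pos_iff.2 hw.1
    have hgan : AnalyticOnNhd ℂ (fun z => zprod W z * E z) univ := fun z _ =>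
      ((differentiable_zprod W).mul hE).analyticAt z
    have hint1 : CircleIntegrable (fun z => Real.log ‖zprod W z * E z‖) 0 r :=
      (hgan.meromorphicOn.mono_set (subset_univ _)).circleIntegrable_log_norm
    have hint2 : CircleIntegrable (fun z => Real.log ‖z - w‖ - Real.log ‖w‖) 0 r := by
      apply CircleIntegrable.sub
      · exact circleIntegrable_log_norm_sub_const r
      · exact circleIntegrable_const _ _ _
    have hne : Real.circleAverage (fun z => Real.log ‖zprod (w ::ₘ W) z * E z‖) 0 r =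
        Real.circleAverage (fun z => (Real.log ‖z - w‖ - Real.log ‖w‖) +
          Real.log ‖zprod W z * E z‖) 0 r := by
      unfold Real.circleAverage
      congr 1
      apply intervalIntegral.integral_congr_ae
      have hcount : (circleMap 0 r ⁻¹' {z | z ∈ w ::ₘ W}).Countable := by
        apply Set.Countable.preimage_circleMap _ _ hr.ne'
        exact (Multiset.finite_toSet (w ::ₘ W)).countable
      have hae : ∀ᵐ θ : ℝ, θ ∉ circleMap 0 r ⁻¹' {z | z ∈ w ::ₘ W} :=
        measure_eq_zero_iff_ae_notMem.1 (hcount.measure_zero _)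
      filter_upwards [hae] with θ hθ _
      set z := circleMap 0 r θ with hz
      have hzmem : z ∉ w ::ₘ W := hθ
      have hzr : ‖z‖ ≤ r := by
        rw [hz, norm_circleMap_zero, abs_of_pos hr]
      have hzw : z ≠ w := fun h => hzmem (by simp [h])
      have h1 : zprod W z ≠ 0 := zprod_ne_zero (fun w' hw' => (hW w' (by simp [hw'])).1)
        (fun h => hzmem (by simp [h]))
      have h2 : E z ≠ 0 := hE0 z hzr
      have h3 : zprod (w ::ₘ W) z * E z = (w - z) / w * (zprod W z * E z) := by
        rw [zprod_cons]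
        have := hw.1
        field_simp
      rw [h3, norm_mul, Real.log_mul, norm_div, Real.log_div, norm_sub_rev]
      · exact (norm_pos_iff.2 (sub_ne_zero.2 hzw.symm)).ne'
      · exact hwpos.ne'
      · exact (norm_pos_iff.2 (div_ne_zero (sub_ne_zero.2 hzw.symm) hw.1)).ne'
      · exact (norm_pos_iff.2 (mul_ne_zero h1 h2)).ne'
    rw [hne, Real.circleAverage_fun_add hint2 hint1, ih', Real.circleAverage_fun_sub
      (circleIntegrable_log_norm_sub_const r) (circleIntegrable_const _ _ _),
      Real.circleAverage_const]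
    have h4 : Real.circleAverage (fun z => Real.log ‖z - w‖) 0 r = Real.log r :=
      circleAverage_log_norm_sub_const_of_mem_closedBall (by
        rw [abs_of_pos hr]; simpa using hw.2)
    rw [h4, Multiset.map_cons, Multiset.sum_cons, Real.log_div hr.ne' hwpos.ne']
    ring

end Pool.Agent.Helper77.Cov
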