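import Mathlib

/-!
# A Plancherel–Pólya type inequality
-/

open Metric Set MeasureTheory Complex FourierTransform

namespace Pool.Agent.Helper77.Cov

/-- Fourier–Laplace transform on the line. -/
noncomputable def FL (g : ℝ → ℂ) (z : ℂ) : ℂ := ∫ t : ℝ, g t * Complex.exp (-Complex.I * z * t)

lemma FL_eq_fourier (g : ℝ → ℂ) (x : ℝ) : FL g ((2 * Real.pi * x : ℝ) : ℂ) = 𝓕 g x := by
  rw [Real.fourier_real_eq_integral_exp_smul]
  unfold FL
  congr 1
  ext t
  rw [smul_eq_mul, mul_comm]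
  congr 2
  push_cast
  ring

theorem norm_FL_le {g : ℝ → ℂ} (hg : Continuous g) {τ : ℝ} (hτ : 0 < τ)
    (hsupp : ∀ t, τ < |t| → g t = 0) (hint : Integrable (fun x : ℝ => FL g x)) (z : ℂ) :
    ‖FL g z‖ ≤ (τ / Real.pi) * Real.exp (τ * |z.im|) * ∫ x : ℝ, ‖FL g x‖ := by
  have hcs : HasCompactSupport g := by
    apply HasCompactSupport.of_support_subset_isCompact (isCompact_Icc (a := -τ) (b := τ))
    intro t ht
    rw [Function.mem_support] at ht
    by_contra hcon
    apply ht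
    apply hsupp
    rw [mem_Icc, ← abs_le] at hcon
    exact not_le.1 hcon
  have hgi : Integrable g := hg.integrable_of_hasCompactSupport hcs
  have h2pi : (0 : ℝ) < 2 * Real.pi := by positivity
  have hFi : Integrable (𝓕 g) := by
    have h1 : Integrable (fun x : ℝ => FL g ((2 * Real.pi * x : ℝ) : ℂ)) :=
      hint.comp_mul_left' h2pi.ne'
    refine h1.congr (Filter.Eventually.of_forall fun x => ?_)
    exact FL_eq_fourier g x
  set I₀ : ℝ := ∫ x : ℝ, ‖FL g x‖ with hI₀
  have hI₀n : 0 ≤ I₀ := integral_nonneg fun _ => norm_nonneg _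
  have hsup : ∀ t, ‖g t‖ ≤ (1 / (2 * Real.pi)) * I₀ := by
    intro t
    have h1 : 𝓕⁻ (𝓕 g) t = g t := hgi.fourierInv_fourier_eq hFi hg.continuousAt
    rw [← h1, Real.fourierInv_eq]
    calc ‖∫ v : ℝ, Real.fourierChar (inner ℝ v t) • 𝓕 g v‖
        ≤ ∫ v : ℝ, ‖Real.fourierChar (inner ℝ v t) • 𝓕 g v‖ := norm_integral_le_integral_norm _
      _ = ∫ v : ℝ, ‖FL g ((2 * Real.pi * v : ℝ) : ℂ)‖ := by
          congr 1; ext v
          rw [Circle.norm_smul, FL_eq_fourier]
      _ = (1 / (2 * Real.pi)) * I₀ := by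
          have := Measure.integral_comp_mul_left (fun x : ℝ => ‖FL g (x : ℂ)‖) (2 * Real.pi)
          rw [this, abs_of_pos (by positivity), smul_eq_mul, one_div, hI₀]
  have hexp : ∀ t : ℝ, |t| ≤ τ → ‖Complex.exp (-Complex.I * z * t)‖ ≤
      Real.exp (τ * |z.im|) := by
    intro t ht
    rw [Complex.norm_exp]
    apply Real.exp_le_exp.2
    have : (-Complex.I * z * (t : ℂ)).re = z.im * t := by simp
    rw [this]
    calc z.im * t ≤ |z.im * t| := le_abs_self _
      _ = |z.im| * |t| := abs_mul _ _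
      _ ≤ |z.im| * τ := by gcongr
      _ = τ * |z.im| := mul_comm _ _
  unfold FL
  have hset : ∫ t : ℝ, g t * Complex.exp (-Complex.I * z * t) =
      ∫ t in Icc (-τ) τ, g t * Complex.exp (-Complex.I * z * t) := by
    rw [setIntegral_eq_integral_of_forall_compl_eq_zero]
    intro t ht
    rw [mem_Icc, ← abs_le, not_le] at ht
    rw [hsupp t ht, zero_mul]
  rw [hset]
  have h2 : ‖∫ t in Icc (-τ) τ, g t * Complex.exp (-Complex.I * z * t)‖ ≤
      ((1 / (2 * Real.pi)) * I₀ * Real.exp (τ * |z.im|)) * (volume (Icc (-τ) τ)).toReal := by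
    apply norm_setIntegral_le_of_norm_le_const
    · simp
    · intro t ht
      rw [mem_Icc, ← abs_le] at ht
      rw [norm_mul]
      exact mul_le_mul (hsup t) (hexp t ht) (norm_nonneg _) (by positivity)
  refine h2.trans (le_of_eq ?_)
  rw [Real.volume_Icc, ENNReal.toReal_ofReal (by linarith)]
  field_simp
  ring

lemma FL_translate (s : ℝ → ℂ) (a : ℝ) (z : ℂ) :
    FL (fun t => s (t - a)) z = Complex.exp (-Complex.I * z * a) * FL s z := by
  unfold FL
  have h1 := integral_sub_right_eq_self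
    (fun t : ℝ => s t * Complex.exp (-Complex.I * z * ((t + a : ℝ) : ℂ))) (μ := volume) a
  have h2 : (fun t : ℝ => s (t - a) * Complex.exp (-Complex.I * z * ((t - a + a : ℝ) : ℂ))) =
      fun t : ℝ => s (t - a) * Complex.exp (-Complex.I * z * t) := by
    ext t; rw [sub_add_cancel]
  simp only [h2] at h1
  rw [h1, ← integral_const_mul]
  congr 1
  ext t
  have h3 : Complex.exp (-Complex.I * z * ((t + a : ℝ) : ℂ)) =
      Complex.exp (-Complex.I * z * t) * Complex.exp (-Complex.I * z * a) := by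
    rw [← Complex.exp_add]
    congr 1
    push_cast
    ring
  rw [h3]
  ring

lemma exists_bump {t₀ : ℝ} (ht₀ : 0 < t₀) : ∃ s : ℝ → ℝ, ContDiff ℝ (⊤ : ℕ∞) s ∧
    (∀ t, 0 ≤ s t) ∧ (∀ t, t₀ < |t| → s t = 0) ∧ ∫ t, s t = 1 ∧ HasCompactSupport s := by
  let f : ContDiffBump (0 : ℝ) := ⟨t₀ / 2, t₀, by positivity, by linarith⟩
  refine ⟨f.normed volume, f.contDiff_normed, f.nonneg_normed, ?_, f.integral_normed,
    f.hasCompactSupport_normed⟩
  intro t ht
  have h1 : t ∉ Function.support (f.normed volume) := by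
    rw [f.support_normed_eq]
    simp only [mem_ball, dist_zero_right, Real.norm_eq_abs, not_lt]
    exact ht.le
  simpa using h1

lemma norm_exp_le_of {z : ℂ} {t τ : ℝ} (ht : |t| ≤ τ) :
    ‖Complex.exp (-Complex.I * z * t)‖ ≤ Real.exp (τ * |z.im|) := by
  rw [Complex.norm_exp]
  apply Real.exp_le_exp.2
  have : (-Complex.I * z * (t : ℂ)).re = z.im * t := by simp
  rw [this]
  calc z.im * t ≤ |z.im * t| := le_abs_self _
    _ = |z.im| * |t| := abs_mul _ _
    _ ≤ |z.im| * τ := by gcongr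
    _ = τ * |z.im| := mul_comm _ _

/-- Fubini for the convolution with a measure. -/
lemma FL_conv {P : Type*} [MeasurableSpace P] {μ : Measure P} [IsFiniteMeasure μ]
    {ℓ : P → ℝ} {c : P → ℂ} {Cc τ t₀ Cs : ℝ} (hℓ : Measurable ℓ) (hc : Measurable c)
    (hℓb : ∀ᵐ p ∂μ, |ℓ p| ≤ τ) (hcb : ∀ p, ‖c p‖ ≤ Cc) {s : ℝ → ℝ} (hs : Continuous s)
    (hsb : ∀ t, |s t| ≤ Cs) (hsupp : ∀ t, t₀ < |t| → s t = 0) (z : ℂ) :
    FL (fun t => ∫ p, c p * (s (t - ℓ p) : ℂ) ∂μ) z =
      (∫ p, c p * Complex.exp (-Complex.I * z * ℓ p) ∂μ) * FL (fun t => (s t : ℂ)) z := by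
  unfold FL
  have hCs : 0 ≤ Cs := (abs_nonneg _).trans (hsb 0)
  have hint : Integrable (Function.uncurry fun (t : ℝ) (p : P) =>
      c p * (s (t - ℓ p) : ℂ) * Complex.exp (-Complex.I * z * t)) (volume.prod μ) := by
    have hbd : Integrable (fun q : ℝ × P => (Icc (-(τ + t₀)) (τ + t₀)).indicator
        (fun _ => Cc * Cs * Real.exp ((τ + t₀) * |z.im|)) q.1) (volume.prod μ) := by
      have h1 : Integrable (fun t : ℝ => (Icc (-(τ + t₀)) (τ + t₀)).indicator
        (fun _ => Cc * Cs * Real.exp ((τ + t₀) * |z.im|)) t) := by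
        rw [integrable_indicator_iff measurableSet_Icc]
        exact integrableOn_const (by simp) enorm_ne_top
      have h2 : Integrable (fun _ : P => (1 : ℝ)) μ := integrable_const _
      have := h1.mul_prod h2
      simpa using this
    refine hbd.mono' ?_ ?_
    · apply Measurable.aestronglyMeasurable
      apply Measurable.mul
      · apply Measurable.mul (hc.comp measurable_snd)
        exact Complex.measurable_ofReal.comp
          (hs.measurable.comp (measurable_fst.sub (hℓ.comp measurable_snd)))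
      · exact ((measurable_const.mul (Complex.measurable_ofReal.comp measurable_fst))).cexp
    · have hae : ∀ᵐ q : ℝ × P ∂(volume.prod μ), |ℓ q.2| ≤ τ :=
        (Measure.quasiMeasurePreserving_snd (μ := (volume : Measure ℝ)) (ν := μ)).ae hℓb
      filter_upwards [hae] with q hq
      simp only [Function.uncurry]
      by_cases hmem : q.1 ∈ Icc (-(τ + t₀)) (τ + t₀)
      · rw [indicator_of_mem hmem, norm_mul, norm_mul]
        have h3 : |q.1| ≤ τ + t₀ := abs_le.2 hmem
        have h4 := norm_exp_le_of (z := z) h3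
        have h5 : ‖((s (q.1 - ℓ q.2) : ℝ) : ℂ)‖ ≤ Cs := by
          rw [Complex.norm_real, Real.norm_eq_abs]; exact hsb _
        have h6 := hcb q.2
        have h7 : 0 ≤ Cc := (norm_nonneg _).trans h6
        gcongr
      · rw [indicator_of_notMem hmem]
        have h3 : t₀ < |q.1 - ℓ q.2| := by
          rw [mem_Icc, ← abs_le, not_le] at hmem
          have := abs_sub_abs_le_abs_sub q.1 (ℓ q.2)
          linarith
        rw [hsupp _ h3]
        simp
  calc ∫ t : ℝ, (∫ p, c p * (s (t - ℓ p) : ℂ) ∂μ) * Complex.exp (-Complex.I * z * t)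
      = ∫ t : ℝ, ∫ p, c p * (s (t - ℓ p) : ℂ) * Complex.exp (-Complex.I * z * t) ∂μ := by
        congr 1; ext t
        rw [integral_mul_const]
    _ = ∫ p, (∫ t : ℝ, c p * (s (t - ℓ p) : ℂ) * Complex.exp (-Complex.I * z * t)) ∂μ :=
        integral_integral_swap hint
    _ = ∫ p, c p * Complex.exp (-Complex.I * z * ℓ p) *
          (∫ t : ℝ, (s t : ℂ) * Complex.exp (-Complex.I * z * t)) ∂μ := by
        congr 1; ext p
        have h1 := FL_translate (fun t => (s t : ℂ)) (ℓ p) z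
        unfold FL at h1
        rw [mul_assoc, ← h1, ← integral_const_mul]
        congr 1; ext t
        ring
    _ = _ := by rw [integral_mul_const]

lemma norm_exp_real_mul (x t : ℝ) : ‖Complex.exp (-Complex.I * x * t)‖ = 1 := by
  rw [Complex.norm_exp]
  simp

lemma continuous_FL_real {g : ℝ → ℂ} (hg : Integrable g) : Continuous (fun x : ℝ => FL g x) := by
  unfold FL
  apply continuous_of_dominated (bound := fun t => ‖g t‖)
  · intro x
    apply hg.aestronglyMeasurable.mul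
    apply Continuous.aestronglyMeasurable
    fun_prop
  · intro x
    filter_upwards with t
    rw [norm_mul, norm_exp_real_mul, mul_one]
  · exact hg.norm
  · filter_upwards with t
    fun_prop

lemma FL_decay {s : ℝ → ℝ} (hs : ContDiff ℝ (⊤ : ℕ∞) s) (hcs : HasCompactSupport s) (N : ℕ) :
    ∃ C : ℝ, ∀ x : ℝ, (1 + |x|) ^ N * ‖FL (fun t => (s t : ℂ)) x‖ ≤ C := by
  have h1 : HasCompactSupport (fun t => (s t : ℂ)) :=
    hcs.comp_left (g := fun x : ℝ => (x : ℂ)) (by simp)
  have h2 : ContDiff ℝ (⊤ : ℕ∞) (fun t => (s t : ℂ)) := Complex.ofRealCLM.contDiff.comp hs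
  set φ : SchwartzMap ℝ ℂ := h1.toSchwartzMap h2 with hφ
  have hφc : (φ : ℝ → ℂ) = fun t => (s t : ℂ) := rfl
  refine ⟨(2 * Real.pi) ^ N * (2 ^ N *
    ((Finset.Iic ((N, 0) : ℕ × ℕ)).sup (fun m => SchwartzMap.seminorm ℝ m.1 m.2)) (𝓕 φ)), ?_⟩
  intro x
  have hpi : (1 : ℝ) ≤ 2 * Real.pi := by linarith [Real.pi_gt_three]
  set y : ℝ := x / (2 * Real.pi) with hy
  have hxy : x = 2 * Real.pi * y := by rw [hy]; field_simp
  have h3 := SchwartzMap.one_add_le_sup_seminorm_apply (𝕜 := ℝ) (m := (N, 0)) (k := N) (n := 0)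
    le_rfl le_rfl (𝓕 φ) y
  rw [norm_iteratedFDeriv_zero] at h3
  have h4 : FL (fun t => (s t : ℂ)) x = (𝓕 φ) y := by
    rw [hxy, FL_eq_fourier, ← hφc]
    rfl
  rw [h4]
  have h5 : 1 + |x| ≤ 2 * Real.pi * (1 + ‖y‖) := by
    rw [hxy, abs_mul, abs_of_pos (by positivity : (0 : ℝ) < 2 * Real.pi), Real.norm_eq_abs]
    nlinarith [abs_nonneg y]
  calc (1 + |x|) ^ N * ‖(𝓕 φ) y‖ ≤ (2 * Real.pi * (1 + ‖y‖)) ^ N * ‖(𝓕 φ) y‖ := by
        gcongr
    _ = (2 * Real.pi) ^ N * ((1 + ‖y‖) ^ N * ‖(𝓕 φ) y‖) := by rw [mul_pow]; ring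
    _ ≤ _ := by gcongr

lemma FL_near_one {s : ℝ → ℝ} (hs : Continuous s) (hs0 : ∀ t, 0 ≤ s t) {t₀ T : ℝ}
    (hT : 0 < T) (hsupp : ∀ t, t₀ < |t| → s t = 0) (hint : ∫ t, s t = 1)
    (hcs : HasCompactSupport s) (htT : t₀ * T ≤ 1 / 4) {z : ℂ} (hz : ‖z‖ ≤ T) :
    1 / 2 ≤ ‖FL (fun t => (s t : ℂ)) z‖ := by
  have hsi : Integrable s := hs.integrable_of_hasCompactSupport hcs
  have hcont : Continuous (fun t : ℝ => (s t : ℂ) * Complex.exp (-Complex.I * z * t)) := by
    fun_prop
  have hcs' : HasCompactSupport (fun t : ℝ => (s t : ℂ) * Complex.exp (-Complex.I * z * t)) := by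
    apply HasCompactSupport.mul_right
    exact hcs.comp_left (g := fun x : ℝ => (x : ℂ)) (by simp)
  have hi1 := hcont.integrable_of_hasCompactSupport hcs' (μ := volume)
  have h1 : FL (fun t => (s t : ℂ)) z - 1 =
      ∫ t : ℝ, (s t : ℂ) * (Complex.exp (-Complex.I * z * t) - 1) := by
    have h2 : ∫ t : ℝ, (s t : ℂ) = 1 := by
      rw [integral_complex_ofReal, hint]; simp
    have h2' : (fun t : ℝ => (s t : ℂ) * (Complex.exp (-Complex.I * z * t) - 1)) =
        fun t : ℝ => (s t : ℂ) * Complex.exp (-Complex.I * z * t) - (s t : ℂ) := by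
      ext t; ring
    have hsC : Integrable (fun t : ℝ => (s t : ℂ)) := hsi.ofReal
    rw [h2', integral_sub hi1 hsC, h2]
    rfl
  have h3 : ‖FL (fun t => (s t : ℂ)) z - 1‖ ≤ 1 / 2 := by
    rw [h1]
    calc ‖∫ t : ℝ, (s t : ℂ) * (Complex.exp (-Complex.I * z * t) - 1)‖
        ≤ ∫ t : ℝ, s t * (1 / 2) := by
          apply norm_integral_le_of_norm_le (hsi.mul_const _)
          filter_upwards with t
          rw [norm_mul, Complex.norm_real, Real.norm_eq_abs, abs_of_nonneg (hs0 t)]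
          by_cases ht : t₀ < |t|
          · rw [hsupp t ht]; simp
          · push Not at ht
            have h4 : ‖-Complex.I * z * t‖ ≤ 1 / 4 := by
              rw [norm_mul, norm_mul, norm_neg, Complex.norm_I, one_mul, Complex.norm_real,
                Real.norm_eq_abs]
              calc ‖z‖ * |t| ≤ T * t₀ := by gcongr
                _ ≤ 1 / 4 := by linarith
            have h5 := Complex.norm_exp_sub_one_le (x := -Complex.I * z * t) (by linarith)
            exact mul_le_mul_of_nonneg_left (by linarith) (hs0 t)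
      _ = 1 / 2 := by rw [integral_mul_const, hint, one_mul]
  have h6 : ‖(1 : ℂ)‖ - ‖FL (fun t => (s t : ℂ)) z - 1‖ ≤ ‖FL (fun t => (s t : ℂ)) z‖ := by
    have := norm_sub_norm_le (1 : ℂ) (1 - FL (fun t => (s t : ℂ)) z)
    rw [sub_sub_cancel, norm_sub_rev] at this
    exact this
  rw [norm_one] at h6
  linarith

/-- The weight `κ` controls complex windows of radius `T` for functions of type `τ`. -/
def KProp (T τ : ℝ) (κ : ℝ → ℝ) : Prop :=
  ∀ (P : Type) [MeasurableSpace P] (μ : Measure P) [IsFiniteMeasure μ] (ℓ : P → ℝ)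
    (c : P → ℂ) (Cc : ℝ), Measurable ℓ → Measurable c → (∀ᵐ p ∂μ, |ℓ p| ≤ τ) →
    (∀ p, ‖c p‖ ≤ Cc) → ∀ (α β : ℂ) (a b : ℝ), |a| ≤ τ → |b| ≤ τ →
    ∀ F : ℂ → ℂ, (∀ z, F z = (∫ p, c p * Complex.exp (-Complex.I * z * ℓ p) ∂μ) +
      α * Complex.exp (-Complex.I * z * a) + β * Complex.exp (Complex.I * z * b)) →
    ∀ z : ℂ, ‖z‖ ≤ T → ‖F z‖ₑ ≤ ∫⁻ x : ℝ, ‖F x‖ₑ * ENNReal.ofReal (κ x)

/-- **Plancherel–Pólya type inequality**. -/
theorem exists_kernel {T τ : ℝ} (hT : 0 < T) (hτ : 0 < τ) :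
    ∃ κ : ℝ → ℝ, Continuous κ ∧ (∀ x, 0 ≤ κ x) ∧
      (∀ N : ℕ, ∃ C : ℝ, ∀ x, (1 + |x|) ^ N * κ x ≤ C) ∧ KProp T τ κ := by
  set t₀ : ℝ := min τ (1 / (4 * T)) with ht₀def
  have ht₀ : 0 < t₀ := by rw [ht₀def]; positivity
  have ht₀T : t₀ * T ≤ 1 / 4 := by
    calc t₀ * T ≤ 1 / (4 * T) * T := by gcongr; exact min_le_right _ _
      _ = 1 / 4 := by field_simp
  have ht₀τ : t₀ ≤ τ := min_le_left _ _
  obtain ⟨s, hs, hs0, hsupp, hsint, hcs⟩ := exists_bump ht₀
  have hsc : Continuous s := hs.continuous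
  have hsCi : Integrable (fun t => (s t : ℂ)) := (hsc.integrable_of_hasCompactSupport hcs).ofReal
  set τ' : ℝ := 2 * τ with hτ'
  set D : ℝ := 2 * ((τ' / Real.pi) * Real.exp (τ' * T)) with hD
  have hDpos : 0 < D := by positivity
  refine ⟨fun x => D * ‖FL (fun t => (s t : ℂ)) x‖, ?_, ?_, ?_, ?_⟩
  · exact continuous_const.mul (continuous_FL_real hsCi).norm
  · intro x; positivity
  · intro N
    obtain ⟨C, hC⟩ := FL_decay hs hcs N
    refine ⟨D * C, fun x => ?_⟩
    calc (1 + |x|) ^ N * (D * ‖FL (fun t => (s t : ℂ)) x‖)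
        = D * ((1 + |x|) ^ N * ‖FL (fun t => (s t : ℂ)) x‖) := by ring
      _ ≤ D * C := by gcongr; exact hC x
  intro P _ μ _ ℓ c Cc hℓ hc hℓb hcb α β a b ha hb F hF z hz
  obtain ⟨Cs, hCs⟩ : ∃ Cs : ℝ, ∀ t, |s t| ≤ Cs := by
    obtain ⟨C, hC⟩ := hcs.exists_bound_of_continuous hsc
    exact ⟨C, fun t => by simpa using hC t⟩
  set g₁ : ℝ → ℂ := fun t => ∫ p, c p * (s (t - ℓ p) : ℂ) ∂μ with hg₁
  set g₂ : ℝ → ℂ := fun t => (s (t - a) : ℂ) with hg₂
  set g₃ : ℝ → ℂ := fun t => (s (t - (-b)) : ℂ) with hg₃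
  set g : ℝ → ℂ := fun t => g₁ t + α * g₂ t + β * g₃ t with hg
  have hg₁c : Continuous g₁ := by
    apply continuous_of_dominated (bound := fun _ => Cc * Cs)
    · intro t
      apply Measurable.aestronglyMeasurable
      exact hc.mul (Complex.measurable_ofReal.comp (hsc.measurable.comp (measurable_const.sub hℓ)))
    · intro t
      filter_upwards with p
      rw [norm_mul, Complex.norm_real, Real.norm_eq_abs]
      have h1 := hcb p
      have h2 : 0 ≤ Cc := (norm_nonneg _).trans h1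
      exact mul_le_mul h1 (hCs _) (abs_nonneg _) h2
    · exact integrable_const _
    · filter_upwards with p
      fun_prop
  have hg₂c : Continuous g₂ := by fun_prop
  have hg₃c : Continuous g₃ := by fun_prop
  have hgc : Continuous g := by fun_prop
  have hsupp₁ : ∀ t, τ' < |t| → g₁ t = 0 := by
    intro t ht
    rw [hg₁]
    apply integral_eq_zero_of_ae
    filter_upwards [hℓb] with p hp
    have h3 : t₀ < |t - ℓ p| := by
      have := abs_sub_abs_le_abs_sub t (ℓ p)
      linarith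
    simp [hsupp _ h3]
  have hsupp₂ : ∀ t, τ' < |t| → g₂ t = 0 := by
    intro t ht
    have h3 : t₀ < |t - a| := by
      have := abs_sub_abs_le_abs_sub t a
      linarith
    simp [hg₂, hsupp _ h3]
  have hsupp₃ : ∀ t, τ' < |t| → g₃ t = 0 := by
    intro t ht
    have h3 : t₀ < |t - (-b)| := by
      have := abs_sub_abs_le_abs_sub t (-b)
      rw [abs_neg] at this
      linarith
    simp only [hg₃]
    rw [hsupp _ h3]
    simp
  have hcsOf : ∀ h : ℝ → ℂ, (∀ t, τ' < |t| → h t = 0) → HasCompactSupport h := by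
    intro h hh
    apply HasCompactSupport.of_support_subset_isCompact (isCompact_Icc (a := -τ') (b := τ'))
    intro t ht
    rw [Function.mem_support] at ht
    by_contra hcon
    apply ht
    apply hh
    rw [mem_Icc, ← abs_le] at hcon
    exact not_le.1 hcon
  have hmulint : ∀ h : ℝ → ℂ, Continuous h → (∀ t, τ' < |t| → h t = 0) → ∀ z : ℂ,
      Integrable (fun t : ℝ => h t * Complex.exp (-Complex.I * z * t)) := by
    intro h hh1 hh2 z
    apply Continuous.integrable_of_hasCompactSupport (by fun_prop)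
    exact (hcsOf h hh2).mul_right
  have hFL : ∀ z : ℂ, FL g z = F z * FL (fun t => (s t : ℂ)) z := by
    intro z
    have h1 := FL_conv hℓ hc hℓb hcb hsc hCs hsupp z
    have h2 := FL_translate (fun t => (s t : ℂ)) a z
    have h3 := FL_translate (fun t => (s t : ℂ)) (-b) z
    have h4 : FL g z = FL g₁ z + α * FL g₂ z + β * FL g₃ z := by
      unfold FL
      have i1 := hmulint g₁ hg₁c hsupp₁ z
      have i2 := hmulint g₂ hg₂c hsupp₂ z
      have i3 := hmulint g₃ hg₃c hsupp₃ z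
      have e1 : (fun t : ℝ => g t * Complex.exp (-Complex.I * z * t)) =
          fun t : ℝ => (g₁ t * Complex.exp (-Complex.I * z * t) +
            α * (g₂ t * Complex.exp (-Complex.I * z * t))) +
            β * (g₃ t * Complex.exp (-Complex.I * z * t)) := by
        ext t
        simp only [hg]
        ring
      have i12 : Integrable (fun t : ℝ => g₁ t * Complex.exp (-Complex.I * z * t) +
          α * (g₂ t * Complex.exp (-Complex.I * z * t))) := i1.add (i2.const_mul α)
      rw [e1, integral_add i12 (i3.const_mul β), integral_add i1 (i2.const_mul α),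
        integral_const_mul, integral_const_mul]
    rw [h4, hg₁, h1, hg₂, h2, hg₃, h3, hF z]
    have h5 : -Complex.I * z * ((-b : ℝ) : ℂ) = Complex.I * z * b := by push_cast; ring
    rw [h5]
    ring
  -- boundedness of `F` on the real line
  obtain ⟨M, hM⟩ : ∃ M : ℝ, ∀ x : ℝ, ‖F x‖ ≤ M := by
    refine ⟨Cc * μ.real univ + ‖α‖ + ‖β‖, fun x => ?_⟩
    rw [hF]
    have h1 : ‖∫ p, c p * Complex.exp (-Complex.I * x * ℓ p) ∂μ‖ ≤ Cc * μ.real univ := by
      apply norm_integral_le_of_norm_le_const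
      filter_upwards with p
      rw [norm_mul, norm_exp_real_mul, mul_one]
      exact hcb p
    have h2 : ‖α * Complex.exp (-Complex.I * x * a)‖ = ‖α‖ := by
      rw [norm_mul, norm_exp_real_mul, mul_one]
    have h3 : ‖β * Complex.exp (Complex.I * x * b)‖ = ‖β‖ := by
      have : Complex.I * x * b = -Complex.I * x * ((-b : ℝ) : ℂ) := by push_cast; ring
      rw [this, norm_mul, norm_exp_real_mul, mul_one]
    calc _ ≤ ‖(∫ p, c p * Complex.exp (-Complex.I * x * ℓ p) ∂μ) +
          α * Complex.exp (-Complex.I * x * a)‖ + ‖β * Complex.exp (Complex.I * x * b)‖ :=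
          norm_add_le _ _
      _ ≤ ‖∫ p, c p * Complex.exp (-Complex.I * x * ℓ p) ∂μ‖ +
          ‖α * Complex.exp (-Complex.I * x * a)‖ + ‖β * Complex.exp (Complex.I * x * b)‖ := by
          gcongr; exact norm_add_le _ _
      _ ≤ _ := by rw [h2, h3]; gcongr
  -- integrability
  have hSint : Integrable (fun x : ℝ => ‖FL (fun t => (s t : ℂ)) x‖) := by
    obtain ⟨C, hC⟩ := FL_decay hs hcs 2
    have h1 : Integrable (fun x : ℝ => C * (1 + ‖x‖ ^ 2)⁻¹) :=
      (by simpa using integrable_inv_one_add_sq : Integrable (fun x : ℝ => (1 + ‖x‖ ^ 2)⁻¹)).const_mul C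
    apply h1.mono' (continuous_FL_real hsCi).norm.aestronglyMeasurable
    filter_upwards with x
    rw [norm_norm]
    have h2 := hC x
    have h3 : 1 + ‖x‖ ^ 2 ≤ (1 + |x|) ^ 2 := by
      rw [Real.norm_eq_abs]; nlinarith [abs_nonneg x]
    have h4 : 0 < 1 + ‖x‖ ^ 2 := by positivity
    rw [← div_eq_mul_inv, le_div_iff₀ h4, mul_comm]
    exact le_trans (mul_le_mul_of_nonneg_right h3 (norm_nonneg _)) h2
  have hgi : Integrable g := hgc.integrable_of_hasCompactSupport (hcsOf g (by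
    intro t ht
    simp only [hg, hsupp₁ t ht, hsupp₂ t ht, hsupp₃ t ht]
    simp))
  have hGint : Integrable (fun x : ℝ => FL g x) := by
    apply (hSint.const_mul M).mono' (continuous_FL_real hgi).aestronglyMeasurable
    filter_upwards with x
    rw [hFL, norm_mul]
    gcongr
    exact hM x
  have hmain := norm_FL_le hgc (τ := τ') (by positivity) (by
    intro t ht
    simp only [hg, hsupp₁ t ht, hsupp₂ t ht, hsupp₃ t ht]
    simp) hGint z
  rw [hFL, norm_mul] at hmain
  have hS := FL_near_one hsc hs0 hT hsupp hsint hcs ht₀T hz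
  have him : |z.im| ≤ T := (Complex.abs_im_le_norm z).trans hz
  set J : ℝ := ∫ x : ℝ, ‖FL g x‖ with hJ
  have hJ0 : 0 ≤ J := integral_nonneg fun _ => norm_nonneg _
  have h1 : ‖F z‖ ≤ D * J := by
    have h2 : ‖F z‖ * (1 / 2) ≤ ‖F z‖ * ‖FL (fun t => (s t : ℂ)) z‖ := by gcongr
    have h3 : (τ' / Real.pi) * Real.exp (τ' * |z.im|) * J ≤
        (τ' / Real.pi) * Real.exp (τ' * T) * J := by gcongr
    rw [hD]
    nlinarith
  have h4 : ENNReal.ofReal (D * J) = ∫⁻ x : ℝ, ‖F x‖ₑ *
      ENNReal.ofReal (D * ‖FL (fun t => (s t : ℂ)) x‖) := by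
    rw [hJ, ← integral_const_mul, ofReal_integral_eq_lintegral_ofReal (hGint.norm.const_mul D)
      (Filter.Eventually.of_forall fun x => by positivity)]
    congr 1
    ext x
    rw [hFL, norm_mul, ← ofReal_norm, ← ENNReal.ofReal_mul (norm_nonneg _)]
    congr 1
    ring
  rw [← h4, ← ofReal_norm]
  exact ENNReal.ofReal_le_ofReal h1

end Pool.Agent.Helper77.Cov
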