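import Pool.Agent.Helper77.Cov.Basics

/-!
# No mixing of types
-/

open Metric Set MeasureTheory Complex Filter Topology

namespace Pool.Agent.Helper77.Cov

variable {d : ℕ}

/-- Square root of the determinant of the Hessian of the upper chart. -/
noncomputable def pU (K : Set (V d × ℝ)) (σ : V d) : ℝ := Real.sqrt (hess (Hup K) σ).det

/-- Square root of the determinant of the Hessian of the lower chart. -/
noncomputable def qU (K : Set (V d × ℝ)) (σ : V d) : ℝ := Real.sqrt (hess (Hdn K) σ).det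

/-- The analytic hypotheses on a pair of bodies. -/
structure Pair (K H : Set (V d × ℝ)) : Prop where
  bK : IsBody K
  bH : IsBody H
  upK : PosC2 (Hup K)
  dnK : PosC2 (Hdn K)
  upH : PosC2 (Hup H)
  dnH : PosC2 (Hdn H)
  aK : AvgAsym K
  aH : AvgAsym H
  width : ∀ σ, Hup K σ + Hdn K σ = Hup H σ + Hdn H σ
  prod : ∀ L : (V d × ℝ) →L[ℝ] ℂ, FC K L * FC K (-L) = FC H L * FC H (-L)
  zero_mem : (0 : V d × ℝ) ∈ H

lemma exists_pos_lower {X : Type*} [TopologicalSpace X] {B : Set X} (hB : IsCompact B)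
    {F : X → ℝ} (hF : Continuous F) (hpos : ∀ x, 0 < F x) : ∃ m, 0 < m ∧ ∀ x ∈ B, m ≤ F x := by
  rcases B.eq_empty_or_nonempty with rfl | hne
  · exact ⟨1, one_pos, by simp⟩
  · obtain ⟨x, _, hmin⟩ := hB.exists_isMinOn hne hF.continuousOn
    exact ⟨F x, hpos x, fun y hy => hmin hy⟩

lemma exists_abs_upper {X : Type*} [TopologicalSpace X] {B : Set X} (hB : IsCompact B)
    {F : X → ℝ} (hF : Continuous F) : ∃ M, 0 < M ∧ ∀ x ∈ B, |F x| ≤ M := by
  obtain ⟨C, hC⟩ := hB.exists_bound_of_continuousOn hF.continuousOn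
  exact ⟨max C 1, by positivity, fun x hx => (hC x hx).trans (le_max_left _ _)⟩

lemma continuous_pU {K : Set (V d × ℝ)} (h : PosC2 (Hup K)) : Continuous (pU K) :=
  Real.continuous_sqrt.comp (continuous_hess_det h.1)

lemma continuous_qU {K : Set (V d × ℝ)} (h : PosC2 (Hdn K)) : Continuous (qU K) :=
  Real.continuous_sqrt.comp (continuous_hess_det h.1)

lemma pU_pos {K : Set (V d × ℝ)} (h : PosC2 (Hup K)) (σ : V d) : 0 < pU K σ :=
  Real.sqrt_pos.2 (hess_posDef h σ).det_pos

lemma qU_pos {K : Set (V d × ℝ)} (h : PosC2 (Hdn K)) (σ : V d) : 0 < qU K σ :=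
  Real.sqrt_pos.2 (hess_posDef h σ).det_pos

lemma width_pos {K : Set (V d × ℝ)} (hK : IsBody K) (σ : V d) : 0 < Hup K σ + Hdn K σ := by
  obtain ⟨p, hp⟩ := hK.interior_nonempty
  obtain ⟨ε, hε, hball⟩ := Metric.isOpen_iff.1 isOpen_interior p hp
  have h1 : (p.1, p.2 + ε / 2) ∈ K := by
    apply interior_subset
    apply hball
    rw [mem_ball, Prod.dist_eq, dist_self, Real.dist_eq]
    simp only [add_sub_cancel_left]
    rw [abs_of_pos (by linarith)]
    simp [hε]
  have h2 := le_Hup hK.compact σ h1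
  have h3 := le_Hdn hK.compact σ (interior_subset hp)
  simp only at h2
  linarith

lemma exists_bounds_one {K : Set (V d × ℝ)} (hK : IsBody K) (hup : PosC2 (Hup K))
    (hdn : PosC2 (Hdn K)) {B : Set (V d)} (hB : IsCompact B) :
    ∃ R w₀ p₀ P₀ : ℝ, 0 < R ∧ 0 < w₀ ∧ 0 < p₀ ∧ 0 < P₀ ∧ ∀ σ ∈ B,
      WPar R w₀ p₀ P₀ (pU K σ) (qU K σ) (Hup K σ) (Hdn K σ) ∧
      ∀ p ∈ K, |inner ℝ σ p.1 + p.2| ≤ R := by
  obtain ⟨R₁, hR₁, h1⟩ := exists_abs_upper hB hup.1.continuous
  obtain ⟨R₂, hR₂, h2⟩ := exists_abs_upper hB hdn.1.continuous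
  obtain ⟨P₁, hP₁, h3⟩ := exists_abs_upper hB (continuous_pU hup)
  obtain ⟨P₂, hP₂, h4⟩ := exists_abs_upper hB (continuous_qU hdn)
  obtain ⟨p₁, hp₁, h5⟩ := exists_pos_lower hB (continuous_pU hup) (pU_pos hup)
  obtain ⟨p₂, hp₂, h6⟩ := exists_pos_lower hB (continuous_qU hdn) (qU_pos hdn)
  obtain ⟨w₀, hw₀, h7⟩ := exists_pos_lower hB (hup.1.continuous.add hdn.1.continuous)
    (width_pos hK)
  obtain ⟨R₃, hR₃, h8⟩ := exists_abs_upper (hB.prod hK.compact) continuous_ell_apply
  refine ⟨max R₁ (max R₂ R₃), w₀, min p₁ p₂, max P₁ P₂, by positivity, hw₀, by positivity,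
    by positivity, fun σ hσ => ⟨⟨?_, ?_, ?_, ?_, ?_, ?_, ?_⟩, ?_⟩⟩
  · exact (h1 σ hσ).trans (le_max_left _ _)
  · exact (h2 σ hσ).trans ((le_max_left _ _).trans (le_max_right _ _))
  · exact h7 σ hσ
  · exact (min_le_left _ _).trans (h5 σ hσ)
  · exact ((le_abs_self _).trans (h3 σ hσ)).trans (le_max_left _ _)
  · exact (min_le_right _ _).trans (h6 σ hσ)
  · exact ((le_abs_self _).trans (h4 σ hσ)).trans (le_max_right _ _)
  · intro p hp
    exact (h8 (σ, p) ⟨hσ, hp⟩).trans ((le_max_right _ _).trans (le_max_right _ _))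

lemma WPar.mono {R w₀ p₀ P₀ R' w₀' p₀' P₀' p q hp hm : ℝ} (h : WPar R w₀ p₀ P₀ p q hp hm)
    (h1 : R ≤ R') (h2 : w₀' ≤ w₀) (h3 : p₀' ≤ p₀) (h4 : P₀ ≤ P₀') :
    WPar R' w₀' p₀' P₀' p q hp hm :=
  ⟨h.hhp.trans h1, h.hhm.trans h1, h2.trans h.hw, h3.trans h.p1, h.p2.trans h4,
    h3.trans h.q1, h.q2.trans h4⟩

lemma exists_bounds {K H : Set (V d × ℝ)} (h : Pair K H) {B : Set (V d)} (hB : IsCompact B) :
    ∃ R w₀ p₀ P₀ : ℝ, 0 < R ∧ 0 < w₀ ∧ 0 < p₀ ∧ 0 < P₀ ∧ ∀ σ ∈ B,
      WPar R w₀ p₀ P₀ (pU K σ) (qU K σ) (Hup K σ) (Hdn K σ) ∧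
      WPar R w₀ p₀ P₀ (pU H σ) (qU H σ) (Hup H σ) (Hdn H σ) ∧
      (∀ p ∈ K, |inner ℝ σ p.1 + p.2| ≤ R) ∧ (∀ p ∈ H, |inner ℝ σ p.1 + p.2| ≤ R) := by
  obtain ⟨R, w₀, p₀, P₀, hR, hw, hp, hP, h1⟩ := exists_bounds_one h.bK h.upK h.dnK hB
  obtain ⟨R', w₀', p₀', P₀', hR', hw', hp', hP', h2⟩ := exists_bounds_one h.bH h.upH h.dnH hB
  refine ⟨max R R', min w₀ w₀', min p₀ p₀', max P₀ P₀', by positivity, by positivity,
    by positivity, by positivity, fun σ hσ => ⟨?_, ?_, ?_, ?_⟩⟩
  · exact (h1 σ hσ).1.mono (le_max_left _ _) (min_le_left _ _) (min_le_left _ _)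
      (le_max_left _ _)
  · exact (h2 σ hσ).1.mono (le_max_right _ _) (min_le_right _ _) (min_le_right _ _)
      (le_max_right _ _)
  · exact fun p hp => ((h1 σ hσ).2 p hp).trans (le_max_left _ _)
  · exact fun p hp => ((h2 σ hσ).2 p hp).trans (le_max_right _ _)

/-- The direction data for `fT K σ`, `fT H σ`. -/
lemma dirData {K H : Set (V d × ℝ)} (h : Pair K H) (σ : V d) :
    DirData (Real.pi * d / 4) (pU K σ) (qU K σ) (Hup K σ) (Hdn K σ) (pU H σ) (qU H σ)
      (Hup H σ) (Hdn H σ) (fT K σ) (fT H σ) where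
  df := differentiable_fT h.bK.compact σ
  dg := differentiable_fT h.bH.compact σ
  symf := fT_conj K σ
  symg := fT_conj H σ
  prod := by
    intro z
    have h1 := h.prod (z • ell σ)
    have h2 : (-z) • ell σ = -(z • ell σ) := ContinuousLinearMap.ext fun p => by simp
    rw [fT_eq_FC, fT_eq_FC, fT_eq_FC, fT_eq_FC, h2]
    exact h1
  g0 := by
    rw [fT_zero]
    exact_mod_cast (volume_pos_of_isBody h.bH).ne'
  grow := fT_growth h.bH.compact σ
  hpH0 := by
    have := le_Hup h.bH.compact σ h.zero_mem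
    simpa using this
  hmH0 := by
    have := le_Hdn h.bH.compact σ h.zero_mem
    simpa using this
  width := h.width σ

/-- The sum of the two error functionals. -/
noncomputable def eS (κ : ℝ → ℝ) (K H : Set (V d × ℝ)) (σ : V d) (lam : ℝ) : ENNReal :=
  eW κ K σ lam + eW κ H σ lam

lemma lintegral_log_le {r : ℝ} (hr : 1 ≤ r) :
    ∫⁻ lam in Ico 1 r, ENNReal.ofReal (Real.log (r / lam)) ≤ ENNReal.ofReal r := by
  have hr0 : 0 < r := by linarith
  have h1 : ∫⁻ lam in Ico 1 r, ENNReal.ofReal (Real.log (r / lam)) =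
      ∫⁻ lam in Ioc 1 r, ENNReal.ofReal (Real.log (r / lam)) := by
    rw [setLIntegral_congr Ico_ae_eq_Ioc]
  rw [h1]
  have hint : IntervalIntegrable (fun lam : ℝ => Real.log r - Real.log lam) volume 1 r :=
    intervalIntegrable_const.sub intervalIntegral.intervalIntegrable_log'
  have h2 : ∫ lam in (1 : ℝ)..r, (Real.log r - Real.log lam) = r - 1 - Real.log r := by
    rw [intervalIntegral.integral_sub intervalIntegrable_const
      intervalIntegral.intervalIntegrable_log', integral_log]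
    simp
    ring
  rw [intervalIntegral.integral_of_le hr] at h2
  have h3 : ∫⁻ lam in Ioc 1 r, ENNReal.ofReal (Real.log (r / lam)) =
      ENNReal.ofReal (∫ lam in Ioc 1 r, (Real.log r - Real.log lam)) := by
    rw [ofReal_integral_eq_lintegral_ofReal]
    · apply setLIntegral_congr_fun measurableSet_Ioc
      intro lam hlam
      have : 0 < lam := by linarith [hlam.1]
      simp only
      rw [Real.log_div hr0.ne' this.ne']
    · exact hint.1
    · rw [Filter.EventuallyLE, ae_restrict_iff' measurableSet_Ioc]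
      filter_upwards with lam hlam
      have : 0 < lam := by linarith [hlam.1]
      have := Real.log_le_log this hlam.2
      simp only [Pi.zero_apply]
      linarith
  rw [h3, h2]
  apply ENNReal.ofReal_le_ofReal
  have := Real.log_nonneg hr
  linarith

/-- Averaging lemma: if `E lam → 0` and `E` is bounded, then the weighted integral is `o(r)`. -/
lemma avg_small {E : ℝ → ENNReal} (hE : Tendsto E atTop (𝓝 0)) {C' : NNReal}
    (hEb : ∀ lam, 1 ≤ lam → E lam ≤ C') {ε : ℝ} (hε : 0 < ε) :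
    ∀ᶠ r in atTop, ∫⁻ lam in Ico 1 r, ENNReal.ofReal (Real.log (r / lam)) * E lam ≤
      ENNReal.ofReal (ε * r) := by
  have hε2 : (0 : ENNReal) < ENNReal.ofReal (ε / 2) := by simp [hε]
  obtain ⟨Λ₀, hΛ₀⟩ : ∃ Λ₀ : ℝ, ∀ lam, Λ₀ ≤ lam → E lam ≤ ENNReal.ofReal (ε / 2) := by
    have := (hE.eventually_lt_const hε2)
    obtain ⟨Λ, hΛ⟩ := eventually_atTop.1 this
    exact ⟨Λ, fun lam hlam => (hΛ lam hlam).le⟩
  set Λ : ℝ := max Λ₀ 1 with hΛdef
  have hΛ1 : 1 ≤ Λ := le_max_right _ _
  have hlog : ∀ᶠ r : ℝ in atTop, (C' : ℝ) * Λ * Real.log r ≤ (ε / 2) * r := by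
    have h1 : Tendsto (fun r : ℝ => Real.log r / r) atTop (𝓝 0) := by
      have := Real.isLittleO_log_id_atTop.tendsto_div_nhds_zero
      simpa using this
    have h2 := (h1.const_mul ((C' : ℝ) * Λ))
    rw [mul_zero] at h2
    filter_upwards [h2.eventually_lt_const (by linarith : 0 < ε / 2),
      eventually_gt_atTop 0] with r hr hr0
    have h3 : (C' : ℝ) * Λ * (Real.log r / r) * r ≤ ε / 2 * r := by gcongr
    calc (C' : ℝ) * Λ * Real.log r = (C' : ℝ) * Λ * (Real.log r / r) * r := by field_simp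
      _ ≤ _ := h3
  filter_upwards [hlog, eventually_ge_atTop Λ] with r hr hrΛ
  have hr1 : 1 ≤ r := hΛ1.trans hrΛ
  have hr0 : 0 < r := by linarith
  have hsplit : Ico 1 r ⊆ Ico 1 Λ ∪ Ico Λ r := by
    intro x hx
    rcases lt_or_ge x Λ with h | h
    · exact Or.inl ⟨hx.1, h⟩
    · exact Or.inr ⟨h, hx.2⟩
  calc ∫⁻ lam in Ico 1 r, ENNReal.ofReal (Real.log (r / lam)) * E lam
      ≤ ∫⁻ lam in Ico 1 Λ ∪ Ico Λ r, ENNReal.ofReal (Real.log (r / lam)) * E lam :=
        lintegral_mono_set hsplit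
    _ ≤ (∫⁻ lam in Ico 1 Λ, ENNReal.ofReal (Real.log (r / lam)) * E lam) +
          ∫⁻ lam in Ico Λ r, ENNReal.ofReal (Real.log (r / lam)) * E lam :=
        lintegral_union_le _ _ _
    _ ≤ ENNReal.ofReal ((C' : ℝ) * Λ * Real.log r) + ENNReal.ofReal ((ε / 2) * r) := by
        gcongr
        · calc ∫⁻ lam in Ico 1 Λ, ENNReal.ofReal (Real.log (r / lam)) * E lam
              ≤ ∫⁻ _ in Ico 1 Λ, ENNReal.ofReal (Real.log r) * C' := by
                apply setLIntegral_mono' measurableSet_Ico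
                intro lam hlam
                have h1 : 0 < lam := by linarith [hlam.1]
                have h2 : Real.log (r / lam) ≤ Real.log r := by
                  apply Real.log_le_log (by positivity)
                  exact div_le_self hr0.le hlam.1
                have h3 := hEb lam hlam.1
                gcongr
            _ = ENNReal.ofReal (Real.log r) * C' * ENNReal.ofReal (Λ - 1) := by
                rw [setLIntegral_const, Real.volume_Ico]
            _ ≤ ENNReal.ofReal ((C' : ℝ) * Λ * Real.log r) := by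
                have h4 : (C' : ENNReal) = ENNReal.ofReal (C' : ℝ) := by simp
                have h5 := Real.log_nonneg hr1
                rw [h4, ← ENNReal.ofReal_mul h5, ← ENNReal.ofReal_mul (by positivity)]
                apply ENNReal.ofReal_le_ofReal
                have h6 : Real.log r * (C' : ℝ) * (Λ - 1) ≤ Real.log r * (C' : ℝ) * Λ := by
                  gcongr
                  linarith
                linarith
        · calc ∫⁻ lam in Ico Λ r, ENNReal.ofReal (Real.log (r / lam)) * E lam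
              ≤ ∫⁻ lam in Ico Λ r, ENNReal.ofReal (ε / 2) *
                  ENNReal.ofReal (Real.log (r / lam)) := by
                apply setLIntegral_mono' measurableSet_Ico
                intro lam hlam
                rw [mul_comm]
                gcongr
                exact hΛ₀ lam ((le_max_left _ _).trans hlam.1)
            _ ≤ ∫⁻ lam in Ico 1 r, ENNReal.ofReal (ε / 2) *
                  ENNReal.ofReal (Real.log (r / lam)) := by
                apply lintegral_mono_set
                exact Ico_subset_Ico_left hΛ1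
            _ = ENNReal.ofReal (ε / 2) *
                  ∫⁻ lam in Ico 1 r, ENNReal.ofReal (Real.log (r / lam)) := by
                rw [lintegral_const_mul' _ _ ENNReal.ofReal_ne_top]
            _ ≤ ENNReal.ofReal (ε / 2) * ENNReal.ofReal r := by
                gcongr
                exact lintegral_log_le hr1
            _ = _ := by rw [← ENNReal.ofReal_mul (by positivity)]
    _ ≤ ENNReal.ofReal ((ε / 2) * r) + ENNReal.ofReal ((ε / 2) * r) := by
        gcongr
    _ = ENNReal.ofReal (ε * r) := by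
        rw [← ENNReal.ofReal_add (by positivity) (by positivity)]
        congr 1
        ring

lemma measurable_eS {K H : Set (V d × ℝ)} (h : Pair K H) {κ : ℝ → ℝ} (hκ : Continuous κ) :
    Measurable (fun q : V d × ℝ => eS κ K H q.1 q.2) :=
  (measurable_eW h.bK.compact h.upK h.dnK hκ).add (measurable_eW h.bH.compact h.upH h.dnH hκ)

lemma measurable_Ups {K H : Set (V d × ℝ)} (h : Pair K H) {κ : ℝ → ℝ} (hκ : Continuous κ)
    (C r : ℝ) : Measurable (fun σ : V d => Ups C (eS κ K H σ) r) := by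
  unfold Ups
  apply Measurable.const_add
  apply Measurable.const_mul
  apply Measurable.lintegral_prod_right'
    (f := fun q : V d × ℝ => ENNReal.ofReal (Real.log (r / q.2)) * (eS κ K H q.1 q.2) ^ 2)
  apply Measurable.mul
  · apply ENNReal.measurable_ofReal.comp
    apply Real.measurable_log.comp
    exact measurable_const.div measurable_snd
  · exact (measurable_eS h hκ).pow_const 2

lemma ennreal_add_sq_le (a b : ENNReal) : (a + b) ^ 2 ≤ 2 * a ^ 2 + 2 * b ^ 2 := by
  rcases eq_or_ne a ⊤ with rfl | ha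
  · simp
  rcases eq_or_ne b ⊤ with rfl | hb
  · simp
  lift a to NNReal using ha
  lift b to NNReal using hb
  norm_cast
  have h1 : ((a : ℝ) + b) ^ 2 ≤ 2 * (a : ℝ) ^ 2 + 2 * (b : ℝ) ^ 2 := by
    nlinarith [sq_nonneg ((a : ℝ) - b)]
  exact_mod_cast h1

/-- Averages of `Ups` are small. -/
lemma ups_avg {K H : Set (V d × ℝ)} (h : Pair K H) {κ : ℝ → ℝ} (hκc : Continuous κ)
    (hκ0 : ∀ x, 0 ≤ κ x) (hκd : ∀ N : ℕ, ∃ C : ℝ, ∀ x, (1 + |x|) ^ N * κ x ≤ C)
    {C : ℝ} (hC : 0 ≤ C) {B : Set (V d)} (hB : IsCompact B) {ε : ℝ} (hε : 0 < ε) :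
    ∀ᶠ r in atTop, ∫⁻ σ in B, Ups C (eS κ K H σ) r ≤ ENNReal.ofReal (ε * r) := by
  obtain ⟨hK1, CK, hK2⟩ := eW_avg h.bK.compact h.upK h.dnK h.aK hB.isBounded hB.measurableSet
    hκc hκ0 hκd
  obtain ⟨hH1, CH, hH2⟩ := eW_avg h.bH.compact h.upH h.dnH h.aH hB.isBounded hB.measurableSet
    hκc hκ0 hκd
  set E : ℝ → ENNReal := fun lam => ∫⁻ σ in B, (eS κ K H σ lam) ^ 2 with hE
  have hEle : ∀ lam, E lam ≤ 2 * (∫⁻ σ in B, (eW κ K σ lam) ^ 2) +
      2 * (∫⁻ σ in B, (eW κ H σ lam) ^ 2) := by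
    intro lam
    have hm : Measurable (fun σ : V d => 2 * (eW κ H σ lam) ^ 2) := by
      have h1 : Measurable (fun σ : V d => eW κ H σ lam) :=
        (measurable_eW h.bH.compact h.upH h.dnH hκc).comp (f := fun σ : V d => (σ, lam))
          (by fun_prop)
      exact (h1.pow_const 2).const_mul 2
    calc E lam ≤ ∫⁻ σ in B, (2 * (eW κ K σ lam) ^ 2 + 2 * (eW κ H σ lam) ^ 2) := by
          apply lintegral_mono
          intro σ
          exact ennreal_add_sq_le _ _
      _ = _ := by
          rw [lintegral_add_right _ hm, lintegral_const_mul' _ _ (by simp),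
            lintegral_const_mul' _ _ (by simp)]
  have hEt : Tendsto E atTop (𝓝 0) := by
    have h1 := (ENNReal.Tendsto.const_mul (a := 2) hK1 (Or.inr (by simp))).add
      (ENNReal.Tendsto.const_mul (a := 2) hH1 (Or.inr (by simp)))
    simp only [mul_zero, add_zero] at h1
    exact tendsto_of_tendsto_of_tendsto_of_le_of_le tendsto_const_nhds h1
      (fun _ => zero_le) hEle
  have hEb : ∀ lam, 1 ≤ lam → E lam ≤ ((2 * CK + 2 * CH : NNReal) : ENNReal) := by
    intro lam hlam
    refine (hEle lam).trans ?_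
    push_cast
    gcongr
    · exact hK2 lam hlam
    · exact hH2 lam hlam
  have hvol : volume B ≠ ⊤ := hB.measure_lt_top.ne
  set ε₁ : ℝ := ε / (2 * (C + 1)) with hε₁
  have hε₁0 : 0 < ε₁ := by positivity
  have hlog : ∀ᶠ r : ℝ in atTop, C * (1 + Real.log r) * (volume B).toReal ≤ (ε / 2) * r := by
    have h1 : Tendsto (fun r : ℝ => Real.log r / r) atTop (𝓝 0) := by
      have := Real.isLittleO_log_id_atTop.tendsto_div_nhds_zero
      simpa using this
    have h2 : Tendsto (fun r : ℝ => 1 / r) atTop (𝓝 0) := by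
      simpa using tendsto_inv_atTop_zero
    have h3 := ((h2.add h1).const_mul (C * (volume B).toReal))
    rw [add_zero, mul_zero] at h3
    filter_upwards [h3.eventually_lt_const (by linarith : 0 < ε / 2),
      eventually_gt_atTop 0] with r hr hr0
    have h4 : C * (volume B).toReal * (1 / r + Real.log r / r) * r ≤ ε / 2 * r := by gcongr
    calc C * (1 + Real.log r) * (volume B).toReal =
        C * (volume B).toReal * (1 / r + Real.log r / r) * r := by field_simp
      _ ≤ _ := h4
  filter_upwards [avg_small hEt hEb hε₁0, hlog, eventually_ge_atTop 1] with r hr1 hr2 hr3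
  have hlogr := Real.log_nonneg hr3
  have hswap : ∫⁻ σ in B, ∫⁻ lam in Ico 1 r, ENNReal.ofReal (Real.log (r / lam)) *
      (eS κ K H σ lam) ^ 2 = ∫⁻ lam in Ico 1 r, ENNReal.ofReal (Real.log (r / lam)) * E lam := by
    have hmeas : Measurable (fun q : V d × ℝ =>
        ENNReal.ofReal (Real.log (r / q.2)) * (eS κ K H q.1 q.2) ^ 2) := by
      apply Measurable.mul
      · apply ENNReal.measurable_ofReal.comp
        apply Real.measurable_log.comp
        exact measurable_const.div measurable_snd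
      · exact (measurable_eS h hκc).pow_const 2
    rw [lintegral_lintegral_swap hmeas.aemeasurable]
    apply lintegral_congr
    intro lam
    rw [lintegral_const_mul' _ _ ENNReal.ofReal_ne_top]
  have hm2 : Measurable (fun σ : V d => ENNReal.ofReal C * ∫⁻ lam in Ico 1 r,
      ENNReal.ofReal (Real.log (r / lam)) * (eS κ K H σ lam) ^ 2) := by
    apply Measurable.const_mul
    apply Measurable.lintegral_prod_right'
      (f := fun q : V d × ℝ => ENNReal.ofReal (Real.log (r / q.2)) * (eS κ K H q.1 q.2) ^ 2)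
    apply Measurable.mul
    · apply ENNReal.measurable_ofReal.comp
      apply Real.measurable_log.comp
      exact measurable_const.div measurable_snd
    · exact (measurable_eS h hκc).pow_const 2
  calc ∫⁻ σ in B, Ups C (eS κ K H σ) r
      = ENNReal.ofReal (C * (1 + Real.log r)) * volume B + ENNReal.ofReal C *
          ∫⁻ lam in Ico 1 r, ENNReal.ofReal (Real.log (r / lam)) * E lam := by
        unfold Ups
        rw [lintegral_add_right _ hm2, setLIntegral_const,
          lintegral_const_mul' _ _ ENNReal.ofReal_ne_top, hswap]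
    _ ≤ ENNReal.ofReal ((ε / 2) * r) + ENNReal.ofReal C * ENNReal.ofReal (ε₁ * r) := by
        gcongr
        rw [← ENNReal.ofReal_toReal hvol, ← ENNReal.ofReal_mul (by positivity)]
        exact ENNReal.ofReal_le_ofReal hr2
    _ ≤ ENNReal.ofReal ((ε / 2) * r) + ENNReal.ofReal ((ε / 2) * r) := by
        gcongr
        rw [← ENNReal.ofReal_mul hC]
        apply ENNReal.ofReal_le_ofReal
        have h5 : C * ε₁ ≤ ε / 2 := by
          rw [hε₁]
          have : C * (ε / (2 * (C + 1))) = (ε / 2) * (C / (C + 1)) := by field_simp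
          rw [this]
          have h6 : C / (C + 1) ≤ 1 := by
            rw [div_le_one (by linarith)]; linarith
          calc (ε / 2) * (C / (C + 1)) ≤ (ε / 2) * 1 := by gcongr
            _ = ε / 2 := mul_one _
        calc C * (ε₁ * r) = C * ε₁ * r := by ring
          _ ≤ ε / 2 * r := by gcongr
    _ = ENNReal.ofReal (ε * r) := by
        rw [← ENNReal.ofReal_add (by positivity) (by positivity)]
        congr 1
        ring

end Pool.Agent.Helper77.Cov
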