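import Pool.Agent.Helper77.Cov.NoMix

/-!
# No mixing of types, final argument
-/

open Metric Set MeasureTheory Complex Filter Topology

namespace Pool.Agent.Helper77.Cov

variable {d : ℕ}

/-- The statement of Module A. -/
def HankelProp : Prop :=
  ∀ (G₁ G₂ : ℂ → ℂ → ℂ) (R₀ : ℝ), 1 < R₀ →
    DifferentiableOn ℂ (fun p : ℂ × ℂ => G₁ p.1 p.2) (Metric.ball (0 : ℂ) R₀ ×ˢ univ) →
    DifferentiableOn ℂ (fun p : ℂ × ℂ => G₂ p.1 p.2) (Metric.ball (0 : ℂ) R₀ ×ˢ univ) →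
    (∀ s ∈ Metric.ball (0 : ℂ) R₀, G₂ s 0 ≠ 0) →
    ∀ r : ℝ, 0 < r → ∀ Z : Finset ℂ,
    (∀ z ∈ Z, ‖z‖ < r ∧ G₂ 0 z = 0 ∧ deriv (G₂ 0) z ≠ 0 ∧ G₁ 0 z ≠ 0) →
    ∀ B : ℝ → ENNReal, Measurable B →
    (∀ θ : ℝ, PoleData (G₁ (Complex.exp (θ * Complex.I))) (G₂ (Complex.exp (θ * Complex.I)))
      r (B θ)) →
    ENNReal.ofReal (∑ z ∈ Z, Real.log (r / ‖z‖)) ≤
      ENNReal.ofReal (1 / (2 * Real.pi)) * ∫⁻ θ in Ioc (-Real.pi) Real.pi, B θ

lemma F2_zero_left (K : Set (V d × ℝ)) (L₁ : (V d × ℝ) →L[ℝ] ℂ) (σ : V d) (b : ℂ) :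
    F2 K L₁ (ell σ) (0, b) = fT K σ b := by
  unfold fT F2
  congr 1
  ext p
  rw [ell_apply, zero_mul, zero_add, mul_assoc]

/-- On the circle. -/
lemma F2_circle (K : Set (V d × ℝ)) (σA σc : V d) {k : ℝ} (hk : |k| < 1) (θ : ℝ) (z : ℂ) :
    F2 K (ell σA) (ell σc) (z * (2 * Complex.exp (θ * Complex.I)),
      z * (k * (1 + Complex.exp (θ * Complex.I) ^ 2))) =
    fT K ((1 + k * Real.cos θ)⁻¹ • (σA + (k * Real.cos θ) • σc))
      (2 * Complex.exp (θ * Complex.I) * ((1 + k * Real.cos θ : ℝ) : ℂ) * z) := by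
  unfold fT F2
  congr 1
  ext p
  congr 1
  rw [ell_apply, ell_apply]
  set s := Complex.exp (θ * Complex.I) with hs
  have hs2 : 1 + s ^ 2 = 2 * s * (Real.cos θ : ℝ) := by
    rw [hs, Complex.ofReal_cos, Complex.cos]
    have h1 : Complex.exp (θ * Complex.I) * Complex.exp (-θ * Complex.I) = 1 := by
      rw [← Complex.exp_add]; simp
    linear_combination -h1
  rw [hs2]
  have hne : (1 + k * Real.cos θ) ≠ 0 := by
    have h1 : |k * Real.cos θ| < 1 := by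
      rw [abs_mul]
      calc |k| * |Real.cos θ| ≤ |k| * 1 := by gcongr; exact Real.abs_cos_le_one θ
        _ < 1 := by linarith
    have := (abs_lt.1 h1).1
    linarith
  have h2 : (inner ℝ ((1 + k * Real.cos θ)⁻¹ • (σA + (k * Real.cos θ) • σc)) p.1 + p.2 : ℝ) =
      (1 + k * Real.cos θ)⁻¹ * ((inner ℝ σA p.1 + p.2) + (k * Real.cos θ) *
        (inner ℝ σc p.1 + p.2)) := by
    rw [real_inner_smul_left, inner_add_left, real_inner_smul_left]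
    field_simp
    ring
  rw [h2]
  have hne' : ((1 + k * Real.cos θ : ℝ) : ℂ) ≠ 0 := by exact_mod_cast hne
  have h3 : (((1 + k * Real.cos θ)⁻¹ * ((inner ℝ σA p.1 + p.2) + (k * Real.cos θ) *
        (inner ℝ σc p.1 + p.2)) : ℝ) : ℂ) = ((1 + k * Real.cos θ : ℝ) : ℂ)⁻¹ *
        ((inner ℝ σA p.1 + p.2 : ℝ) + (k * (Real.cos θ : ℝ)) *
        ((inner ℝ σc p.1 + p.2 : ℝ) : ℂ)) := by
    push_cast
    ring
  rw [h3]
  field_simp

lemma exists_small {s : Set (V d)} (hs0 : volume s ≠ 0) (hsf : volume s ≠ ⊤)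
    {f : V d → ENNReal} (hf : Measurable f) {M : ENNReal} (h : ∫⁻ σ in s, f σ ≤ M) :
    ∃ σ ∈ s, f σ * volume s ≤ M := by
  obtain ⟨σ, hσ, hle⟩ := exists_le_setLAverage hs0 hsf (hf.aemeasurable (μ := volume.restrict s))
  refine ⟨σ, hσ, ?_⟩
  rw [setLAverage_eq] at hle
  have h1 : f σ * volume s ≤ (∫⁻ a in s, f a) / volume s * volume s := by gcongr
  rw [ENNReal.div_mul_cancel hs0 hsf] at h1
  exact h1.trans h

lemma lintegral_affine_le {G : V d → ENNReal} (hG : Measurable G) {s t : Set (V d)}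
    (hs : MeasurableSet s) (ht : MeasurableSet t) {a : ℝ} (ha : 1 / 2 ≤ a) (b : V d)
    (hmap : ∀ σ ∈ s, a • σ + b ∈ t) :
    ∫⁻ σ in s, G (a • σ + b) ≤ ENNReal.ofReal (2 ^ d) * ∫⁻ σ in t, G σ := by
  have ha0 : 0 < a := by linarith
  set Gt : V d → ENNReal := t.indicator G with hGt
  have hGtm : Measurable Gt := hG.indicator ht
  have h1 : ∫⁻ σ in s, G (a • σ + b) ≤ ∫⁻ σ, Gt (a • σ + b) := by
    calc ∫⁻ σ in s, G (a • σ + b) = ∫⁻ σ in s, Gt (a • σ + b) := by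
          apply setLIntegral_congr_fun hs
          intro σ hσ
          simp only [hGt]
          rw [indicator_of_mem (hmap σ hσ)]
      _ ≤ _ := setLIntegral_le_lintegral _ _
  have h2 : ∫⁻ σ, Gt (a • σ + b) = ∫⁻ σ, Gt (a • σ) := by
    have h3 : ∀ σ : V d, a • σ + b = a • (σ + a⁻¹ • b) := by
      intro σ
      rw [smul_add, smul_smul, mul_inv_cancel₀ ha0.ne', one_smul]
    simp only [h3]
    exact lintegral_add_right_eq_self (fun σ => Gt (a • σ)) (a⁻¹ • b)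
  have h3 : ∫⁻ σ, Gt (a • σ) = ENNReal.ofReal |(a ^ d)⁻¹| * ∫⁻ σ, Gt σ := by
    have h4 := Measure.map_addHaar_smul (volume : Measure (V d)) ha0.ne'
    rw [finrank_euclideanSpace_fin] at h4
    have h5 : ∫⁻ σ, Gt (a • σ) = ∫⁻ σ, Gt σ ∂(Measure.map (fun x : V d => a • x) volume) := by
      rw [lintegral_map hGtm (measurable_const_smul a)]
    rw [h5]
    have h6 : (Measure.map (fun x : V d => a • x) volume) =
        ENNReal.ofReal |(a ^ d)⁻¹| • (volume : Measure (V d)) := h4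
    rw [h6, lintegral_smul_measure, smul_eq_mul]
  have h4 : ∫⁻ σ, Gt σ = ∫⁻ σ in t, G σ := by
    rw [hGt, lintegral_indicator ht]
  rw [h2, h3, h4] at h1
  refine h1.trans ?_
  gcongr
  rw [abs_of_nonneg (by positivity), ← inv_pow]
  have : a⁻¹ ≤ 2 := by
    rw [inv_le_comm₀ ha0 (by norm_num)]
    linarith
  gcongr

/-- Pointwise data from the counting theorem. -/
lemma pointwise_data {K H : Set (V d × ℝ)} (h : Pair K H) {B : Set (V d)} (hB : IsCompact B)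
    (hne : ∀ σ ∈ B, pU H σ ≠ qU H σ) :
    ∃ (κ : ℝ → ℝ) (C c₁ : ℝ), Continuous κ ∧ (∀ x, 0 ≤ κ x) ∧
      (∀ N : ℕ, ∃ C : ℝ, ∀ x, (1 + |x|) ^ N * κ x ≤ C) ∧ 0 ≤ C ∧ 0 < c₁ ∧
      ∀ σ ∈ B, ∀ r : ℝ, 1 ≤ r →
      ((pU K σ = pU H σ ∧ qU K σ = qU H σ) →
        PoleData (fT K σ) (fT H σ) r (Ups C (eS κ K H σ) r)) ∧
      ((pU K σ = qU H σ ∧ qU K σ = pU H σ) → ∃ Z : Finset ℂ, (∀ z ∈ Z, ‖z‖ < r ∧
        fT H σ z = 0 ∧ deriv (fT H σ) z ≠ 0 ∧ fT K σ z ≠ 0) ∧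
        ENNReal.ofReal (c₁ * r) ≤
          ENNReal.ofReal (∑ z ∈ Z, Real.log (r / ‖z‖)) + Ups C (eS κ K H σ) r) := by
  obtain ⟨R, w₀, p₀, P₀, hR, hw₀, hp₀, hP₀, hbd⟩ := exists_bounds h hB
  -- lower bound for the logarithm
  obtain ⟨η, hη, hηle⟩ : ∃ η, 0 < η ∧ ∀ σ ∈ B, η ≤ |Real.log (qU H σ / pU H σ)| := by
    rcases B.eq_empty_or_nonempty with rfl | hBne
    · exact ⟨1, one_pos, by simp⟩
    · have hc : ContinuousOn (fun σ => |Real.log (qU H σ / pU H σ)|) B := by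
        apply Continuous.continuousOn
        apply Continuous.abs
        apply Continuous.log
        · exact (continuous_qU h.dnH).div (continuous_pU h.upH)
            (fun σ => (pU_pos h.upH σ).ne')
        · intro σ
          exact (div_pos (qU_pos h.dnH σ) (pU_pos h.upH σ)).ne'
      obtain ⟨σ₀, hσ₀, hmin⟩ := hB.exists_isMinOn hBne hc
      refine ⟨|Real.log (qU H σ₀ / pU H σ₀)|, ?_, fun σ hσ => hmin hσ⟩
      apply abs_pos.2
      have hp := pU_pos h.upH σ₀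
      have hq := qU_pos h.dnH σ₀
      have : qU H σ₀ / pU H σ₀ ≠ 1 := by
        intro h1
        rw [div_eq_one_iff_eq hp.ne'] at h1
        exact hne σ₀ hσ₀ h1.symm
      exact Real.log_ne_zero_of_pos_of_ne_one (div_pos hq hp) this
  have hφ : 0 ≤ Real.pi * d / 4 := by positivity
  obtain ⟨δ, T, C, hδ, hT, hC, hcount⟩ := count_main (P₀ := P₀) hR hw₀ hp₀ hη hφ
  obtain ⟨κ, hκc, hκ0, hκd, hκ⟩ := exists_kernel hT hR
  refine ⟨κ, C, w₀ / (2 * Real.pi), hκc, hκ0, hκd, hC, by positivity, ?_⟩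
  intro σ hσ r hr
  obtain ⟨hWK, hWH, hℓK, hℓH⟩ := hbd σ hσ
  refine hcount (pU K σ) (qU K σ) (Hup K σ) (Hdn K σ) (pU H σ) (qU H σ) (Hup H σ) (Hdn H σ)
    hWK hWH (hηle σ hσ) (fT K σ) (fT H σ) (dirData h σ) (nrm d) (eS κ K H σ)
    (fun lam hlam => nrm_pos (by linarith)) ?_ r hr
  intro lam hlam hle z hz
  have h1 : eW κ K σ lam ≤ ENNReal.ofReal δ := le_trans le_self_add hle
  have h2 : eW κ H σ lam ≤ ENNReal.ofReal δ := le_trans le_add_self hle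
  have h3 := (window_bound h.bK.compact hκ hℓK hWK.hhp hWK.hhm lam hz).trans h1
  have h4 := (window_bound h.bH.compact hκ hℓH hWH.hhp hWH.hhm lam hz).trans h2
  rw [← ofReal_norm, ENNReal.ofReal_le_ofReal_iff hδ.le] at h3 h4
  exact ⟨h3, h4⟩

/-- The family of real directions on the circle. -/
noncomputable def dirF (k : ℝ) (σc σA : V d) (θ : ℝ) : V d :=
  (1 + k * Real.cos θ)⁻¹ • (σA + (k * Real.cos θ) • σc)

lemma abs_kcos_le {k : ℝ} (hk0 : 0 < k) (θ : ℝ) : |k * Real.cos θ| ≤ k := by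
  rw [abs_mul, abs_of_pos hk0]
  calc k * |Real.cos θ| ≤ k * 1 := by gcongr; exact Real.abs_cos_le_one θ
    _ = k := mul_one _

lemma half_le_kcos {k : ℝ} (hk0 : 0 < k) (hk1 : k ≤ 1 / 2) (θ : ℝ) :
    1 / 2 ≤ 1 + k * Real.cos θ := by
  have := (abs_le.1 (abs_kcos_le hk0 θ)).1
  linarith

lemma kcos_le_two {k : ℝ} (hk0 : 0 < k) (hk1 : k ≤ 1 / 2) (θ : ℝ) :
    1 + k * Real.cos θ ≤ 2 := by
  have := (abs_le.1 (abs_kcos_le hk0 θ)).2
  linarith

lemma dirF_mem {k ρ : ℝ} (hk0 : 0 < k) (hk1 : k ≤ 1 / 2) {σ₁ σ₂ σA σc : V d}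
    (hρ : 0 < ρ) (hk2 : k * (2 * (‖σ₁‖ + ‖σ₂‖ + 2 * ρ + 1)) ≤ ρ)
    (hσA : σA ∈ ball σ₁ ρ) (hσc : σc ∈ ball σ₂ ρ) (θ : ℝ) :
    dirF k σc σA θ ∈ closedBall σ₁ (2 * ρ) := by
  set D : ℝ := ‖σ₁‖ + ‖σ₂‖ + 2 * ρ + 1 with hD
  have hD0 : 0 < D := by positivity
  rw [mem_closedBall, dist_eq_norm]
  have h3 : ‖σA - σ₁‖ < ρ := by rwa [mem_ball, dist_eq_norm] at hσA
  have h4 : ‖σc - σ₂‖ < ρ := by rwa [mem_ball, dist_eq_norm] at hσc
  have hp := half_le_kcos hk0 hk1 θ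
  have hp0 : (1 + k * Real.cos θ) ≠ 0 := by linarith
  have h5 : dirF k σc σA θ - σ₁ = (σA - σ₁) +
      ((1 + k * Real.cos θ)⁻¹ * (k * Real.cos θ)) • (σc - σA) := by
    unfold dirF
    have h6 : σA = ((1 + k * Real.cos θ)⁻¹ * (1 + k * Real.cos θ)) • σA := by
      rw [inv_mul_cancel₀ hp0, one_smul]
    have h7 : (1 + k * Real.cos θ)⁻¹ • (σA + (k * Real.cos θ) • σc) =
        ((1 + k * Real.cos θ)⁻¹ * (1 + k * Real.cos θ)) • σA +
        ((1 + k * Real.cos θ)⁻¹ * (k * Real.cos θ)) • (σc - σA) := by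
      module
    rw [h7, ← h6]
    abel
  rw [h5]
  have h6 : ‖((1 + k * Real.cos θ)⁻¹ * (k * Real.cos θ)) • (σc - σA)‖ ≤ 2 * k * D := by
    rw [norm_smul, Real.norm_eq_abs, abs_mul]
    have h7 : |(1 + k * Real.cos θ)⁻¹| ≤ 2 := by
      rw [abs_of_pos (by positivity), inv_le_comm₀ (by linarith) (by norm_num)]
      linarith
    have h8 : ‖σc - σA‖ ≤ D := by
      have h9 : σc - σA = (σc - σ₂) + σ₂ - (σA - σ₁) - σ₁ := by abel
      rw [h9]
      calc ‖(σc - σ₂) + σ₂ - (σA - σ₁) - σ₁‖ ≤ ‖(σc - σ₂) + σ₂ - (σA - σ₁)‖ + ‖σ₁‖ :=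
            norm_sub_le _ _
        _ ≤ (‖(σc - σ₂) + σ₂‖ + ‖σA - σ₁‖) + ‖σ₁‖ := by gcongr; exact norm_sub_le _ _
        _ ≤ ((‖σc - σ₂‖ + ‖σ₂‖) + ‖σA - σ₁‖) + ‖σ₁‖ := by gcongr; exact norm_add_le _ _
        _ ≤ D := by rw [hD]; linarith
    have h10 := abs_kcos_le hk0 θ
    exact mul_le_mul (mul_le_mul h7 h10 (abs_nonneg _) (by norm_num)) h8 (norm_nonneg _)
      (by positivity)
  calc ‖(σA - σ₁) + ((1 + k * Real.cos θ)⁻¹ * (k * Real.cos θ)) • (σc - σA)‖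
      ≤ ‖σA - σ₁‖ + ‖((1 + k * Real.cos θ)⁻¹ * (k * Real.cos θ)) • (σc - σA)‖ :=
        norm_add_le _ _
    _ ≤ ρ + 2 * k * D := by linarith
    _ ≤ 2 * ρ := by linarith

lemma measurable_dirF (k : ℝ) (σc : V d) :
    Measurable (fun q : V d × ℝ => dirF k σc q.1 q.2) := by
  unfold dirF
  fun_prop

lemma dirF_lintegral {k ρ : ℝ} (hk0 : 0 < k) (hk1 : k ≤ 1 / 2) {σ₁ σc : V d}
    (hmem : ∀ σA ∈ ball σ₁ ρ, ∀ θ, dirF k σc σA θ ∈ closedBall σ₁ (2 * ρ))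
    {U : V d → ENNReal} (hU : Measurable U) {M : ENNReal}
    (hM : ∫⁻ σ in closedBall σ₁ (2 * ρ), U σ ≤ M) :
    ∫⁻ σA in ball σ₁ ρ, ∫⁻ θ in Ioc (-Real.pi) Real.pi, U (dirF k σc σA θ) ≤
      ENNReal.ofReal (2 ^ d) * M * ENNReal.ofReal (2 * Real.pi) := by
  rw [lintegral_lintegral_swap (by
    have : Measurable (fun q : V d × ℝ => U (dirF k σc q.1 q.2)) :=
      hU.comp (f := fun q : V d × ℝ => dirF k σc q.1 q.2) (measurable_dirF k σc)
    exact this.aemeasurable)]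
  calc ∫⁻ θ in Ioc (-Real.pi) Real.pi, ∫⁻ σA in ball σ₁ ρ, U (dirF k σc σA θ)
      ≤ ∫⁻ θ in Ioc (-Real.pi) Real.pi, ENNReal.ofReal (2 ^ d) * M := by
        apply lintegral_mono
        intro θ
        have hp := half_le_kcos hk0 hk1 θ
        have h3 := lintegral_affine_le hU (s := ball σ₁ ρ) (t := closedBall σ₁ (2 * ρ))
          measurableSet_ball measurableSet_closedBall (a := (1 + k * Real.cos θ)⁻¹)
          (by
            rw [one_div]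
            exact inv_anti₀ (by linarith) (kcos_le_two hk0 hk1 θ))
          ((1 + k * Real.cos θ)⁻¹ • ((k * Real.cos θ) • σc)) (by
            intro σ hσ
            rw [← smul_add]
            exact hmem σ hσ θ)
        have h4 : ∀ σA : V d, (1 + k * Real.cos θ)⁻¹ • σA +
            (1 + k * Real.cos θ)⁻¹ • ((k * Real.cos θ) • σc) = dirF k σc σA θ := by
          intro σA
          rw [← smul_add, dirF]
        simp only [h4] at h3
        exact h3.trans (mul_le_mul_right hM _)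
    _ = _ := by
        rw [setLIntegral_const, Real.volume_Ioc]
        congr 2
        ring

/-- The submean inequality on the circle. -/
lemma circle_hankel (hA : HankelProp) {K H : Set (V d × ℝ)} (hK : IsCompact K)
    (hH : IsCompact H) (hvol : (volume H).toReal ≠ 0) {σA σc : V d} {k : ℝ} (hk0 : 0 < k)
    (hk1 : k ≤ 1 / 2) {r : ℝ} (hr0 : 0 < r) {Z₀ : Finset ℂ}
    (hZ₀ : ∀ z ∈ Z₀, ‖z‖ < k * r ∧ fT H σc z = 0 ∧ deriv (fT H σc) z ≠ 0 ∧ fT K σc z ≠ 0)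
    {B : ℝ → ENNReal} (hB : Measurable B)
    (hdata : ∀ θ, PoleData (fT K (dirF k σc σA θ)) (fT H (dirF k σc σA θ)) (4 * r) (B θ)) :
    ENNReal.ofReal (∑ z ∈ Z₀, Real.log (k * r / ‖z‖)) ≤
      ENNReal.ofReal (1 / (2 * Real.pi)) * ∫⁻ θ in Ioc (-Real.pi) Real.pi, B θ := by
  classical
  have hkabs : |k| < 1 := by rw [abs_of_pos hk0]; linarith
  set G : Set (V d × ℝ) → ℂ → ℂ → ℂ := fun K s z =>
    F2 K (ell σA) (ell σc) (z * (2 * s), z * (k * (1 + s ^ 2))) with hG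
  have hkc : (k : ℂ) ≠ 0 := by exact_mod_cast hk0.ne'
  have hGc : ∀ K : Set (V d × ℝ), ∀ z, G K 0 z = fT K σc (k * z) := by
    intro K z
    simp only [hG]
    have : (z * (2 * 0), z * ((k : ℂ) * (1 + 0 ^ 2))) = ((0 : ℂ), (k : ℂ) * z) := by
      ext <;> simp [mul_comm]
    rw [this, F2_zero_left]
  have hGdiff : ∀ K : Set (V d × ℝ), IsCompact K →
      DifferentiableOn ℂ (fun p : ℂ × ℂ => G K p.1 p.2) (Metric.ball (0 : ℂ) 2 ×ˢ univ) := by
    intro K hK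
    apply Differentiable.differentiableOn
    have h3 : Differentiable ℂ (fun p : ℂ × ℂ =>
        ((p.2 * (2 * p.1), p.2 * ((k : ℂ) * (1 + p.1 ^ 2))) : ℂ × ℂ)) := by fun_prop
    exact (differentiable_F2 hK (ell σA) (ell σc)).comp h3
  set Z : Finset ℂ := Z₀.image (fun z => z / k) with hZ
  have hinj : Set.InjOn (fun z : ℂ => z / (k : ℂ)) Z₀ := by
    intro z _ z' _ hzz
    simp only at hzz
    field_simp at hzz
    exact hzz
  have hsumZ : ∑ z ∈ Z, Real.log (r / ‖z‖) = ∑ z ∈ Z₀, Real.log (k * r / ‖z‖) := by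
    rw [hZ, Finset.sum_image hinj]
    apply Finset.sum_congr rfl
    intro z hz
    congr 1
    rw [norm_div, Complex.norm_real, Real.norm_eq_abs, abs_of_pos hk0]
    rcases eq_or_ne ‖z‖ 0 with h3 | h3
    · rw [h3]; simp
    · field_simp
  rw [← hsumZ]
  refine hA (G K) (G H) 2 (by norm_num) (hGdiff K hK) (hGdiff H hH) ?_ r hr0 Z ?_ B hB ?_
  · intro s _
    simp only [hG, zero_mul]
    have : F2 H (ell σA) (ell σc) (0, 0) = ((volume H).toReal : ℂ) := by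
      rw [F2_zero_left, fT_zero]
    rw [this]
    exact_mod_cast hvol
  · intro z hz
    obtain ⟨z₀, hz₀, rfl⟩ := Finset.mem_image.1 hz
    obtain ⟨a1, a2, a3, a4⟩ := hZ₀ z₀ hz₀
    have hkz : (k : ℂ) * (z₀ / k) = z₀ := by field_simp
    refine ⟨?_, ?_, ?_, ?_⟩
    · rw [norm_div, Complex.norm_real, Real.norm_eq_abs, abs_of_pos hk0, div_lt_iff₀ hk0]
      linarith
    · rw [hGc, hkz]; exact a2
    · have h3 : HasDerivAt (G H 0) (deriv (fT H σc) z₀ * k) (z₀ / k) := by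
        have h4 : HasDerivAt (fT H σc) (deriv (fT H σc) z₀) ((k : ℂ) * (z₀ / k)) := by
          rw [hkz]
          exact (differentiable_fT hH σc z₀).hasDerivAt
        have h5 : HasDerivAt (fun z : ℂ => (k : ℂ) * z) (k : ℂ) (z₀ / k) := by
          simpa using (hasDerivAt_id (z₀ / (k : ℂ))).const_mul (k : ℂ)
        have h6 := h4.comp (z₀ / (k : ℂ)) h5
        have h7 : G H 0 = (fT H σc) ∘ (fun z : ℂ => (k : ℂ) * z) := by
          ext z; exact hGc H z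
        rw [h7]
        exact h6
      rw [h3.deriv]
      exact mul_ne_zero a3 hkc
    · rw [hGc, hkz]; exact a4
  · intro θ
    have hp := half_le_kcos hk0 hk1 θ
    have hle := kcos_le_two hk0 hk1 θ
    set cc : ℂ := 2 * Complex.exp (θ * Complex.I) * ((1 + k * Real.cos θ : ℝ) : ℂ) with hcc
    have hccn : ‖cc‖ = 2 * (1 + k * Real.cos θ) := by
      rw [hcc, norm_mul, norm_mul, Complex.norm_exp_ofReal_mul_I, Complex.norm_real,
        Real.norm_eq_abs, abs_of_pos (by linarith)]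
      simp
    have hcc0 : cc ≠ 0 := by
      rw [← norm_pos_iff, hccn]
      linarith
    have h4 := (hdata θ).shrink (r' := ‖cc‖ * r) (by
      rw [hccn]
      nlinarith)
    have h5 := h4.scale hcc0
    have e1 : ∀ K : Set (V d × ℝ), G K (Complex.exp (θ * Complex.I)) =
        fun z => fT K (dirF k σc σA θ) (cc * z) := by
      intro K
      ext z
      simp only [hG]
      exact F2_circle K σA σc hkabs θ z
    rw [e1, e1]
    exact h5

/-- **No mixing.** -/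
theorem no_mixing (hA : HankelProp) {K H : Set (V d × ℝ)} (h : Pair K H) {σ₁ σ₂ : V d}
    {ρ : ℝ} (hρ : 0 < ρ)
    (h1 : ∀ σ ∈ closedBall σ₁ (2 * ρ), pU K σ = pU H σ ∧ qU K σ = qU H σ ∧ pU H σ ≠ qU H σ)
    (h2 : ∀ σ ∈ closedBall σ₂ ρ, pU K σ = qU H σ ∧ qU K σ = pU H σ ∧ pU H σ ≠ qU H σ) :
    False := by
  have hB₁c : IsCompact (closedBall σ₁ (2 * ρ)) := isCompact_closedBall _ _
  have hB₂c : IsCompact (closedBall σ₂ ρ) := isCompact_closedBall _ _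
  obtain ⟨κ, C, c₁, hκc, hκ0, hκd, hC, hc₁, hdata⟩ := pointwise_data h (hB₁c.union hB₂c) (by
    rintro σ (hσ | hσ)
    · exact (h1 σ hσ).2.2
    · exact (h2 σ hσ).2.2)
  set e := eS κ K H with he
  -- the small parameter
  obtain ⟨k, hk0, hk1, hk2⟩ : ∃ k : ℝ, 0 < k ∧ k ≤ 1 / 2 ∧
      k * (2 * (‖σ₁‖ + ‖σ₂‖ + 2 * ρ + 1)) ≤ ρ := by
    have hD0 : 0 < ‖σ₁‖ + ‖σ₂‖ + 2 * ρ + 1 := by positivity
    refine ⟨min (1 / 2) (ρ / (2 * (‖σ₁‖ + ‖σ₂‖ + 2 * ρ + 1))), by positivity,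
      min_le_left _ _, ?_⟩
    calc _ ≤ ρ / (2 * (‖σ₁‖ + ‖σ₂‖ + 2 * ρ + 1)) * (2 * (‖σ₁‖ + ‖σ₂‖ + 2 * ρ + 1)) := by
          gcongr; exact min_le_right _ _
      _ = ρ := by field_simp
  -- volumes
  have hv₁ : volume (ball σ₁ ρ) ≠ 0 := (measure_ball_pos _ _ hρ).ne'
  have hv₂ : volume (ball σ₂ ρ) ≠ 0 := (measure_ball_pos _ _ hρ).ne'
  have hv₁' : volume (ball σ₁ ρ) ≠ ⊤ := measure_ball_lt_top.ne
  have hv₂' : volume (ball σ₂ ρ) ≠ ⊤ := measure_ball_lt_top.ne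
  obtain ⟨m₁, hm₁0, hm₁⟩ : ∃ m : ℝ, 0 < m ∧ ENNReal.ofReal m = volume (ball σ₁ ρ) :=
    ⟨_, ENNReal.toReal_pos hv₁ hv₁', ENNReal.ofReal_toReal hv₁'⟩
  obtain ⟨m₂, hm₂0, hm₂⟩ : ∃ m : ℝ, 0 < m ∧ ENNReal.ofReal m = volume (ball σ₂ ρ) :=
    ⟨_, ENNReal.toReal_pos hv₂ hv₂', ENNReal.ofReal_toReal hv₂'⟩
  obtain ⟨A, hAdef, hA0⟩ : ∃ A : ℝ, A = 4 * 2 ^ d / m₁ + k / m₂ ∧ 0 < A :=
    ⟨_, rfl, by positivity⟩
  obtain ⟨ε, hε, hε0⟩ : ∃ ε : ℝ, ε = c₁ * k / (2 * A) ∧ 0 < ε := ⟨_, rfl, by positivity⟩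
  -- choose `r`
  have hev₁ := ups_avg h hκc hκ0 hκd hC hB₁c hε0
  have hev₂ := ups_avg h hκc hκ0 hκd hC hB₂c hε0
  have ht4 : Tendsto (fun r : ℝ => 4 * r) atTop atTop :=
    tendsto_id.const_mul_atTop (by norm_num)
  have htk : Tendsto (fun r : ℝ => k * r) atTop atTop := tendsto_id.const_mul_atTop hk0
  obtain ⟨r, hr₁, hr₂, hr4, hrk, hr0⟩ := ((ht4.eventually hev₁).and ((htk.eventually hev₂).and
    ((ht4.eventually_ge_atTop 1).and ((htk.eventually_ge_atTop 1).and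
      (eventually_gt_atTop 0))))).exists
  -- choose `σc`
  have hmU : ∀ r, Measurable (fun σ : V d => Ups C (e σ) r) := fun r => measurable_Ups h hκc C r
  obtain ⟨σc, hσc, hσcle⟩ := exists_small hv₂ hv₂' (hmU (k * r))
    ((lintegral_mono_set ball_subset_closedBall).trans hr₂)
  have hdirB : ∀ σA ∈ ball σ₁ ρ, ∀ θ, dirF k σc σA θ ∈ closedBall σ₁ (2 * ρ) :=
    fun σA hσA θ => dirF_mem hk0 hk1 hρ hk2 hσA hσc θ
  -- choose `σA`
  have hmdir := measurable_dirF (d := d) k σc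
  have hmΦ : Measurable (fun σA : V d => ∫⁻ θ in Ioc (-Real.pi) Real.pi,
      Ups C (e (dirF k σc σA θ)) (4 * r)) := by
    apply Measurable.lintegral_prod_right'
      (f := fun q : V d × ℝ => Ups C (e (dirF k σc q.1 q.2)) (4 * r))
    exact (hmU (4 * r)).comp (f := fun q : V d × ℝ => dirF k σc q.1 q.2) hmdir
  have hΦ := dirF_lintegral hk0 hk1 hdirB (hmU (4 * r)) hr₁
  obtain ⟨σA, hσA, hσAle⟩ := exists_small hv₁ hv₁' hmΦ hΦ
  -- the centre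
  obtain ⟨Z₀, hZ₀, hZ₀sum⟩ := (hdata σc (Or.inr (ball_subset_closedBall hσc)) (k * r) hrk).2
    ⟨(h2 σc (ball_subset_closedBall hσc)).1, (h2 σc (ball_subset_closedBall hσc)).2.1⟩
  have hmBθ : Measurable (fun θ : ℝ => Ups C (e (dirF k σc σA θ)) (4 * r)) :=
    (hmU (4 * r)).comp (f := fun θ : ℝ => dirF k σc σA θ)
      (hmdir.comp (f := fun θ : ℝ => (σA, θ)) (measurable_const.prodMk measurable_id))
  have hmain := circle_hankel hA h.bK.compact h.bH.compact (volume_pos_of_isBody h.bH).ne'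
    hk0 hk1 hr0 hZ₀ hmBθ (by
      intro θ
      have hdB := hdirB σA hσA θ
      exact (hdata (dirF k σc σA θ) (Or.inl hdB) (4 * r) hr4).1
        ⟨(h1 _ hdB).1, (h1 _ hdB).2.1⟩)
  -- conclusion
  have hfin1 : ENNReal.ofReal (1 / (2 * Real.pi)) *
      ∫⁻ θ in Ioc (-Real.pi) Real.pi, Ups C (e (dirF k σc σA θ)) (4 * r) ≤
      ENNReal.ofReal (2 ^ d * (ε * (4 * r)) / m₁) := by
    have h3 : (∫⁻ θ in Ioc (-Real.pi) Real.pi, Ups C (e (dirF k σc σA θ)) (4 * r)) *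
        ENNReal.ofReal m₁ ≤ ENNReal.ofReal (2 ^ d * (ε * (4 * r)) * (2 * Real.pi)) := by
      rw [hm₁, ENNReal.ofReal_mul (by positivity), ENNReal.ofReal_mul (by positivity)]
      exact hσAle
    have h4 : (∫⁻ θ in Ioc (-Real.pi) Real.pi, Ups C (e (dirF k σc σA θ)) (4 * r)) ≤
        ENNReal.ofReal (2 ^ d * (ε * (4 * r)) * (2 * Real.pi)) / ENNReal.ofReal m₁ := by
      rw [ENNReal.le_div_iff_mul_le (Or.inl (by simp [hm₁0])) (Or.inl (by simp))]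
      exact h3
    calc _ ≤ ENNReal.ofReal (1 / (2 * Real.pi)) *
          (ENNReal.ofReal (2 ^ d * (ε * (4 * r)) * (2 * Real.pi)) / ENNReal.ofReal m₁) := by
          gcongr
      _ = _ := by
          rw [← ENNReal.ofReal_div_of_pos hm₁0, ← ENNReal.ofReal_mul (by positivity)]
          congr 1
          field_simp
  have hfin2 : Ups C (e σc) (k * r) ≤ ENNReal.ofReal (ε * (k * r) / m₂) := by
    rw [ENNReal.ofReal_div_of_pos hm₂0,
      ENNReal.le_div_iff_mul_le (Or.inl (by simp [hm₂0])) (Or.inl (by simp)), hm₂]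
    exact hσcle
  have hfin : ENNReal.ofReal (c₁ * (k * r)) ≤
      ENNReal.ofReal (2 ^ d * (ε * (4 * r)) / m₁ + ε * (k * r) / m₂) := by
    rw [ENNReal.ofReal_add (by positivity) (by positivity)]
    exact hZ₀sum.trans (add_le_add (hmain.trans hfin1) hfin2)
  rw [ENNReal.ofReal_le_ofReal_iff (by positivity)] at hfin
  have h3 : 2 ^ d * (ε * (4 * r)) / m₁ + ε * (k * r) / m₂ = ε * A * r := by
    rw [hAdef]; field_simp
  have h4 : ε * A = c₁ * k / 2 := by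
    rw [hε]; field_simp
  rw [h3, h4] at hfin
  have h5 : 0 < c₁ * k * r := by positivity
  linarith

end Pool.Agent.Helper77.Cov
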