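import Pool.Agent.Helper77.Cov.Factor

/-!
# Bookkeeping of poles of a quotient of entire functions
-/

open Metric Set MeasureTheory

namespace Pool.Agent.Helper77.Cov

/-- The poles of `f / g` in the disc of radius `r` are contained in a multiset `W` with
`∑ log (r / |w|) ≤ b`. -/
def PoleData (f g : ℂ → ℂ) (r : ℝ) (b : ENNReal) : Prop :=
  ∃ (W : Multiset ℂ) (E : ℂ → ℂ), (∀ w ∈ W, w ≠ 0 ∧ ‖w‖ < r) ∧
    DifferentiableOn ℂ E (ball 0 r) ∧
    (∀ z ∈ ball (0 : ℂ) r, zprod W z * f z = E z * g z) ∧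
    ENNReal.ofReal ((W.map (fun w => Real.log (r / ‖w‖))).sum) ≤ b

lemma PoleData.mono {f g : ℂ → ℂ} {r : ℝ} {b b' : ENNReal} (h : PoleData f g r b)
    (hb : b ≤ b') : PoleData f g r b' := by
  obtain ⟨W, E, h1, h2, h3, h4⟩ := h
  exact ⟨W, E, h1, h2, h3, h4.trans hb⟩

lemma multiset_sum_nonneg {W : Multiset ℂ} {r : ℝ} (hW : ∀ w ∈ W, w ≠ 0 ∧ ‖w‖ < r) :
    0 ≤ (W.map (fun w => Real.log (r / ‖w‖))).sum := by
  apply Multiset.sum_nonneg
  intro x hx
  obtain ⟨w, hw, rfl⟩ := Multiset.mem_map.1 hx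
  have h := hW w hw
  have h0 : 0 < ‖w‖ := norm_pos_iff.2 h.1
  exact Real.log_nonneg (by rw [le_div_iff₀ h0]; linarith [h.2])

lemma PoleData.shrink {f g : ℂ → ℂ} {r r' : ℝ} {b : ENNReal} (h : PoleData f g r b)
    (hrr : r' ≤ r) : PoleData f g r' b := by
  classical
  obtain ⟨W, E, h1, h2, h3, h4⟩ := h
  set W₁ := W.filter (fun w => ‖w‖ < r') with hW₁
  set W₂ := W.filter (fun w => ¬ ‖w‖ < r') with hW₂
  have hW : W₁ + W₂ = W := Multiset.filter_add_not _ _
  have hne : ∀ z ∈ ball (0 : ℂ) r', zprod W₂ z ≠ 0 := by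
    intro z hz
    apply zprod_ne_zero
    · intro w hw
      exact (h1 w (Multiset.mem_of_mem_filter hw)).1
    · intro hmem
      have := (Multiset.mem_filter.1 hmem).2
      apply this
      simpa using hz
  refine ⟨W₁, fun z => E z / zprod W₂ z, ?_, ?_, ?_, ?_⟩
  · intro w hw
    rw [hW₁, Multiset.mem_filter] at hw
    exact ⟨(h1 w hw.1).1, hw.2⟩
  · exact (h2.mono (ball_subset_ball hrr)).div (differentiable_zprod W₂).differentiableOn hne
  · intro z hz
    have h5 := h3 z (ball_subset_ball hrr hz)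
    have h6 := hne z hz
    rw [← hW, zprod_add] at h5
    field_simp
    linear_combination h5
  · refine le_trans (ENNReal.ofReal_le_ofReal ?_) h4
    rw [← hW, Multiset.map_add, Multiset.sum_add]
    have h7 : (W₁.map (fun w => Real.log (r' / ‖w‖))).sum ≤
        (W₁.map (fun w => Real.log (r / ‖w‖))).sum := by
      apply Multiset.sum_map_le_sum_map
      intro w hw
      rw [hW₁, Multiset.mem_filter] at hw
      have h0 : 0 < ‖w‖ := norm_pos_iff.2 (h1 w hw.1).1
      apply Real.log_le_log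
      · exact div_pos (by linarith [hw.2]) h0
      · gcongr
    have h8 : 0 ≤ (W₂.map (fun w => Real.log (r / ‖w‖))).sum := by
      apply multiset_sum_nonneg
      intro w hw
      exact h1 w (Multiset.mem_of_mem_filter hw)
    linarith

lemma PoleData.scale {f g : ℂ → ℂ} {r : ℝ} {b : ENNReal} {c : ℂ} (hc : c ≠ 0)
    (h : PoleData f g (‖c‖ * r) b) :
    PoleData (fun z => f (c * z)) (fun z => g (c * z)) r b := by
  obtain ⟨W, E, h1, h2, h3, h4⟩ := h
  have hc0 : 0 < ‖c‖ := norm_pos_iff.2 hc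
  have hmaps : ∀ z ∈ ball (0 : ℂ) r, c * z ∈ ball (0 : ℂ) (‖c‖ * r) := by
    intro z hz
    simp only [mem_ball, dist_zero_right, norm_mul] at hz ⊢
    exact mul_lt_mul_of_pos_left hz hc0
  refine ⟨W.map (fun w => w / c), fun z => E (c * z), ?_, ?_, ?_, ?_⟩
  · intro w hw
    obtain ⟨w', hw', rfl⟩ := Multiset.mem_map.1 hw
    have := h1 w' hw'
    refine ⟨div_ne_zero this.1 hc, ?_⟩
    rw [norm_div, div_lt_iff₀ hc0]
    linarith [this.2]
  · apply h2.comp (g := E) (f := fun z => c * z)
    · fun_prop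
    · exact hmaps
  · intro z hz
    have h5 := h3 (c * z) (hmaps z hz)
    have h6 : zprod (W.map (fun w => w / c)) z = zprod W (c * z) := by
      unfold zprod
      rw [Multiset.map_map]
      congr 1
      apply Multiset.map_congr rfl
      intro w hw
      have := (h1 w hw).1
      simp only [Function.comp_apply]
      congr 1
      field_simp
    rw [h6]
    exact h5
  · refine le_trans (le_of_eq ?_) h4
    congr 1
    rw [Multiset.map_map]
    congr 1
    apply Multiset.map_congr rfl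
    intro w hw
    simp only [Function.comp_apply, norm_div]
    congr 1
    have : ‖w‖ ≠ 0 := (norm_pos_iff.2 (h1 w hw).1).ne'
    field_simp

/-- Extracting a finite set of zeros from an entire function. -/
lemma exists_extract {f : ℂ → ℂ} (hf : Differentiable ℂ f) (Z : Finset ℂ)
    (hZ : ∀ z ∈ Z, z ≠ 0 ∧ f z = 0) :
    ∃ E : ℂ → ℂ, Differentiable ℂ E ∧ ∀ z, f z = zprod Z.val z * E z := by
  classical
  induction Z using Finset.induction with
  | empty => exact ⟨f, hf, by simp⟩
  | insert w Z hw ih =>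
    obtain ⟨E, hE, hfE⟩ := ih (fun z hz => hZ z (Finset.mem_insert_of_mem hz))
    have hw0 := hZ w (Finset.mem_insert_self w Z)
    have hEw : E w = 0 := by
      have h1 := hfE w
      rw [hw0.2] at h1
      have h2 : zprod Z.val w ≠ 0 := zprod_ne_zero
        (fun w' hw' => (hZ w' (Finset.mem_insert_of_mem hw')).1) hw
      rcases mul_eq_zero.1 h1.symm with h | h
      · exact absurd h h2
      · exact h
    refine ⟨fun z => -w * dslope E w z, ?_, ?_⟩
    · have h1 : DifferentiableOn ℂ (dslope E w) univ :=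
        (Complex.differentiableOn_dslope (s := univ) (c := w) (by simp)).2 hE.differentiableOn
      have h2 : Differentiable ℂ (dslope E w) := differentiableOn_univ.1 h1
      exact (differentiable_const _).mul h2
    · intro z
      rw [hfE z, Finset.insert_val_of_notMem hw, zprod_cons]
      have h3 : (z - w) • dslope E w z = E z - E w := sub_smul_dslope E w z
      rw [hEw, sub_zero, smul_eq_mul] at h3
      have h4 : (1 - z / w) * (-w * dslope E w z) = E z := by
        rw [← h3]
        have := hw0.1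
        field_simp
        ring
      calc zprod Z.val z * E z = zprod Z.val z * ((1 - z / w) * (-w * dslope E w z)) := by
            rw [h4]
        _ = _ := by ring

/-- Main construction: removing common zeros `Z` of `f` and `g`. -/
theorem poleData_remove {f g : ℂ → ℂ} (hf : Differentiable ℂ f) (hg : Differentiable ℂ g)
    (h0 : g 0 ≠ 0) {r : ℝ} (hr : 0 < r) (Z : Finset ℂ)
    (hZ : ∀ z ∈ Z, ‖z‖ < r ∧ f z = 0 ∧ g z = 0) :
    PoleData f g r (ENNReal.ofReal (Real.circleAverage (fun z => Real.log ‖g z‖) 0 r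
      - Real.log ‖g 0‖ - ∑ z ∈ Z, Real.log (r / ‖z‖))) := by
  classical
  obtain ⟨W, E, hW, hE, hE0, hgE⟩ := exists_factor hg h0 hr
  have hJ := jensen_factor hr hW hE hE0
  have hgfun : (fun z => Real.log ‖g z‖) = fun z => Real.log ‖zprod W z * E z‖ := by
    ext z; rw [hgE z]
  have hg0 : g 0 = E 0 := by simpa using hgE 0
  set W₁ := W.filter (fun w => ‖w‖ < r) with hW₁
  set W₂ := W.filter (fun w => ¬ ‖w‖ < r) with hW₂
  have hWs : W₁ + W₂ = W := Multiset.filter_add_not _ _
  have hZ0 : ∀ z ∈ Z, z ≠ 0 := by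
    rintro z hz rfl
    exact h0 (hZ 0 hz).2.2
  have hsub : Z.val ≤ W₁ := by
    rw [Multiset.le_iff_subset Z.nodup]
    intro z hz
    have hz' := hZ z hz
    rw [hW₁, Multiset.mem_filter]
    refine ⟨?_, hz'.1⟩
    by_contra hcon
    have h1 : zprod W z ≠ 0 := zprod_ne_zero (fun w hw => (hW w hw).1) hcon
    have h2 := hE0 z hz'.1.le
    have h3 := hgE z
    rw [hz'.2.2] at h3
    exact mul_ne_zero h1 h2 h3.symm
  obtain ⟨E₁, hE₁, hfE₁⟩ := exists_extract hf Z (fun z hz => ⟨hZ0 z hz, (hZ z hz).2.1⟩)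
  set W₀ := W₁ - Z.val with hW₀
  have hW₀s : W₀ + Z.val = W₁ := Multiset.sub_add_cancel hsub
  have hne : ∀ z ∈ ball (0 : ℂ) r, zprod W₂ z * E z ≠ 0 := by
    intro z hz
    have hz' : ‖z‖ < r := by simpa using hz
    apply mul_ne_zero _ (hE0 z hz'.le)
    apply zprod_ne_zero
    · intro w hw
      exact (hW w (Multiset.mem_of_mem_filter hw)).1
    · intro hmem
      exact (Multiset.mem_filter.1 hmem).2 hz'
  refine ⟨W₀, fun z => E₁ z / (zprod W₂ z * E z), ?_, ?_, ?_, ?_⟩
  · intro w hw
    have h1 : w ∈ W₁ := by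
      rw [← hW₀s]
      exact Multiset.mem_add.2 (Or.inl hw)
    rw [hW₁, Multiset.mem_filter] at h1
    exact ⟨(hW w h1.1).1, h1.2⟩
  · exact hE₁.differentiableOn.div
      ((differentiable_zprod W₂).mul hE).differentiableOn hne
  · intro z hz
    have h1 := hne z hz
    have h2 : zprod W₂ z ≠ 0 := left_ne_zero_of_mul h1
    have h3 : E z ≠ 0 := right_ne_zero_of_mul h1
    rw [hgE z, hfE₁ z, ← hWs, zprod_add, ← hW₀s, zprod_add]
    field_simp
  · apply ENNReal.ofReal_le_ofReal
    apply le_of_eq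
    rw [hgfun, hJ, hg0]
    have h1 : (W.map (fun w => Real.log (r / ‖w‖))).sum =
        (W₀.map (fun w => Real.log (r / ‖w‖))).sum + ∑ z ∈ Z, Real.log (r / ‖z‖) +
          (W₂.map (fun w => Real.log (r / ‖w‖))).sum := by
      rw [← hWs, Multiset.map_add, Multiset.sum_add, ← hW₀s, Multiset.map_add, Multiset.sum_add]
      rfl
    have h2 : (W₂.map (fun w => Real.log (r / ‖w‖))).sum = 0 := by
      apply Multiset.sum_eq_zero
      intro x hx
      obtain ⟨w, hw, rfl⟩ := Multiset.mem_map.1 hx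
      rw [hW₂, Multiset.mem_filter] at hw
      have h3 := hW w hw.1
      have h4 : ‖w‖ = r := le_antisymm h3.2 (not_lt.1 hw.2)
      rw [h4, div_self hr.ne', Real.log_one]
    rw [h1, h2]
    ring

/-- Main construction, with a pointwise bound of `g` on the circle. -/
theorem poleData_remove' {f g : ℂ → ℂ} (hf : Differentiable ℂ f) (hg : Differentiable ℂ g)
    (h0 : g 0 ≠ 0) {r : ℝ} (hr : 0 < r) (Z : Finset ℂ)
    (hZ : ∀ z ∈ Z, ‖z‖ < r ∧ f z = 0 ∧ g z = 0) {A : ℂ → ℝ} (hAi : CircleIntegrable A 0 r)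
    (hA : ∀ z, ‖z‖ = r → ‖g z‖ ≤ ‖g 0‖ * Real.exp (A z)) (hA0 : ∀ z, ‖z‖ = r → 0 ≤ A z) :
    PoleData f g r (ENNReal.ofReal (Real.circleAverage A 0 r
      - ∑ z ∈ Z, Real.log (r / ‖z‖))) := by
  have hg0 : 0 < ‖g 0‖ := norm_pos_iff.2 h0
  have hg' : Differentiable ℂ (fun z => g z / g 0) := hg.div_const _
  have h1 := poleData_remove hf hg' (by simp [h0]) hr Z
    (fun z hz => ⟨(hZ z hz).1, (hZ z hz).2.1, by simp [(hZ z hz).2.2]⟩)
  obtain ⟨W, E, hW, hE, hWE, hb⟩ := h1
  refine ⟨W, fun z => E z / g 0, hW, hE.div_const _, ?_, hb.trans (ENNReal.ofReal_le_ofReal ?_)⟩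
  · intro z hz
    rw [hWE z hz]
    field_simp
  · have han : AnalyticOnNhd ℂ (fun z => g z / g 0) univ := fun z _ => hg'.analyticAt z
    have hle : Real.circleAverage (fun z => Real.log ‖g z / g 0‖) 0 r ≤
        Real.circleAverage A 0 r := by
      apply Real.circleAverage_mono
      · exact (han.meromorphicOn.mono_set (subset_univ _)).circleIntegrable_log_norm
      · exact hAi
      · intro z hz
        have hz' : ‖z‖ = r := by
          rw [abs_of_pos hr] at hz
          simpa using hz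
        rcases eq_or_ne (g z) 0 with h | h
        · simp only [h, zero_div, norm_zero, Real.log_zero]
          exact hA0 z hz'
        · have h2 : 0 < ‖g z‖ := norm_pos_iff.2 h
          rw [norm_div]
          calc Real.log (‖g z‖ / ‖g 0‖) ≤ Real.log (Real.exp (A z)) := by
                apply Real.log_le_log (by positivity)
                rw [div_le_iff₀ hg0, mul_comm]
                exact hA z hz'
            _ = A z := Real.log_exp _
    have h3 : Real.log ‖g 0 / g 0‖ = 0 := by rw [div_self h0]; simp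
    rw [h3]
    linarith

/-- Crude bound for the poles. -/
theorem poleData_crude {f g : ℂ → ℂ} (hf : Differentiable ℂ f) (hg : Differentiable ℂ g)
    (h0 : g 0 ≠ 0) {r : ℝ} (hr : 0 < r) {A : ℝ}
    (hA : ∀ z, ‖z‖ = r → ‖g z‖ ≤ ‖g 0‖ * Real.exp A) (hA0 : 0 ≤ A) :
    PoleData f g r (ENNReal.ofReal A) := by
  have h1 := poleData_remove' hf hg h0 hr ∅ (by simp) (A := fun _ => A)
    (circleIntegrable_const _ _ _) hA (fun _ _ => hA0)
  simpa [Real.circleAverage_const] using h1

end Pool.Agent.Helper77.Cov
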