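import Pool.Agent.Helper77.Cov.Defs
import Pool.Agent.Helper77.Cov.Kernel
import Pool.Agent.Helper77.Cov.Window

/-!
# Control of the error in complex windows
-/

open Metric Set MeasureTheory Complex Filter Topology

namespace Pool.Agent.Helper77.Cov

variable {d : ℕ}

/-- The error term. -/
noncomputable def ErrW (K : Set (V d × ℝ)) (σ : V d) (lam : ℝ) (z : ℂ) : ℂ :=
  (nrm d lam : ℂ) * fT K σ (lam + z) - mainT K σ (lam + z)

/-- The error functional controlling complex windows. -/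
noncomputable def eW (κ : ℝ → ℝ) (K : Set (V d × ℝ)) (σ : V d) (lam : ℝ) : ENNReal :=
  ∫⁻ x : ℝ, ‖ErrW K σ lam x‖ₑ * ENNReal.ofReal (κ x)

lemma mainT_eq (K : Set (V d × ℝ)) (σ : V d) (z : ℂ) :
    mainT K σ z = mainF (Real.pi * d / 4) (Real.sqrt (hess (Hup K) σ).det)
      (Real.sqrt (hess (Hdn K) σ).det) (Hup K σ) (Hdn K σ) z := rfl

lemma continuous_fT {K : Set (V d × ℝ)} (hK : IsCompact K) :
    Continuous (fun q : V d × ℂ => fT K q.1 q.2) := by
  unfold fT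
  apply continuous_parametric_integral_of_continuous (f := fun (q : V d × ℂ) (p : V d × ℝ) =>
    Complex.exp (-Complex.I * q.2 * ((inner ℝ q.1 p.1 + p.2 : ℝ) : ℂ))) _ hK
  simp only [Function.uncurry_def]
  fun_prop

lemma continuous_hess_det {f : V d → ℝ} (hf : ContDiff ℝ 2 f) :
    Continuous (fun σ => (hess f σ).det) := by
  apply Continuous.matrix_det
  apply continuous_matrix
  intro i j
  unfold hess
  simp only [Matrix.of_apply]
  have h1 : ContDiff ℝ 1 (fderiv ℝ f) := hf.fderiv_right (by norm_num)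
  have h2 : Continuous (fderiv ℝ (fderiv ℝ f)) := h1.continuous_fderiv (by norm_num)
  fun_prop

lemma continuous_mainT {K : Set (V d × ℝ)} (hup : PosC2 (Hup K)) (hdn : PosC2 (Hdn K)) :
    Continuous (fun q : V d × ℂ => mainT K q.1 q.2) := by
  have h1 := continuous_hess_det hup.1
  have h2 := continuous_hess_det hdn.1
  have h3 := hup.1.continuous
  have h4 := hdn.1.continuous
  unfold mainT
  have a1 : Continuous (fun q : V d × ℂ => ((Real.sqrt (hess (Hup K) q.1).det : ℝ) : ℂ)) :=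
    Complex.continuous_ofReal.comp (Real.continuous_sqrt.comp (h1.comp continuous_fst))
  have a2 : Continuous (fun q : V d × ℂ => ((Real.sqrt (hess (Hdn K) q.1).det : ℝ) : ℂ)) :=
    Complex.continuous_ofReal.comp (Real.continuous_sqrt.comp (h2.comp continuous_fst))
  have a3 : Continuous (fun q : V d × ℂ => Complex.exp (-Complex.I * q.2 * (Hup K q.1 : ℂ))) := by
    fun_prop
  have a4 : Continuous (fun q : V d × ℂ => Complex.exp (Complex.I * q.2 * (Hdn K q.1 : ℂ))) := by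
    fun_prop
  exact continuous_const.mul (((continuous_const.mul a1).mul a3).sub
    ((continuous_const.mul a2).mul a4))

lemma continuous_nrm : Continuous (nrm d) := by
  unfold nrm
  have : Continuous (fun lam : ℝ => (lam / (2 * Real.pi)) ^ ((d : ℝ) / 2)) :=
    (Real.continuous_rpow_const (by positivity)).comp (by fun_prop)
  fun_prop

lemma continuous_ErrW {K : Set (V d × ℝ)} (hK : IsCompact K) (hup : PosC2 (Hup K))
    (hdn : PosC2 (Hdn K)) :
    Continuous (fun q : V d × ℝ × ℝ => ErrW K q.1 q.2.1 (q.2.2 : ℂ)) := by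
  unfold ErrW
  have h1 : Continuous (fun q : V d × ℝ × ℝ => fT K q.1 ((q.2.1 : ℂ) + (q.2.2 : ℂ))) :=
    (continuous_fT hK).comp (g := fun q : V d × ℂ => fT K q.1 q.2)
      (f := fun q : V d × ℝ × ℝ => (q.1, ((q.2.1 : ℂ) + (q.2.2 : ℂ)))) (by fun_prop)
  have h2 : Continuous (fun q : V d × ℝ × ℝ => mainT K q.1 ((q.2.1 : ℂ) + (q.2.2 : ℂ))) :=
    (continuous_mainT hup hdn).comp (g := fun q : V d × ℂ => mainT K q.1 q.2)
      (f := fun q : V d × ℝ × ℝ => (q.1, ((q.2.1 : ℂ) + (q.2.2 : ℂ)))) (by fun_prop)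
  have h3 : Continuous (fun q : V d × ℝ × ℝ => nrm d q.2.1) := by
    have := continuous_nrm (d := d)
    fun_prop
  fun_prop

lemma measurable_eW {K : Set (V d × ℝ)} (hK : IsCompact K) (hup : PosC2 (Hup K))
    (hdn : PosC2 (Hdn K)) {κ : ℝ → ℝ} (hκ : Continuous κ) :
    Measurable (fun q : V d × ℝ => eW κ K q.1 q.2) := by
  unfold eW
  apply Measurable.lintegral_prod_right'
    (f := fun q : (V d × ℝ) × ℝ => ‖ErrW K q.1.1 q.1.2 (q.2 : ℂ)‖ₑ * ENNReal.ofReal (κ q.2))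
  have h1 : Continuous (fun q : (V d × ℝ) × ℝ => ErrW K q.1.1 q.1.2 (q.2 : ℂ)) :=
    (continuous_ErrW hK hup hdn).comp (f := fun q : (V d × ℝ) × ℝ => (q.1.1, q.1.2, q.2))
      (by fun_prop)
  exact h1.measurable.enorm.mul (ENNReal.measurable_ofReal.comp
    (hκ.measurable.comp measurable_snd))

lemma nrm_sq {lam : ℝ} (hlam : 0 ≤ lam) :
    (nrm d lam) ^ 2 = lam ^ 2 * (lam / (2 * Real.pi)) ^ d := by
  unfold nrm
  have h1 : 0 ≤ lam / (2 * Real.pi) := by positivity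
  rw [mul_pow, ← Real.rpow_natCast ((lam / (2 * Real.pi)) ^ ((d : ℝ) / 2)), ← Real.rpow_mul h1,
    ← Real.rpow_natCast (lam / (2 * Real.pi))]
  congr 2
  push_cast
  ring

lemma nrm_pos {lam : ℝ} (hlam : 0 < lam) : 0 < nrm d lam := by
  unfold nrm
  positivity

lemma window_bound {K : Set (V d × ℝ)} (hK : IsCompact K) {T τ : ℝ} {κ : ℝ → ℝ}
    (hκ : KProp T τ κ) {σ : V d} (hσ : ∀ p ∈ K, |inner ℝ σ p.1 + p.2| ≤ τ)
    (h1 : |Hup K σ| ≤ τ) (h2 : |Hdn K σ| ≤ τ) (lam : ℝ) {z : ℂ} (hz : ‖z‖ ≤ T) :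
    ‖ErrW K σ lam z‖ₑ ≤ eW κ K σ lam := by
  have : IsFiniteMeasure ((volume : Measure (V d × ℝ)).restrict K) :=
    ⟨by simpa using hK.measure_lt_top⟩
  refine hκ (V d × ℝ) (volume.restrict K) (fun p => inner ℝ σ p.1 + p.2)
    (fun p => (nrm d lam : ℂ) * Complex.exp (-Complex.I * lam * ((inner ℝ σ p.1 + p.2 : ℝ) : ℂ)))
    |nrm d lam| ?_ ?_ ?_ ?_
    (-(Complex.I * (Complex.exp (Complex.I * (Real.pi * d / 4 : ℝ)) *
      (Real.sqrt (hess (Hup K) σ).det : ℂ) * Complex.exp (-Complex.I * lam * (Hup K σ : ℂ)))))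
    (Complex.I * (Complex.exp (-Complex.I * (Real.pi * d / 4 : ℝ)) *
      (Real.sqrt (hess (Hdn K) σ).det : ℂ) * Complex.exp (Complex.I * lam * (Hdn K σ : ℂ))))
    (Hup K σ) (Hdn K σ) h1 h2 (fun z => ErrW K σ lam z) ?_ z hz
  · fun_prop
  · fun_prop
  · filter_upwards [ae_restrict_mem hK.measurableSet] with p hp
    exact hσ p hp
  · intro p
    rw [norm_mul, norm_exp_real_mul, mul_one, Complex.norm_real, Real.norm_eq_abs]
  · intro z
    have e1 : (nrm d lam : ℂ) * fT K σ (lam + z) = ∫ p in K, ((nrm d lam : ℂ) *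
        Complex.exp (-Complex.I * lam * ((inner ℝ σ p.1 + p.2 : ℝ) : ℂ))) *
        Complex.exp (-Complex.I * z * ((inner ℝ σ p.1 + p.2 : ℝ) : ℂ)) := by
      unfold fT
      rw [← integral_const_mul]
      congr 1
      ext p
      have : Complex.exp (-Complex.I * (lam + z) * ((inner ℝ σ p.1 + p.2 : ℝ) : ℂ)) =
          Complex.exp (-Complex.I * lam * ((inner ℝ σ p.1 + p.2 : ℝ) : ℂ)) *
          Complex.exp (-Complex.I * z * ((inner ℝ σ p.1 + p.2 : ℝ) : ℂ)) := by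
        rw [← Complex.exp_add]; congr 1; ring
      rw [this]
      ring
    unfold ErrW
    rw [e1]
    unfold mainT
    have e2 : Complex.exp (-Complex.I * (lam + z) * (Hup K σ : ℂ)) =
        Complex.exp (-Complex.I * lam * (Hup K σ : ℂ)) *
          Complex.exp (-Complex.I * z * (Hup K σ : ℂ)) := by
      rw [← Complex.exp_add]; congr 1; ring
    have e3 : Complex.exp (Complex.I * (lam + z) * (Hdn K σ : ℂ)) =
        Complex.exp (Complex.I * lam * (Hdn K σ : ℂ)) *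
          Complex.exp (Complex.I * z * (Hdn K σ : ℂ)) := by
      rw [← Complex.exp_add]; congr 1; ring
    rw [e2, e3]
    ring

/-- Cauchy–Schwarz with a weight. -/
lemma eW_sq_le {K : Set (V d × ℝ)} (hK : IsCompact K) (hup : PosC2 (Hup K))
    (hdn : PosC2 (Hdn K)) {κ : ℝ → ℝ} (hκ : Continuous κ) (σ : V d) (lam : ℝ) :
    (eW κ K σ lam) ^ 2 ≤ (∫⁻ x : ℝ, ENNReal.ofReal (κ x)) *
      ∫⁻ x : ℝ, ‖ErrW K σ lam x‖ₑ ^ 2 * ENNReal.ofReal (κ x) := by
  have hE : Measurable (fun x : ℝ => ‖ErrW K σ lam x‖ₑ) := by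
    have : Continuous (fun x : ℝ => ErrW K σ lam x) :=
      (continuous_ErrW hK hup hdn).comp (f := fun x : ℝ => (σ, lam, x)) (by fun_prop)
    exact this.measurable.enorm
  have hk : Measurable (fun x : ℝ => ENNReal.ofReal (κ x)) :=
    ENNReal.measurable_ofReal.comp hκ.measurable
  have hhalf : ∀ a : ENNReal, a ^ ((1 : ℝ) / 2) * a ^ ((1 : ℝ) / 2) = a := by
    intro a
    rw [← ENNReal.rpow_add_of_nonneg _ _ (by norm_num) (by norm_num)]
    norm_num
  have h1 := ENNReal.lintegral_mul_le_Lp_mul_Lq (volume : Measure ℝ)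
    (p := 2) (q := 2) (by constructor <;> norm_num)
    (f := fun x : ℝ => (ENNReal.ofReal (κ x)) ^ ((1 : ℝ) / 2))
    (g := fun x : ℝ => ‖ErrW K σ lam x‖ₑ * (ENNReal.ofReal (κ x)) ^ ((1 : ℝ) / 2))
    (hk.pow_const _).aemeasurable (hE.mul (hk.pow_const _)).aemeasurable
  have h2 : (∫⁻ x : ℝ, ((fun x : ℝ => (ENNReal.ofReal (κ x)) ^ ((1 : ℝ) / 2)) *
      (fun x : ℝ => ‖ErrW K σ lam x‖ₑ * (ENNReal.ofReal (κ x)) ^ ((1 : ℝ) / 2))) x) =
      eW κ K σ lam := by
    unfold eW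
    congr 1
    ext x
    simp only [Pi.mul_apply]
    calc _ = ‖ErrW K σ lam x‖ₑ * ((ENNReal.ofReal (κ x)) ^ ((1 : ℝ) / 2) *
          (ENNReal.ofReal (κ x)) ^ ((1 : ℝ) / 2)) := by ring
      _ = _ := by rw [hhalf]
  rw [h2] at h1
  have h3 : ∀ x : ℝ, ((ENNReal.ofReal (κ x)) ^ ((1 : ℝ) / 2)) ^ (2 : ℝ) =
      ENNReal.ofReal (κ x) := by
    intro x
    rw [← ENNReal.rpow_mul]; norm_num
  have h4 : ∀ x : ℝ, (‖ErrW K σ lam x‖ₑ * (ENNReal.ofReal (κ x)) ^ ((1 : ℝ) / 2)) ^ (2 : ℝ) =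
      ‖ErrW K σ lam x‖ₑ ^ 2 * ENNReal.ofReal (κ x) := by
    intro x
    rw [ENNReal.mul_rpow_of_nonneg _ _ (by norm_num), h3]
    congr 1
    exact ENNReal.rpow_natCast _ 2
  simp only [h3, h4] at h1
  calc (eW κ K σ lam) ^ 2 ≤ ((∫⁻ x : ℝ, ENNReal.ofReal (κ x)) ^ ((1 : ℝ) / 2) *
        (∫⁻ x : ℝ, ‖ErrW K σ lam x‖ₑ ^ 2 * ENNReal.ofReal (κ x)) ^ ((1 : ℝ) / 2)) ^ 2 := by
        gcongr
    _ = _ := by
        rw [mul_pow, sq, sq, hhalf, hhalf]

lemma enorm_add_sq_le (a b : ℂ) : ‖a + b‖ₑ ^ 2 ≤ 2 * ‖a‖ₑ ^ 2 + 2 * ‖b‖ₑ ^ 2 := by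
  have h1 : ‖a + b‖ ^ 2 ≤ 2 * ‖a‖ ^ 2 + 2 * ‖b‖ ^ 2 := by
    have := norm_add_le a b
    nlinarith [norm_nonneg (a + b), norm_nonneg a, norm_nonneg b, sq_nonneg (‖a‖ - ‖b‖)]
  have h2 : ∀ c : ℂ, ‖c‖ₑ ^ 2 = ENNReal.ofReal (‖c‖ ^ 2) := by
    intro c
    rw [← ofReal_norm, ENNReal.ofReal_pow (norm_nonneg _)]
  rw [h2, h2, h2]
  calc ENNReal.ofReal (‖a + b‖ ^ 2) ≤ ENNReal.ofReal (2 * ‖a‖ ^ 2 + 2 * ‖b‖ ^ 2) :=
        ENNReal.ofReal_le_ofReal h1
    _ = _ := by
        rw [ENNReal.ofReal_add (by positivity) (by positivity),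
          ENNReal.ofReal_mul (by norm_num), ENNReal.ofReal_mul (by norm_num)]
        simp

lemma nrm_mono {a b : ℝ} (ha : 0 ≤ a) (hab : a ≤ b) : nrm d a ≤ nrm d b := by
  unfold nrm
  have : (a / (2 * Real.pi)) ^ ((d : ℝ) / 2) ≤ (b / (2 * Real.pi)) ^ ((d : ℝ) / 2) := by
    apply Real.rpow_le_rpow (by positivity) (by gcongr) (by positivity)
  exact mul_le_mul hab this (by positivity) (ha.trans hab)

lemma nrm_nonneg {a : ℝ} (ha : 0 ≤ a) : 0 ≤ nrm d a := by
  unfold nrm; positivity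

lemma nrm_two_mul {a : ℝ} (ha : 0 ≤ a) :
    nrm d (2 * a) = 2 * (2 : ℝ) ^ ((d : ℝ) / 2) * nrm d a := by
  unfold nrm
  have h1 : (2 * a / (2 * Real.pi)) = 2 * (a / (2 * Real.pi)) := by ring
  rw [h1, Real.mul_rpow (by norm_num) (by positivity)]
  ring

lemma tendsto_nrm_ratio (x : ℝ) :
    Tendsto (fun lam : ℝ => nrm d lam / nrm d (lam + x)) atTop (𝓝 1) := by
  have h1 : Tendsto (fun lam : ℝ => lam / (lam + x)) atTop (𝓝 1) := by
    have h2 : Tendsto (fun lam : ℝ => 1 - x / (lam + x)) atTop (𝓝 (1 - 0)) := by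
      apply Tendsto.sub tendsto_const_nhds
      apply Tendsto.div_atTop tendsto_const_nhds
      exact tendsto_atTop_add_const_right _ _ tendsto_id
    rw [sub_zero] at h2
    apply h2.congr'
    filter_upwards [eventually_gt_atTop (-x)] with lam hlam
    have : lam + x ≠ 0 := by linarith
    field_simp
    ring
  have h3 : Tendsto (fun lam : ℝ => (lam / (lam + x)) * (lam / (lam + x)) ^ ((d : ℝ) / 2))
      atTop (𝓝 (1 * (1 : ℝ) ^ ((d : ℝ) / 2))) := by
    apply h1.mul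
    exact h1.rpow_const (Or.inl one_ne_zero)
  rw [Real.one_rpow, mul_one] at h3
  apply h3.congr'
  filter_upwards [eventually_gt_atTop (-x), eventually_gt_atTop 0] with lam hlam hlam0
  have h4 : 0 < lam + x := by linarith
  unfold nrm
  have h5 : lam / (lam + x) = (lam / (2 * Real.pi)) / ((lam + x) / (2 * Real.pi)) := by
    field_simp
  have h6 : (lam / (lam + x)) ^ ((d : ℝ) / 2) = (lam / (2 * Real.pi)) ^ ((d : ℝ) / 2) /
      ((lam + x) / (2 * Real.pi)) ^ ((d : ℝ) / 2) := by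
    rw [h5, Real.div_rpow (by positivity) (by positivity)]
  rw [h6]
  field_simp

lemma exists_mainT_bound {K : Set (V d × ℝ)} (hup : PosC2 (Hup K)) (hdn : PosC2 (Hdn K))
    {B : Set (V d)} (hB : Bornology.IsBounded B) :
    ∃ M : ℝ, 0 ≤ M ∧ ∀ σ ∈ B, ∀ x : ℝ, ‖mainT K σ x‖ ≤ M := by
  have h1 := continuous_hess_det hup.1
  have h2 := continuous_hess_det hdn.1
  have hc : Continuous (fun σ : V d => Real.sqrt (hess (Hup K) σ).det +
      Real.sqrt (hess (Hdn K) σ).det) :=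
    (Real.continuous_sqrt.comp h1).add (Real.continuous_sqrt.comp h2)
  obtain ⟨M, hM⟩ := hB.isCompact_closure.exists_bound_of_continuousOn hc.continuousOn
  refine ⟨max M 0, le_max_right _ _, fun σ hσ x => ?_⟩
  refine le_trans ?_ (le_max_left _ _)
  refine le_trans ?_ ((le_abs_self _).trans (hM σ (subset_closure hσ)))
  unfold mainT
  rw [norm_mul, Complex.norm_I, one_mul]
  refine (norm_sub_le _ _).trans ?_
  have e1 : ∀ y : ℝ, ‖Complex.exp (Complex.I * (y : ℂ))‖ = 1 := fun y => by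
    rw [Complex.norm_exp]; simp
  have e2 : ∀ y : ℝ, ‖Complex.exp (-Complex.I * (y : ℂ))‖ = 1 := fun y => by
    rw [Complex.norm_exp]; simp
  have e3 : ∀ x y : ℝ, ‖Complex.exp (Complex.I * (x : ℂ) * (y : ℂ))‖ = 1 := fun x y => by
    rw [Complex.norm_exp]; simp
  rw [norm_mul, norm_mul, norm_mul, norm_mul, e1, e2, norm_exp_real_mul, e3, one_mul, one_mul,
    mul_one, mul_one, Complex.norm_real, Complex.norm_real, Real.norm_eq_abs, Real.norm_eq_abs,
    abs_of_nonneg (Real.sqrt_nonneg _), abs_of_nonneg (Real.sqrt_nonneg _)]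

lemma norm_fT_le {K : Set (V d × ℝ)} (hK : IsCompact K) (σ : V d) (x : ℝ) :
    ‖fT K σ x‖ ≤ (volume K).toReal := by
  unfold fT
  have : ‖∫ p in K, Complex.exp (-Complex.I * x * ((inner ℝ σ p.1 + p.2 : ℝ) : ℂ))‖ ≤
      1 * (volume K).toReal := by
    apply norm_setIntegral_le_of_norm_le_const hK.measure_lt_top
    intro p _
    exact (norm_exp_real_mul _ _).le
  simpa using this

/-- The statement of Module B for the body `K` (real averaged asymptotics). -/
def AvgAsym (K : Set (V d × ℝ)) : Prop :=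
  (∀ B : Set (V d), Bornology.IsBounded B → MeasurableSet B →
    Tendsto (fun lam : ℝ => ∫⁻ σ in B, ‖(nrm d lam : ℂ) * fT K σ lam - mainT K σ lam‖ₑ ^ 2)
      atTop (𝓝 0)) ∧
  ∃ C : NNReal, ∀ lam : ℝ, 0 < lam → ∫⁻ σ : V d, ‖(nrm d lam : ℂ) * fT K σ lam‖ₑ ^ 2 ≤ C

lemma tendsto_ErrW {K : Set (V d × ℝ)} (hup : PosC2 (Hup K))
    (hdn : PosC2 (Hdn K)) (hA : AvgAsym K) {B : Set (V d)} (hB : Bornology.IsBounded B)
    (hBm : MeasurableSet B) (x : ℝ) :
    Tendsto (fun lam : ℝ => ∫⁻ σ in B, ‖ErrW K σ lam x‖ₑ ^ 2) atTop (𝓝 0) := by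
  obtain ⟨M, hM0, hM⟩ := exists_mainT_bound hup hdn hB
  have hvol : volume B ≠ ⊤ := hB.measure_lt_top.ne
  set ρ : ℝ → ℝ := fun lam => nrm d lam / nrm d (lam + x) with hρ
  have hρ1 : Tendsto ρ atTop (𝓝 1) := tendsto_nrm_ratio x
  set A : ℝ → ENNReal := fun lam => ∫⁻ σ in B,
    ‖(nrm d lam : ℂ) * fT K σ lam - mainT K σ lam‖ₑ ^ 2 with hAdef
  have hA0 : Tendsto (fun lam => A (lam + x)) atTop (𝓝 0) :=
    (hA.1 B hB hBm).comp (tendsto_atTop_add_const_right _ _ tendsto_id)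
  have hle : ∀ᶠ lam in atTop, ∫⁻ σ in B, ‖ErrW K σ lam x‖ₑ ^ 2 ≤
      2 * ENNReal.ofReal (ρ lam ^ 2) * A (lam + x) +
        2 * (ENNReal.ofReal ((ρ lam - 1) ^ 2) * ENNReal.ofReal (M ^ 2) * volume B) := by
    filter_upwards [eventually_gt_atTop (-x), eventually_gt_atTop 0] with lam hlam hlam0
    have h1 : 0 < lam + x := by linarith
    have hn : nrm d (lam + x) ≠ 0 := (nrm_pos h1).ne'
    have h2 : ∀ σ ∈ B, ‖ErrW K σ lam x‖ₑ ^ 2 ≤
        2 * ENNReal.ofReal (ρ lam ^ 2) *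
          ‖(nrm d (lam + x) : ℂ) * fT K σ ((lam + x : ℝ) : ℂ) -
            mainT K σ ((lam + x : ℝ) : ℂ)‖ₑ ^ 2 +
        2 * (ENNReal.ofReal ((ρ lam - 1) ^ 2) * ENNReal.ofReal (M ^ 2)) := by
      intro σ hσ
      have h3 : ErrW K σ lam x = (ρ lam : ℂ) * ((nrm d (lam + x) : ℂ) *
          fT K σ ((lam + x : ℝ) : ℂ) - mainT K σ ((lam + x : ℝ) : ℂ)) +
          ((ρ lam - 1 : ℝ) : ℂ) * mainT K σ ((lam + x : ℝ) : ℂ) := by
        unfold ErrW
        have h4 : (nrm d lam : ℂ) = (ρ lam : ℂ) * (nrm d (lam + x) : ℂ) := by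
          rw [← Complex.ofReal_mul]
          congr 1
          simp only [hρ]
          field_simp
        rw [h4]
        push_cast
        ring
      rw [h3]
      refine (enorm_add_sq_le _ _).trans ?_
      have e1 : ∀ r : ℝ, ‖(r : ℂ)‖ₑ ^ 2 = ENNReal.ofReal (r ^ 2) := by
        intro r
        rw [← ofReal_norm, Complex.norm_real, ← ENNReal.ofReal_pow (norm_nonneg _),
          Real.norm_eq_abs, sq_abs]
      rw [enorm_mul, enorm_mul, mul_pow, mul_pow, e1, e1]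
      have h5 : ‖mainT K σ ((lam + x : ℝ) : ℂ)‖ₑ ^ 2 ≤ ENNReal.ofReal (M ^ 2) := by
        rw [ENNReal.ofReal_pow hM0, ← ofReal_norm]
        gcongr
        exact hM σ hσ (lam + x)
      rw [← mul_assoc]
      gcongr
    calc ∫⁻ σ in B, ‖ErrW K σ lam x‖ₑ ^ 2
        ≤ ∫⁻ σ in B, (2 * ENNReal.ofReal (ρ lam ^ 2) *
          ‖(nrm d (lam + x) : ℂ) * fT K σ ((lam + x : ℝ) : ℂ) -
            mainT K σ ((lam + x : ℝ) : ℂ)‖ₑ ^ 2 +
        2 * (ENNReal.ofReal ((ρ lam - 1) ^ 2) * ENNReal.ofReal (M ^ 2))) :=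
          setLIntegral_mono' hBm h2
      _ = _ := by
          rw [lintegral_add_right _ measurable_const, lintegral_const_mul' _ _ (by finiteness),
            lintegral_const, Measure.restrict_apply_univ]
          ring
  refine tendsto_of_tendsto_of_tendsto_of_le_of_le' tendsto_const_nhds ?_
    (Eventually.of_forall fun _ => zero_le) hle
  have t1 : Tendsto (fun lam => 2 * ENNReal.ofReal (ρ lam ^ 2) * A (lam + x)) atTop
      (𝓝 (2 * ENNReal.ofReal (1 ^ 2) * 0)) := by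
    apply ENNReal.Tendsto.mul
    · apply ENNReal.Tendsto.const_mul
      · exact (ENNReal.continuous_ofReal.tendsto _).comp (hρ1.pow 2)
      · right; norm_num
    · left; simp
    · exact hA0
    · right; simp
  have t2 : Tendsto (fun lam => 2 * (ENNReal.ofReal ((ρ lam - 1) ^ 2) * ENNReal.ofReal (M ^ 2) *
      volume B)) atTop (𝓝 (2 * (ENNReal.ofReal ((1 - 1) ^ 2) * ENNReal.ofReal (M ^ 2) *
      volume B))) := by
    apply ENNReal.Tendsto.const_mul
    · apply ENNReal.Tendsto.mul_const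
      · apply ENNReal.Tendsto.mul_const
        · exact (ENNReal.continuous_ofReal.tendsto _).comp ((hρ1.sub_const 1).pow 2)
        · right; simp
      · right; exact hvol
    · right; norm_num
  have t3 := t1.add t2
  simpa using t3

lemma ErrW_sq_bound {K : Set (V d × ℝ)} (hK : IsCompact K) (hup : PosC2 (Hup K))
    (hdn : PosC2 (Hdn K)) (hA : AvgAsym K) {B : Set (V d)} (hB : Bornology.IsBounded B)
    (hBm : MeasurableSet B) :
    ∃ C : ℝ, 0 ≤ C ∧ ∀ lam : ℝ, 1 ≤ lam → ∀ x : ℝ, ∫⁻ σ in B, ‖ErrW K σ lam x‖ₑ ^ 2 ≤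
      ENNReal.ofReal (C * (1 + |x|) ^ (d + 2)) := by
  obtain ⟨M, hM0, hM⟩ := exists_mainT_bound hup hdn hB
  obtain ⟨CL, hCL⟩ := hA.2
  have hvol : volume B ≠ ⊤ := hB.measure_lt_top.ne
  set vB : ℝ := (volume B).toReal with hvB
  have hvB' : volume B = ENNReal.ofReal vB := (ENNReal.ofReal_toReal hvol).symm
  set vK : ℝ := (volume K).toReal with hvK
  have hvB0 : 0 ≤ vB := ENNReal.toReal_nonneg
  have hvK0 : 0 ≤ vK := ENNReal.toReal_nonneg
  set c : ℝ := 2 * (2 : ℝ) ^ ((d : ℝ) / 2) with hc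
  have hc0 : 0 ≤ c := by positivity
  set C : ℝ := 2 * c ^ 2 * CL + 2 * M ^ 2 * vB + 8 * vK ^ 2 * vB with hC
  have hCLn : (0 : ℝ) ≤ CL := CL.coe_nonneg
  refine ⟨C, by positivity, fun lam hlam x => ?_⟩
  have hpow : (1 : ℝ) ≤ (1 + |x|) ^ (d + 2) := one_le_pow₀ (by linarith [abs_nonneg x])
  -- first split off the main term
  have h1 : ∫⁻ σ in B, ‖ErrW K σ lam x‖ₑ ^ 2 ≤
      2 * (∫⁻ σ in B, ‖(nrm d lam : ℂ) * fT K σ ((lam + x : ℝ) : ℂ)‖ₑ ^ 2) +
        ENNReal.ofReal (2 * M ^ 2 * vB) := by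
    have h2 : ∀ σ ∈ B, ‖ErrW K σ lam x‖ₑ ^ 2 ≤
        2 * ‖(nrm d lam : ℂ) * fT K σ ((lam + x : ℝ) : ℂ)‖ₑ ^ 2 +
          2 * ENNReal.ofReal (M ^ 2) := by
      intro σ hσ
      have h3 : ErrW K σ lam x = (nrm d lam : ℂ) * fT K σ ((lam + x : ℝ) : ℂ) +
          (-mainT K σ ((lam + x : ℝ) : ℂ)) := by
        unfold ErrW
        push_cast
        ring
      rw [h3]
      refine (enorm_add_sq_le _ _).trans ?_
      rw [enorm_neg]
      have h5 : ‖mainT K σ ((lam + x : ℝ) : ℂ)‖ₑ ^ 2 ≤ ENNReal.ofReal (M ^ 2) := by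
        rw [ENNReal.ofReal_pow hM0, ← ofReal_norm]
        gcongr
        exact hM σ hσ (lam + x)
      gcongr
    calc ∫⁻ σ in B, ‖ErrW K σ lam x‖ₑ ^ 2
        ≤ ∫⁻ σ in B, (2 * ‖(nrm d lam : ℂ) * fT K σ ((lam + x : ℝ) : ℂ)‖ₑ ^ 2 +
          2 * ENNReal.ofReal (M ^ 2)) := setLIntegral_mono' hBm h2
      _ = _ := by
          rw [lintegral_add_right _ measurable_const, lintegral_const_mul' _ _ (by finiteness),
            lintegral_const, Measure.restrict_apply_univ, hvB',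
            ENNReal.ofReal_mul (by positivity), ENNReal.ofReal_mul (by norm_num)]
          simp
  rcases le_or_gt (-lam / 2) x with hx | hx
  · have hpos : 0 < lam + x := by linarith
    have h2 : nrm d lam ≤ c * nrm d (lam + x) := by
      rw [hc, ← nrm_two_mul hpos.le]
      exact nrm_mono (by linarith) (by linarith)
    have h3 : ∫⁻ σ in B, ‖(nrm d lam : ℂ) * fT K σ ((lam + x : ℝ) : ℂ)‖ₑ ^ 2 ≤
        ENNReal.ofReal (c ^ 2) * CL := by
      calc ∫⁻ σ in B, ‖(nrm d lam : ℂ) * fT K σ ((lam + x : ℝ) : ℂ)‖ₑ ^ 2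
          ≤ ∫⁻ σ : V d, ‖(nrm d lam : ℂ) * fT K σ ((lam + x : ℝ) : ℂ)‖ₑ ^ 2 :=
            setLIntegral_le_lintegral _ _
        _ ≤ ∫⁻ σ : V d, ENNReal.ofReal (c ^ 2) *
              ‖(nrm d (lam + x) : ℂ) * fT K σ ((lam + x : ℝ) : ℂ)‖ₑ ^ 2 := by
            apply lintegral_mono
            intro σ
            dsimp only
            have hmp : ∀ a b : ENNReal, (a * b) ^ 2 = a ^ 2 * b ^ 2 := fun a b => mul_pow a b 2
            rw [enorm_mul, enorm_mul, hmp, hmp, ← mul_assoc]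
            gcongr
            rw [← ofReal_norm, ← ofReal_norm, Complex.norm_real, Complex.norm_real,
              Real.norm_eq_abs, Real.norm_eq_abs, abs_of_nonneg (nrm_nonneg (by linarith)),
              abs_of_nonneg (nrm_nonneg hpos.le), ← ENNReal.ofReal_pow (nrm_nonneg (by linarith)),
              ← ENNReal.ofReal_pow (nrm_nonneg hpos.le), ← ENNReal.ofReal_mul (by positivity)]
            apply ENNReal.ofReal_le_ofReal
            rw [← mul_pow]
            have := nrm_nonneg (d := d) (a := lam) (by linarith)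
            gcongr
        _ = ENNReal.ofReal (c ^ 2) * ∫⁻ σ : V d,
              ‖(nrm d (lam + x) : ℂ) * fT K σ ((lam + x : ℝ) : ℂ)‖ₑ ^ 2 := by
            rw [lintegral_const_mul' _ _ (by finiteness)]
        _ ≤ _ := by gcongr; exact hCL _ hpos
    have h4 : (CL : ENNReal) = ENNReal.ofReal (CL : ℝ) := by simp
    refine h1.trans ?_
    calc 2 * (∫⁻ σ in B, ‖(nrm d lam : ℂ) * fT K σ ((lam + x : ℝ) : ℂ)‖ₑ ^ 2) +
          ENNReal.ofReal (2 * M ^ 2 * vB)
        ≤ 2 * (ENNReal.ofReal (c ^ 2) * CL) + ENNReal.ofReal (2 * M ^ 2 * vB) := by gcongr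
      _ = ENNReal.ofReal (2 * c ^ 2 * CL + 2 * M ^ 2 * vB) := by
          rw [h4, ENNReal.ofReal_add (by positivity) (by positivity),
            ENNReal.ofReal_mul (p := 2 * c ^ 2) (by positivity),
            ENNReal.ofReal_mul (p := 2) (by norm_num)]
          simp [mul_assoc]
      _ ≤ ENNReal.ofReal (C * (1 + |x|) ^ (d + 2)) := by
          apply ENNReal.ofReal_le_ofReal
          have : 2 * c ^ 2 * CL + 2 * M ^ 2 * vB ≤ C := by
            rw [hC]
            have : 0 ≤ 8 * vK ^ 2 * vB := by positivity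
            linarith
          have hCn : 0 ≤ C := by positivity
          calc _ ≤ C * 1 := by rw [mul_one]; exact this
            _ ≤ _ := by gcongr
  · have hxneg : x < 0 := by linarith
    have habs : |x| = -x := abs_of_neg hxneg
    have hlx : lam ≤ 2 * |x| := by rw [habs]; linarith
    have h2 : (nrm d lam) ^ 2 ≤ 4 * (1 + |x|) ^ (d + 2) := by
      rw [nrm_sq (by linarith)]
      have h3 : lam / (2 * Real.pi) ≤ 1 + |x| := by
        rw [div_le_iff₀ (by positivity)]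
        nlinarith [Real.pi_gt_three, abs_nonneg x]
      have h5 : lam ^ 2 ≤ 4 * (1 + |x|) ^ 2 := by nlinarith [abs_nonneg x]
      have h6 : (lam / (2 * Real.pi)) ^ d ≤ (1 + |x|) ^ d := by
        gcongr
      calc lam ^ 2 * (lam / (2 * Real.pi)) ^ d ≤ (4 * (1 + |x|) ^ 2) * (1 + |x|) ^ d := by
            apply mul_le_mul h5 h6 (by positivity) (by positivity)
        _ = _ := by rw [pow_add]; ring
    have h3 : ∫⁻ σ in B, ‖(nrm d lam : ℂ) * fT K σ ((lam + x : ℝ) : ℂ)‖ₑ ^ 2 ≤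
        ENNReal.ofReal (4 * (1 + |x|) ^ (d + 2) * vK ^ 2 * vB) := by
      calc ∫⁻ σ in B, ‖(nrm d lam : ℂ) * fT K σ ((lam + x : ℝ) : ℂ)‖ₑ ^ 2
          ≤ ∫⁻ σ in B, ENNReal.ofReal (4 * (1 + |x|) ^ (d + 2) * vK ^ 2) := by
            apply lintegral_mono
            intro σ
            simp only
            rw [enorm_mul, mul_pow, ← ofReal_norm, ← ofReal_norm, Complex.norm_real,
              Real.norm_eq_abs, ← ENNReal.ofReal_pow (abs_nonneg _), sq_abs,
              ← ENNReal.ofReal_pow (norm_nonneg _), ← ENNReal.ofReal_mul (by positivity)]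
            apply ENNReal.ofReal_le_ofReal
            have := norm_fT_le hK σ (lam + x)
            gcongr
        _ = _ := by
            rw [lintegral_const, Measure.restrict_apply_univ, hvB',
              ← ENNReal.ofReal_mul (by positivity)]
    refine h1.trans ?_
    calc 2 * (∫⁻ σ in B, ‖(nrm d lam : ℂ) * fT K σ ((lam + x : ℝ) : ℂ)‖ₑ ^ 2) +
          ENNReal.ofReal (2 * M ^ 2 * vB)
        ≤ 2 * ENNReal.ofReal (4 * (1 + |x|) ^ (d + 2) * vK ^ 2 * vB) +
          ENNReal.ofReal (2 * M ^ 2 * vB) := by gcongr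
      _ = ENNReal.ofReal (2 * (4 * (1 + |x|) ^ (d + 2) * vK ^ 2 * vB) + 2 * M ^ 2 * vB) := by
          rw [ENNReal.ofReal_add (by positivity) (by positivity),
            ENNReal.ofReal_mul (p := 2) (by norm_num)]
          simp
      _ ≤ ENNReal.ofReal (C * (1 + |x|) ^ (d + 2)) := by
          apply ENNReal.ofReal_le_ofReal
          have h7 : 2 * M ^ 2 * vB ≤ 2 * M ^ 2 * vB * (1 + |x|) ^ (d + 2) := by
            have : 0 ≤ 2 * M ^ 2 * vB := by positivity
            nlinarith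
          have h8 : 0 ≤ 2 * c ^ 2 * CL * (1 + |x|) ^ (d + 2) := by positivity
          rw [hC]
          nlinarith

/-- **Control of complex windows on average**. -/
theorem eW_avg {K : Set (V d × ℝ)} (hK : IsCompact K) (hup : PosC2 (Hup K))
    (hdn : PosC2 (Hdn K)) (hA : AvgAsym K) {B : Set (V d)} (hB : Bornology.IsBounded B)
    (hBm : MeasurableSet B) {κ : ℝ → ℝ} (hκc : Continuous κ) (hκ0 : ∀ x, 0 ≤ κ x)
    (hκd : ∀ N : ℕ, ∃ C : ℝ, ∀ x, (1 + |x|) ^ N * κ x ≤ C) :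
    Tendsto (fun lam : ℝ => ∫⁻ σ in B, (eW κ K σ lam) ^ 2) atTop (𝓝 0) ∧
    ∃ C : NNReal, ∀ lam : ℝ, 1 ≤ lam → ∫⁻ σ in B, (eW κ K σ lam) ^ 2 ≤ C := by
  obtain ⟨C, hC0, hC⟩ := ErrW_sq_bound hK hup hdn hA hB hBm
  obtain ⟨Cκ, hCκ⟩ := hκd (d + 4)
  have hCκ0 : 0 ≤ Cκ := by
    have := hCκ 0
    simp only [abs_zero, add_zero, one_pow, one_mul] at this
    exact (hκ0 0).trans this
  -- the dominating function
  set bd : ℝ → ENNReal := fun x => ENNReal.ofReal (C * (1 + |x|) ^ (d + 2)) *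
    ENNReal.ofReal (κ x) with hbd
  have hbdle : ∀ x, bd x ≤ ENNReal.ofReal ((C * Cκ) * (1 + x ^ 2)⁻¹) := by
    intro x
    rw [hbd]
    simp only
    rw [← ENNReal.ofReal_mul (by positivity)]
    apply ENNReal.ofReal_le_ofReal
    have h1 := hCκ x
    have h2 : 1 + x ^ 2 ≤ (1 + |x|) ^ 2 := by nlinarith [abs_nonneg x, sq_abs x]
    have h3 : 0 < 1 + x ^ 2 := by positivity
    rw [← div_eq_mul_inv, le_div_iff₀ h3]
    have h4 := hκ0 x
    calc C * (1 + |x|) ^ (d + 2) * κ x * (1 + x ^ 2)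
        ≤ C * (1 + |x|) ^ (d + 2) * κ x * (1 + |x|) ^ 2 := by gcongr
      _ = C * ((1 + |x|) ^ (d + 4) * κ x) := by ring
      _ ≤ C * Cκ := by gcongr
  have hbdfin : ∫⁻ x, bd x ≠ ⊤ := by
    have h1 : Integrable (fun x : ℝ => (C * Cκ) * (1 + x ^ 2)⁻¹) :=
      integrable_inv_one_add_sq.const_mul _
    exact ne_top_of_le_ne_top h1.lintegral_lt_top.ne (lintegral_mono hbdle)
  have hκfin : ∫⁻ x : ℝ, ENNReal.ofReal (κ x) ≠ ⊤ := by
    have h1 : Integrable (fun x : ℝ => Cκ * (1 + x ^ 2)⁻¹) :=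
      integrable_inv_one_add_sq.const_mul _
    refine ne_top_of_le_ne_top h1.lintegral_lt_top.ne (lintegral_mono fun x => ?_)
    apply ENNReal.ofReal_le_ofReal
    have h1 := hCκ x
    have h2 : 1 + x ^ 2 ≤ (1 + |x|) ^ 2 := by nlinarith [abs_nonneg x, sq_abs x]
    have h3 : 0 < 1 + x ^ 2 := by positivity
    have h4 := hκ0 x
    rw [← div_eq_mul_inv, le_div_iff₀ h3]
    have h5 : (1 : ℝ) ≤ (1 + |x|) ^ (d + 2) := one_le_pow₀ (by linarith [abs_nonneg x])
    calc κ x * (1 + x ^ 2) ≤ κ x * (1 + |x|) ^ 2 := by gcongr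
      _ ≤ κ x * (1 + |x|) ^ 2 * (1 + |x|) ^ (d + 2) := by
          apply le_mul_of_one_le_right (by positivity) h5
      _ = (1 + |x|) ^ (d + 4) * κ x := by ring
      _ ≤ Cκ := h1
  set κI := ∫⁻ x : ℝ, ENNReal.ofReal (κ x) with hκI
  have hEc := continuous_ErrW hK hup hdn
  -- Tonelli
  have hmain : ∀ lam : ℝ, ∫⁻ σ in B, (eW κ K σ lam) ^ 2 ≤
      κI * ∫⁻ x : ℝ, (∫⁻ σ in B, ‖ErrW K σ lam x‖ₑ ^ 2) * ENNReal.ofReal (κ x) := by
    intro lam
    have hmeas : Measurable (fun q : V d × ℝ =>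
        ‖ErrW K q.1 lam (q.2 : ℂ)‖ₑ ^ 2 * ENNReal.ofReal (κ q.2)) := by
      have h1 : Continuous (fun q : V d × ℝ => ErrW K q.1 lam (q.2 : ℂ)) :=
        hEc.comp (f := fun q : V d × ℝ => (q.1, lam, q.2)) (by fun_prop)
      exact (h1.measurable.enorm.pow_const 2).mul (ENNReal.measurable_ofReal.comp
        (hκc.measurable.comp measurable_snd))
    calc ∫⁻ σ in B, (eW κ K σ lam) ^ 2
        ≤ ∫⁻ σ in B, κI * ∫⁻ x : ℝ, ‖ErrW K σ lam x‖ₑ ^ 2 * ENNReal.ofReal (κ x) := by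
          apply lintegral_mono
          intro σ
          exact eW_sq_le hK hup hdn hκc σ lam
      _ = κI * ∫⁻ σ in B, ∫⁻ x : ℝ, ‖ErrW K σ lam x‖ₑ ^ 2 * ENNReal.ofReal (κ x) := by
          rw [lintegral_const_mul' _ _ hκfin]
      _ = κI * ∫⁻ x : ℝ, ∫⁻ σ in B, ‖ErrW K σ lam x‖ₑ ^ 2 * ENNReal.ofReal (κ x) := by
          congr 1
          exact lintegral_lintegral_swap hmeas.aemeasurable
      _ = _ := by
          congr 1
          apply lintegral_congr
          intro x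
          rw [lintegral_mul_const']
          exact ENNReal.ofReal_ne_top
  constructor
  · have hdct : Tendsto (fun lam : ℝ => ∫⁻ x : ℝ, (∫⁻ σ in B, ‖ErrW K σ lam x‖ₑ ^ 2) *
        ENNReal.ofReal (κ x)) atTop (𝓝 (∫⁻ _ : ℝ, 0)) := by
      apply tendsto_lintegral_filter_of_dominated_convergence bd
      · apply Eventually.of_forall
        intro lam
        apply Measurable.mul _ (ENNReal.measurable_ofReal.comp hκc.measurable)
        apply Measurable.lintegral_prod_left'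
          (f := fun q : V d × ℝ => ‖ErrW K q.1 lam (q.2 : ℂ)‖ₑ ^ 2)
        have h1 : Continuous (fun q : V d × ℝ => ErrW K q.1 lam (q.2 : ℂ)) :=
          hEc.comp (f := fun q : V d × ℝ => (q.1, lam, q.2)) (by fun_prop)
        exact h1.measurable.enorm.pow_const 2
      · filter_upwards [eventually_ge_atTop 1] with lam hlam
        filter_upwards with x
        rw [hbd]
        simp only
        gcongr
        exact hC lam hlam x
      · exact hbdfin
      · filter_upwards with x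
        have h1 := ENNReal.Tendsto.mul_const (b := ENNReal.ofReal (κ x))
          (tendsto_ErrW hup hdn hA hB hBm x) (Or.inr ENNReal.ofReal_ne_top)
        rwa [zero_mul] at h1
    rw [lintegral_zero] at hdct
    have h2 := ENNReal.Tendsto.const_mul (a := κI) hdct (Or.inr hκfin)
    rw [mul_zero] at h2
    exact tendsto_of_tendsto_of_tendsto_of_le_of_le tendsto_const_nhds h2
      (fun _ => zero_le) hmain
  · have hfin : κI * ∫⁻ x, bd x ≠ ⊤ := ENNReal.mul_ne_top hκfin hbdfin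
    refine ⟨(κI * ∫⁻ x, bd x).toNNReal, fun lam hlam => ?_⟩
    rw [ENNReal.coe_toNNReal hfin]
    refine (hmain lam).trans ?_
    apply mul_le_mul_right
    apply lintegral_mono
    intro x
    dsimp only [bd]
    gcongr
    exact hC lam hlam x

end Pool.Agent.Helper77.Cov
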